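import Pool.Agent.Work.MP_308fa9_nt.CE.B

/-! # (B5): `l ≡ 9 mod 80` -/

set_option autoImplicit false

namespace MP308.CE

variable {c D : ℤ}

/-- the quotient sequence `W_{il}/W_l` -/
private def Vq (c D l i : ℤ) : ℤ := W c D (i * l) / W c D l

private theorem Vq_mul (hp : Par c D) (l i : ℤ) : Vq c D l i * W c D l = W c D (i * l) :=
  Int.ediv_mul_cancel (dvd_W hp.hc hp.hD _ _ (Dvd.intro_left _ rfl))

private theorem ell_Vq (hp : Par c D) {l : ℤ} (hl0 : l ≠ 0) : Ell (Vq c D l) where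
  zero := by
    have h0 := W_ne hp.hc hp.hD l hl0
    have := Vq_mul hp l 0
    rw [zero_mul, W_zero] at this
    exact (mul_eq_zero.1 this).resolve_right h0
  one := by
    have h0 := W_ne hp.hc hp.hD l hl0
    have := Vq_mul hp l 1
    rw [one_mul] at this
    exact mul_right_cancel₀ h0 (by rw [this, one_mul])
  neg n := by
    have h0 := W_ne hp.hc hp.hD l hl0
    apply mul_right_cancel₀ h0
    rw [neg_mul, Vq_mul hp, Vq_mul hp, neg_mul, W_neg]
  rel m n := by
    have h0 := W_ne hp.hc hp.hD l hl0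
    have h := (ell_W c D).three (m * l) (n * l) l
    rw [show m * l + n * l = (m + n) * l by ring, show m * l - n * l = (m - n) * l by ring,
      show m * l + l = (m + 1) * l by ring, show m * l - l = (m - 1) * l by ring,
      show n * l + l = (n + 1) * l by ring, show n * l - l = (n - 1) * l by ring,
      ← Vq_mul hp l (m + n), ← Vq_mul hp l (m - n), ← Vq_mul hp l (m + 1),
      ← Vq_mul hp l (m - 1), ← Vq_mul hp l (n + 1), ← Vq_mul hp l (n - 1),
      ← Vq_mul hp l m, ← Vq_mul hp l n] at h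
    apply mul_right_cancel₀ (pow_ne_zero 4 h0)
    linear_combination h

private theorem Vq_two (hp : Par c D) {l : ℤ} (hl0 : l ≠ 0) : Vq c D l 2 = T c D l := by
  have h0 := W_ne hp.hc hp.hD l hl0
  apply mul_right_cancel₀ h0
  rw [Vq_mul hp, W_dbl, mul_comm]

private theorem Vq_three (hp : Par c D) {l : ℤ} (hl0 : l ≠ 0) :
    Vq c D l 3 = W c D (2 * l + 1) * W c D (2 * l - 1)
      - W c D (l + 1) * W c D (l - 1) * T c D l ^ 2 := by
  have h0 := W_ne hp.hc hp.hD l hl0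
  apply mul_right_cancel₀ (pow_ne_zero 2 h0)
  have h := (ell_W c D).rel (2 * l) l
  rw [show 2 * l + l = 3 * l by ring, show 2 * l - l = l by ring, ← Vq_mul hp l 3, W_dbl] at h
  linear_combination h

/-- rank of apparition of a prime divisor of `W_l`, `l` prime -/
private theorem rank_l (hp : Par c D) {l : ℤ} (hlp : Prime l) {q : ℕ} (hq : q.Prime)
    (hqw : (q : ℤ) ∣ W c D l) :
    l.natAbs ≤ 2 * q + 1 ∧ 3 ≤ l.natAbs ∧ ∀ n : ℤ, (q : ℤ) ∣ W c D n ↔ l ∣ n := by
  obtain ⟨r, hr3, hr, hrn⟩ := rank_W hp.hc hp.hD q hq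
  have h1 := (hrn l).1 hqw
  have h2 : r ∣ l.natAbs := Int.natCast_dvd.1 h1
  have h3 : r = l.natAbs := by
    rcases (Nat.dvd_prime (Int.prime_iff_natAbs_prime.1 hlp)).1 h2 with h | h
    · omega
    · exact h
  subst h3
  refine ⟨hr, hr3, fun n => ?_⟩
  rw [hrn n, Int.natCast_natAbs, abs_dvd]

private theorem reg_Vq (hp : Par c D) {l : ℤ} (hlp : Prime l)
    (hl : 11 ≤ l.natAbs) (q : ℕ) [Fact q.Prime] (hqw : (q : ℤ) ∣ W c D l) :
    Reg (fun n => ((Vq c D l n : ℤ) : ZMod q)) := by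
  have hq : q.Prime := Fact.out
  have hl0 : l ≠ 0 := hlp.ne_zero
  obtain ⟨hr1, hr3, hrn⟩ := rank_l hp hlp hq hqw
  have hq5 : 5 ≤ q := by omega
  have hndvd : ∀ k : ℤ, ¬ l ∣ k → ¬ (q : ℤ) ∣ W c D (l + k) := by
    intro k hk hd
    rw [hrn] at hd
    exact hk ((dvd_add_right (dvd_refl l)).1 hd)
  have hk1 : ¬ l ∣ 1 := fun h => hlp.not_isUnit (isUnit_of_dvd_one h)
  have hk1' : ¬ l ∣ -1 := fun h => hk1 ((dvd_neg).1 h)
  have ha1 : ((W c D (l + 1) : ℤ) : ZMod q) ≠ 0 := by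
    rw [Ne, ZMod.intCast_zmod_eq_zero_iff_dvd]; exact hndvd 1 hk1
  have hb1 : ((W c D (l - 1) : ℤ) : ZMod q) ≠ 0 := by
    rw [Ne, ZMod.intCast_zmod_eq_zero_iff_dvd]; exact hndvd (-1) hk1'
  have hw : ((W c D l : ℤ) : ZMod q) = 0 := by
    rw [ZMod.intCast_zmod_eq_zero_iff_dvd]; exact hqw
  have hT := (T_sq hp hq (by omega) hqw).1
  refine reg_of_ne ((ell_Vq hp hl0).map (Int.castRingHom (ZMod q))) ?_ ?_
  · show ((Vq c D l 2 : ℤ) : ZMod q) ≠ 0
    rw [Ne, ZMod.intCast_zmod_eq_zero_iff_dvd, Vq_two hp hl0]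
    exact hT
  · show ((Vq c D l 3 : ℤ) : ZMod q) ≠ 0
    have e1 := congrArg (Int.cast : ℤ → ZMod q) (M_rel hp.hc hp.hD l)
    have e2 := congrArg (Int.cast : ℤ → ZMod q) (T_eq hp.hc hp.hD l)
    have e3 := congrArg (Int.cast : ℤ → ZMod q) (W_dbl_add_one c D l)
    have e4 := congrArg (Int.cast : ℤ → ZMod q) (W_dbl_add_one c D (l - 1))
    rw [show 2 * (l - 1) + 1 = 2 * l - 1 by ring, show l - 1 + 2 = l + 1 by ring,
      show l - 1 + 1 = l by ring] at e4
    push_cast at e1 e2 e3 e4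
    rw [hw] at e1 e2 e3 e4
    rw [Vq_three hp hl0]
    push_cast
    rw [e2, e3, e4]
    have h3 : (3 : ZMod q) ≠ 0 := by
      intro h
      have h' : ((3 : ℕ) : ZMod q) = 0 := by exact_mod_cast h
      rw [ZMod.natCast_eq_zero_iff] at h'
      have := Nat.le_of_dvd (by norm_num) h'
      omega
    have h4 : (3 : ZMod q) * (((W c D (l + 1) : ℤ) : ZMod q) * ((W c D (l - 1) : ℤ) : ZMod q)) ^ 4
        ≠ 0 := mul_ne_zero h3 (pow_ne_zero _ (mul_ne_zero ha1 hb1))
    intro h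
    apply h4
    rw [← h]
    linear_combination (4 * ((W c D (l + 1) : ℤ) : ZMod q) * ((W c D (l - 1) : ℤ) : ZMod q) ^ 3) * e1

/-- `V_i = W_{il}/W_l` is an `EDSZ` sequence for `|l| ≥ 11` prime, `l ≡ 1 mod 4`, `5 ∤ l`.
mod `q ∤ ω`: from `W`; mod `q ∣ ω`: `q ≥ 5` (`rank_W`), `V_2, V_3 ≢ 0 mod q`, `reg_of_ne`, `shift_sq`. -/
theorem edsz_V (hp : Par c D) {l : ℤ} (hlp : Prime l) (hl4 : l % 4 = 1) (hl5 : l % 5 ≠ 0)
    (hl : 11 ≤ l.natAbs) : EDSZ (fun i => W c D (i * l) / W c D l) := by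
  have hl0 : l ≠ 0 := hlp.ne_zero
  have h0 := W_ne hp.hc hp.hD l hl0
  have hodd : ¬ (2 : ℤ) ∣ W c D l := by
    rw [two_dvd_W_iff hp.hc hp.hD]; omega
  change EDSZ (Vq c D l)
  refine ⟨ell_Vq hp hl0, ?_, ?_, ?_, ?_⟩
  · intro n hn hv
    have h1 := Vq_mul hp l n
    rw [hv, zero_mul] at h1
    exact W_ne hp.hc hp.hD (n * l) (mul_ne_zero hn hl0) h1.symm
  · intro m n hmn
    rw [Int.isCoprime_iff_gcd_eq_one]
    by_contra hne
    obtain ⟨q, hq, hqd⟩ := Nat.exists_prime_and_dvd hne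
    have : Fact q.Prime := ⟨hq⟩
    have h1 : (q : ℤ) ∣ Vq c D l m := (Int.natCast_dvd_natCast.2 hqd).trans (Int.gcd_dvd_left ..)
    have h2 : (q : ℤ) ∣ Vq c D l n := (Int.natCast_dvd_natCast.2 hqd).trans (Int.gcd_dvd_right ..)
    obtain ⟨a, b, hab⟩ := hmn
    by_cases hqw : (q : ℤ) ∣ W c D l
    · obtain ⟨r, hr⟩ := (reg_Vq hp hlp hl q hqw).zset
      have h3 := (hr m).1 ((ZMod.intCast_zmod_eq_zero_iff_dvd _ _).2 h1)
      have h4 := (hr n).1 ((ZMod.intCast_zmod_eq_zero_iff_dvd _ _).2 h2)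
      have h5 : (r : ℤ) ∣ 1 := by
        rw [← hab]; exact dvd_add (h3.mul_left a) (h4.mul_left b)
      have h6 := (hr 1).2 h5
      rw [(ell_Vq hp hl0).one] at h6
      simp at h6
    · obtain ⟨r, hr3, hr, hrn⟩ := rank_W hp.hc hp.hD q hq
      apply hqw
      rw [hrn]
      have h3 := (hrn (m * l)).1 (by rw [← Vq_mul hp l m]; exact h1.mul_right _)
      have h4 := (hrn (n * l)).1 (by rw [← Vq_mul hp l n]; exact h2.mul_right _)
      have h5 : l = a * (m * l) + b * (n * l) := by linear_combination (-l) * hab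
      rw [h5]
      exact dvd_add (h3.mul_left a) (h4.mul_left b)
  · intro n hn
    have h1 := Vq_mul hp l n
    have h2 : 0 < W c D (n * l) := (edsz_W hp).pos _ (by rw [Int.mul_emod, hn, hl4]; rfl)
    have h3 : 0 < W c D l := (edsz_W hp).pos _ hl4
    rw [← h1] at h2
    exact (mul_pos_iff_of_pos_right h3).1 h2
  · intro q hq hq2 n s s' hn hss hs hs'
    have : Fact q.Prime := ⟨hq⟩
    by_cases hqw : (q : ℤ) ∣ W c D l
    · have hreg := reg_Vq hp hlp hl q hqw
      have := shift_sq hreg n s s' ((ZMod.intCast_zmod_eq_zero_iff_dvd _ _).2 hn)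
        (fun h => hs ((ZMod.intCast_zmod_eq_zero_iff_dvd _ _).1 h))
        (fun h => hs' ((ZMod.intCast_zmod_eq_zero_iff_dvd _ _).1 h)) hss
      push_cast
      exact this
    · have hnd : ∀ k : ℤ, ¬ (q : ℤ) ∣ Vq c D l k → ¬ (q : ℤ) ∣ W c D (k * l) := by
        intro k hk hd
        rw [← Vq_mul hp l k] at hd
        rcases (Nat.prime_iff_prime_int.1 hq).dvd_or_dvd hd with h | h
        · exact hk h
        · exact hqw h
      have hw : ((W c D l : ℤ) : ZMod q) ≠ 0 := by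
        rw [Ne, ZMod.intCast_zmod_eq_zero_iff_dvd]; exact hqw
      obtain ⟨x, hx⟩ := (edsz_W hp).shift q hq hq2 (n * l) (s * l) (s' * l)
        (by rw [← Vq_mul hp l n]; exact hn.mul_right _)
        (by rw [Int.mul_emod, hss, ← Int.mul_emod]) (hnd s hs) (hnd s' hs')
      rw [show s * l + n * l = (s + n) * l by ring, show s' * l + n * l = (s' + n) * l by ring,
        ← Vq_mul hp l (s + n), ← Vq_mul hp l (s' + n), ← Vq_mul hp l s, ← Vq_mul hp l s'] at hx
      push_cast at hx ⊢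
      refine ⟨x / ((W c D l : ℤ) : ZMod q) ^ 2, ?_⟩
      field_simp
      linear_combination hx

theorem caseB5 (hp : Par c D) {t l h : ℤ} (hlp : Prime l) (hl : l % 80 = 9) (hh : 8 * h = l - 1)
    (htl : l ∣ t) (ht : 32 * h ∣ t - 1) (hg : Good c D t (16 * (h * l))) : False := by
  have hl0 : l ≠ 0 := hlp.ne_zero
  have h0 := W_ne hp.hc hp.hD l hl0
  have hl4 : l % 4 = 1 := by omega
  have hl5 : l % 5 ≠ 0 := by omega
  have hl9 : l ≠ 9 := by
    rintro rfl
    have := Int.prime_iff_natAbs_prime.1 hlp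
    norm_num at this
  have hl11 : 11 ≤ l.natAbs := by omega
  have hh10 : h % 10 = 1 := by omega
  have hh0 : h ≠ 0 := by omega
  have hE := edsz_V hp hlp hl4 hl5 hl11
  change EDSZ (Vq c D l) at hE
  have hlh : ¬ l ∣ h := by
    intro hd
    have h1 : l ∣ 8 * h := hd.mul_left 8
    rw [hh] at h1
    have h2 : l ∣ 1 := by
      have := dvd_sub (dvd_refl l) h1
      rwa [show l - (l - 1) = 1 by ring] at this
    exact hlp.not_isUnit (isUnit_of_dvd_one h2)
  -- tau = 2 - l = 1 - 8 h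
  have hτ : (2 - l : ℤ) = 1 - 8 * h := by omega
  set τ : ℤ := 2 - l with hτdef
  have hτ0 : τ ≠ 0 := by omega
  have hτ4 : τ % 4 = 1 := by omega
  have hlτ : l * τ = 1 - 64 * h ^ 2 := by
    rw [hτ, show l = 8 * h + 1 by omega]; ring
  have hstar : jacobiSym (W c D (l * τ)) (op (U c D l h 4)) = 1 := by
    refine star hp hl4 hlp (by omega) hlh (by norm_num) htl ?_ ?_ ?_
    · rw [show (2 : ℤ) ^ (4 + 1) * h = 32 * h by norm_num]; exact ht
    · rw [hlτ]; exact ⟨-2 * h, by ring⟩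
    · rw [show (2 : ℤ) ^ 4 * (h * l) = 16 * (h * l) by norm_num]; exact hg
  -- U
  have hU : W c D (h * l) * U c D l h 4 = W c D (16 * (h * l)) := by
    have := W_mul_U (c := c) (D := D) l h 4
    rwa [show (2 : ℤ) ^ 4 = 16 by norm_num] at this
  have hWhl0 : W c D (h * l) ≠ 0 := W_ne hp.hc hp.hD _ (mul_ne_zero hh0 hl0)
  have hW16 : W c D (16 * (h * l)) ≠ 0 :=
    W_ne hp.hc hp.hD _ (mul_ne_zero (by norm_num) (mul_ne_zero hh0 hl0))
  have hU0 : U c D l h 4 ≠ 0 := by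
    intro h1; rw [h1, mul_zero] at hU; exact hW16 hU.symm
  have hUV : Vq c D l h * U c D l h 4 = Vq c D l (16 * h) := by
    apply mul_right_cancel₀ h0
    rw [Vq_mul hp, show 16 * h * l = 16 * (h * l) by ring, ← hU, ← Vq_mul hp l h]; ring
  -- residues
  have rω : W c D l % 8 = 3 := by
    rw [W_mod8 hp.hc hp.hD]
    simp only [tab, show l % 20 = 9 by omega]
    split_ifs <;> rfl
  have hcm : c % 4 = 0 ∨ c % 4 = 2 := by have := hp.hc; omega
  have hl20 : l % 20 = 9 := by omega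
  have hhl : (h * l) % 20 = 9 ∨ (h * l) % 20 = 19 := by
    have h20 : h % 20 = 1 ∨ h % 20 = 11 := by omega
    rw [Int.mul_emod, hl20]
    rcases h20 with h20 | h20 <;> rw [h20] <;> norm_num
  have rhl : W c D (h * l) % 4 = 3 := by
    have h1 : W c D (h * l) % 8 = 3 ∨ W c D (h * l) % 8 = 7 := by
      rw [W_mod8 hp.hc hp.hD]
      simp only [tab]
      rcases hhl with h2 | h2 <;> rw [h2] <;> split_ifs <;> decide
    omega
  have r16 : W c D (16 * (h * l)) % 4 = 3 := by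
    have h1 : W c D (16 * (h * l)) % 8 = 3 ∨ W c D (16 * (h * l)) % 8 = 7 := by
      rw [W_mod8 hp.hc hp.hD]
      simp only [tab, show (16 * (h * l)) % 20 = 4 by omega]
      split_ifs <;> decide
    omega
  have rU : U c D l h 4 % 4 = 1 := by
    have h1 : (W c D (h * l) * U c D l h 4) % 4 = 3 := by rw [hU]; exact r16
    rw [Int.mul_emod, rhl] at h1
    omega
  have rτ : Vq c D l τ % 8 = 1 := by
    have h1 : W c D (τ * l) % 8 = 3 := by
      have h3 : (τ * l) % 20 = 17 := by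
        rw [mul_comm, hlτ]
        have h20 : h % 20 = 1 ∨ h % 20 = 11 := by omega
        have : (h ^ 2) % 20 = 1 := by
          rw [pow_two, Int.mul_emod]
          rcases h20 with h20 | h20 <;> rw [h20] <;> norm_num
        omega
      rw [W_mod8 hp.hc hp.hD]
      simp only [tab, h3]
      split_ifs <;> rfl
    rw [← Vq_mul hp, Int.mul_emod, rω] at h1
    omega
  -- (ω/U) = -1
  have hω : jacobiSym (W c D l) (op (U c D l h 4)) = -1 := by
    rw [jac_omega hp hl4 hl5 hlp (by omega) (by omega) (by norm_num),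
      hil_odd_odd (by omega) (by omega), c_odd_neg hp (by omega),
      jac_two (by omega) ((edsz_W hp).pos _ hl4)]
    rw [if_neg (by omega), if_pos (by omega)]
    norm_num
  -- coprimality
  have hc1 : IsCoprime τ h := ⟨1, 8, by rw [hτ]; ring⟩
  have hc2 : IsCoprime τ (16 * h) := by
    have h2 : IsCoprime τ (2 : ℤ) := ⟨1, 4 * h, by rw [hτ]; ring⟩
    have h16 : IsCoprime τ (2 ^ 4 : ℤ) := h2.pow_right
    rw [show (16 : ℤ) * h = 2 ^ 4 * h by norm_num]
    exact h16.mul_right hc1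
  have hc3 : IsCoprime τ 2 := ⟨1, 4 * h, by rw [hτ]; ring⟩
  have hVU : IsCoprime (Vq c D l τ) (U c D l h 4) := by
    have h1 := hE.cop _ _ hc2
    rw [← hUV] at h1
    exact h1.of_mul_right_right
  have hVτ := hE.pos τ hτ4
  -- (V_{16h}/V_τ) = 1
  have e1 : J (Vq c D l) (16 * h) τ = 1 := by
    have h1 : J (Vq c D l) (16 * h) τ = J (Vq c D l) 2 τ :=
      J_period hE hτ0 hc3.symm ⟨-1, by rw [hτ]; ring⟩
    rw [h1]
    have h2 : J (Vq c D l) τ 2 = 1 := by
      rw [J_period hE (s := 1) (by norm_num) isCoprime_one_left ⟨-2 * h, by rw [hτ]; ring⟩, J_one hE]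
    have h3 := J_flip hE (s := τ) (n := 2) (by norm_num) hc3 hτ4
    rw [h2, one_mul, hil_of_one rτ (hE.ne 2 (by norm_num))] at h3
    exact h3
  have e2 : J (Vq c D l) h τ = 1 := by
    have h2 : J (Vq c D l) τ h = 1 := by
      rw [J_period hE (s := 1) hh0 isCoprime_one_left ⟨-4, by rw [hτ]; ring⟩, J_one hE]
    have h3 := J_flip hE (s := τ) (n := h) hh0 hc1 hτ4
    rw [h2, one_mul, hil_of_one rτ (hE.ne h hh0)] at h3
    exact h3
  have e3 : jacobiSym (U c D l h 4) (op (Vq c D l τ)) = 1 := by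
    have h1 := e1
    unfold J at h1 e2
    rw [← hUV, jacobiSym.mul_left, e2, one_mul] at h1
    exact h1
  have e4 : jacobiSym (Vq c D l τ) (op (U c D l h 4)) = 1 := by
    have h1 := flip hVτ hU0 hVU
    rw [e3, mul_one, hil_of_one rτ hU0] at h1
    exact h1
  rw [mul_comm l τ, ← Vq_mul hp l τ, jacobiSym.mul_left, e4, hω] at hstar
  norm_num at hstar

end MP308.CE
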