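import Pool.Agent.Work.MP_308fa9_nt.CE.WReg

/-! # `V_i = W_{il}/W_l` is an `EDSZ` sequence -/

set_option autoImplicit false

namespace MP308.CE

variable {c D : ℤ}

/-- `V_i = W_{il}/W_l` -/
private def Vq (c D l i : ℤ) : ℤ := W c D (i * l) / W c D l

private theorem Vq_mul (hc : c % 2 = 0) (hD : D % 8 = 3) (l i : ℤ) :
    Vq c D l i * W c D l = W c D (i * l) :=
  Int.ediv_mul_cancel (dvd_W hc hD _ _ (dvd_mul_left l i))

private theorem Vq_ell (hc : c % 2 = 0) (hD : D % 8 = 3) {l : ℤ} (hl : l ≠ 0) :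
    Ell (Vq c D l) := by
  have w0 : W c D l ≠ 0 := W_ne hc hD l hl
  have hm := Vq_mul hc hD l
  constructor
  · simp [Vq, W_zero]
  · simp only [Vq, one_mul]
    exact Int.ediv_self w0
  · intro n
    apply mul_right_cancel₀ w0
    rw [hm, neg_mul, neg_mul, hm, W_neg]
  · intro m n
    have h3 := (ell_W c D).three (m * l) (n * l) l
    rw [← add_mul, ← sub_mul, show m * l + l = (m + 1) * l by ring,
      show m * l - l = (m - 1) * l by ring, show n * l + l = (n + 1) * l by ring,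
      show n * l - l = (n - 1) * l by ring, ← hm, ← hm, ← hm, ← hm, ← hm, ← hm, ← hm, ← hm] at h3
    have w4 : W c D l ^ 4 ≠ 0 := pow_ne_zero 4 w0
    apply mul_right_cancel₀ w4
    linear_combination h3

private theorem Vq_rank (hc : c % 2 = 0) (hD : D % 8 = 3) {l : ℤ} (hlp : Prime l)
    (hl : 11 ≤ l.natAbs) {q : ℕ} (hq : q.Prime) (hql : (q : ℤ) ∣ W c D l) :
    5 ≤ q ∧ ∀ n : ℤ, (q : ℤ) ∣ W c D n ↔ l ∣ n := by
  obtain ⟨r, hr3, hrq, hr⟩ := rank_W hc hD q hq
  have h1 : (r : ℤ) ∣ l := (hr l).mp hql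
  have h2 : r ∣ l.natAbs := Int.natCast_dvd.mp h1
  have h3 : r = l.natAbs := by
    have hp : l.natAbs.Prime := Int.prime_iff_natAbs_prime.mp hlp
    rcases (Nat.dvd_prime hp).mp h2 with h | h
    · omega
    · exact h
  refine ⟨by omega, fun n => ?_⟩
  rw [hr n, h3, Int.natAbs_dvd]

private theorem Vq_unit (hc : c % 2 = 0) (hD : D % 8 = 3) {l : ℤ} (hlp : Prime l)
    (hl : 11 ≤ l.natAbs) {q : ℕ} (hq : q.Prime) (hql : (q : ℤ) ∣ W c D l) :
    ¬ (q : ℤ) ∣ Vq c D l 2 ∧ ¬ (q : ℤ) ∣ Vq c D l 3 := by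
  obtain ⟨hq5, hr⟩ := Vq_rank hc hD hlp hl hq hql
  have w0 : W c D l ≠ 0 := W_ne hc hD l hlp.ne_zero
  have hqp : Prime (q : ℤ) := Nat.prime_iff_prime_int.mp hq
  have hm := Vq_mul hc hD l
  have nd : ∀ k : ℤ, k ≠ 0 → k.natAbs < 11 → ¬ (q : ℤ) ∣ W c D (l + k) := by
    intro k hk hk2 h
    rw [hr] at h
    have h2 : l ∣ k := (dvd_add_right (dvd_refl l)).mp h
    have h3 : l.natAbs ∣ k.natAbs := Int.natAbs_dvd_natAbs.mpr h2
    have h4 := Nat.le_of_dvd (by omega) h3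
    omega
  have np1 : ¬ (q : ℤ) ∣ W c D (l + 1) := nd 1 (by norm_num) (by norm_num)
  have np2 : ¬ (q : ℤ) ∣ W c D (l + 2) := nd 2 (by norm_num) (by norm_num)
  have nm1 : ¬ (q : ℤ) ∣ W c D (l - 1) := nd (-1) (by norm_num) (by norm_num)
  have q2 : ¬ (q : ℤ) ∣ 2 := by
    intro h
    have := Int.le_of_dvd (by norm_num) h
    omega
  have q3 : ¬ (q : ℤ) ∣ 3 := by
    intro h
    have := Int.le_of_dvd (by norm_num) h
    omega
  have hT : Vq c D l 2 = T c D l := by
    apply mul_right_cancel₀ w0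
    rw [hm, W_dbl, mul_comm]
  have hTe := T_eq hc hD l
  have hM := M_rel hc hD l
  obtain ⟨u, hu⟩ := hql
  constructor
  · intro h
    rw [hT, hTe] at h
    have h2 : (q : ℤ) ∣ 2 * W c D (l + 2) * W c D (l - 1) ^ 2 := by
      have h3 : 2 * W c D (l + 2) * W c D (l - 1) ^ 2
          = (2 * W c D (l + 2) * W c D (l - 1) ^ 2 + W c D l ^ 3
            - 2 * c * W c D (l - 1) * W c D l * W c D (l + 1))
            - W c D l * (W c D l ^ 2 - 2 * c * W c D (l - 1) * W c D (l + 1)) := by ring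
      rw [h3]
      exact dvd_sub h ((Dvd.intro u hu.symm).mul_right _)
    rcases hqp.dvd_or_dvd h2 with h3 | h3
    · rcases hqp.dvd_or_dvd h3 with h4 | h4
      · exact q2 h4
      · exact np2 h4
    · exact nm1 (hqp.dvd_of_dvd_pow h3)
  · intro h
    have e1 : Vq c D l 3 = W c D (2 * l + 1) * W c D (2 * l - 1)
        - W c D (l + 1) * W c D (l - 1) * Vq c D l 2 ^ 2 := by
      have h4 := (ell_W c D).rel (2 * l) l
      rw [show 2 * l + l = 3 * l by ring, show 2 * l - l = l by ring, ← hm, ← hm 2] at h4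
      have w2 : W c D l ^ 2 ≠ 0 := pow_ne_zero 2 w0
      apply mul_right_cancel₀ w2
      linear_combination h4
    have e2 := W_dbl_add_one c D l
    have e3 := W_dbl_add_one c D (l - 1)
    rw [show 2 * (l - 1) + 1 = 2 * l - 1 by ring, show l - 1 + 2 = l + 1 by ring,
      show l - 1 - 1 = l - 2 by ring, show l - 1 + 1 = l by ring] at e3
    rw [e1, hT, hTe, e2, e3] at h
    have h5 : (q : ℤ) ∣ 3 * (W c D (l + 1) * W c D (l - 1)) ^ 4 := by
      have h6 : ∃ z : ℤ, 3 * (W c D (l + 1) * W c D (l - 1)) ^ 4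
          = ((W c D (l + 2) * W c D l ^ 3 - W c D (l - 1) * W c D (l + 1) ^ 3)
            * (W c D (l + 1) * W c D (l - 1) ^ 3 - W c D (l - 2) * W c D l ^ 3)
            - W c D (l + 1) * W c D (l - 1) * (2 * W c D (l + 2) * W c D (l - 1) ^ 2 + W c D l ^ 3
            - 2 * c * W c D (l - 1) * W c D l * W c D (l + 1)) ^ 2) + q * z := by
        obtain ⟨Z, hZ⟩ : ∃ Z : ℤ, Z = W c D (l + 2) * W c D (l + 1) * W c D (l - 1) ^ 3 * W c D l ^ 2
            - W c D (l + 2) * W c D (l - 2) * W c D l ^ 5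
            + W c D (l - 1) * W c D (l + 1) ^ 3 * W c D (l - 2) * W c D l ^ 2
            - W c D (l + 1) * W c D (l - 1) * (4 * W c D (l + 2) * W c D (l - 1) ^ 2
              * (W c D l ^ 2 - 2 * c * W c D (l - 1) * W c D (l + 1))
              + W c D l * (W c D l ^ 2 - 2 * c * W c D (l - 1) * W c D (l + 1)) ^ 2)
            - 4 * W c D (l + 1) * W c D (l - 1) ^ 3
              * (2 * c * W c D (l + 1) * W c D (l + 2) * W c D (l - 1)
                - W c D (l + 2) * W c D l ^ 2 - D * W c D l * W c D (l + 1) ^ 2) := ⟨_, rfl⟩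
        refine ⟨-(u * Z), ?_⟩
        have h7 : (q : ℤ) * -(u * Z) = -(W c D l * Z) := by rw [hu]; ring
        rw [h7, hZ]
        linear_combination 4 * W c D (l + 1) * W c D (l - 1) ^ 3 * hM
      obtain ⟨z, hz⟩ := h6
      rw [hz]
      exact dvd_add h (dvd_mul_right _ _)
    rcases hqp.dvd_or_dvd h5 with h6 | h6
    · exact q3 h6
    · rcases hqp.dvd_or_dvd (hqp.dvd_of_dvd_pow h6) with h7 | h7
      · exact np1 h7
      · exact nm1 h7

private theorem Vq_dvd_iff (hc : c % 2 = 0) (hD : D % 8 = 3) {l : ℤ} {q : ℕ} (hq : q.Prime)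
    (hql : ¬ (q : ℤ) ∣ W c D l) (i : ℤ) : (q : ℤ) ∣ Vq c D l i ↔ (q : ℤ) ∣ W c D (i * l) := by
  rw [← Vq_mul hc hD l i]
  constructor
  · intro h
    exact h.mul_right _
  · intro h
    rcases (Nat.prime_iff_prime_int.mp hq).dvd_or_dvd h with h1 | h1
    · exact h1
    · exact absurd h1 hql

private theorem Vq_reg (hc : c % 2 = 0) (hD : D % 8 = 3) {l : ℤ} (hlp : Prime l)
    (hl : 11 ≤ l.natAbs) {q : ℕ} [Fact q.Prime] (hql : (q : ℤ) ∣ W c D l) :
    Reg (fun i => ((Vq c D l i : ℤ) : ZMod q)) := by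
  have h := Vq_unit hc hD hlp hl (Fact.out : q.Prime) hql
  apply reg_of_ne
  · exact (Vq_ell hc hD hlp.ne_zero).map (Int.castRingHom (ZMod q))
  · rw [Ne, ZMod.intCast_zmod_eq_zero_iff_dvd]
    exact h.1
  · rw [Ne, ZMod.intCast_zmod_eq_zero_iff_dvd]
    exact h.2

/-- `V_i = W_{il}/W_l` is an `EDSZ` sequence for `|l| ≥ 11` prime, `l ≡ 1 mod 4`, `5 ∤ l`.
mod `q ∤ ω`: from `W`; mod `q ∣ ω`: `q ≥ 5` (`rank_W`), `V_2, V_3 ≢ 0 mod q`, `reg_of_ne`, `shift_sq`. -/
theorem edsz_V (hp : Par c D) {l : ℤ} (hlp : Prime l) (hl4 : l % 4 = 1) (hl5 : l % 5 ≠ 0)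
    (hl : 11 ≤ l.natAbs) : EDSZ (fun i => W c D (i * l) / W c D l) := by
  have hc := hp.hc
  have hD := hp.hD
  have w0 : W c D l ≠ 0 := W_ne hc hD l hlp.ne_zero
  have hm := Vq_mul hc hD l
  change EDSZ (Vq c D l)
  refine ⟨Vq_ell hc hD hlp.ne_zero, ?_, ?_, ?_, ?_⟩
  · intro n hn h
    have h1 := hm n
    rw [h, zero_mul] at h1
    exact W_ne hc hD (n * l) (mul_ne_zero hn hlp.ne_zero) h1.symm
  · -- coprimality
    intro m n hmn
    rw [Int.isCoprime_iff_gcd_eq_one]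
    by_contra hg
    obtain ⟨q, hq, hqd⟩ := Nat.exists_prime_and_dvd hg
    have hqm : (q : ℤ) ∣ Vq c D l m := (Int.natCast_dvd_natCast.mpr hqd).trans (Int.gcd_dvd_left ..)
    have hqn : (q : ℤ) ∣ Vq c D l n := (Int.natCast_dvd_natCast.mpr hqd).trans (Int.gcd_dvd_right ..)
    obtain ⟨u, v, huv⟩ := hmn
    by_cases hql : (q : ℤ) ∣ W c D l
    · have : Fact q.Prime := ⟨hq⟩
      obtain ⟨r, hr⟩ := (Vq_reg hc hD hlp hl hql).zset
      simp only [ZMod.intCast_zmod_eq_zero_iff_dvd] at hr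
      have h1 : (r : ℤ) ∣ 1 := by
        rw [← huv]
        exact dvd_add (((hr m).mp hqm).mul_left _) (((hr n).mp hqn).mul_left _)
      have h2 := (hr 1).mpr h1
      rw [(Vq_ell hc hD hlp.ne_zero).one] at h2
      have := Int.le_of_dvd (by norm_num) h2
      have := hq.two_le
      omega
    · rw [Vq_dvd_iff hc hD hq hql] at hqm hqn
      obtain ⟨r, -, -, hr⟩ := rank_W hc hD q hq
      rw [hr] at hqm hqn
      apply hql
      rw [hr]
      have h1 : l = u * (m * l) + v * (n * l) := by linear_combination (-l) * huv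
      rw [h1]
      exact dvd_add (hqm.mul_left _) (hqn.mul_left _)
  · intro n hn
    have h1 := W_pos hp (n * l) (by rw [Int.mul_emod, hn, hl4]; norm_num)
    have h2 := W_pos hp l hl4
    rw [← hm] at h1
    exact pos_of_mul_pos_left h1 h2.le
  · intro q hq hq2 n s s' hn hss hs hs'
    have : Fact q.Prime := ⟨hq⟩
    by_cases hql : (q : ℤ) ∣ W c D l
    · have h1 := shift_sq (Vq_reg hc hD hlp hl hql) n s s'
        (by simpa only [ZMod.intCast_zmod_eq_zero_iff_dvd] using hn)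
        (by simpa only [Ne, ZMod.intCast_zmod_eq_zero_iff_dvd] using hs)
        (by simpa only [Ne, ZMod.intCast_zmod_eq_zero_iff_dvd] using hs') hss
      push_cast
      exact h1
    · rw [Vq_dvd_iff hc hD hq hql] at hn hs hs'
      have h1 := (edsz_W hp).shift q hq hq2 (n * l) (s * l) (s' * l) hn
        (by rw [Int.mul_emod, hss, ← Int.mul_emod]) hs hs'
      rw [← add_mul, ← add_mul, ← hm, ← hm, ← hm, ← hm] at h1
      obtain ⟨z, hz⟩ := h1
      have hne : ((W c D l : ℤ) : ZMod q) ≠ 0 := by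
        rw [Ne, ZMod.intCast_zmod_eq_zero_iff_dvd]
        exact hql
      refine ⟨z / ((W c D l : ℤ) : ZMod q) ^ 2, ?_⟩
      push_cast at hz ⊢
      field_simp
      linear_combination hz

end MP308.CE
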