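import Pool.Agent.Work.MP_308fa9_nt.CE.KW

/-! # (1.5): `W_n > 0` for `n ≡ 1 mod 4`

HINT. Work with the real numbers `x_m = -W_{m+1} W_{m-1} / W_m²` (`m ≠ 0`). `M_rel` at `n = m - 1` says: with
`t = x_{m-1} x_m - c` one has `t² = x_{m-1} + x_m + a`, `a = c² - D` (`m ≠ 0, 1`). So
`x² + (a - t²) x + (c + t) = (x - x_{m-1})(x - x_m)` for all real `x`, and with
`φ(x) = 4x³+4ax²+4cx+1 = 4x (x² + (a-t²)x + (c+t)) + (2tx-1)²`.
There is `t₀ > 0` with `t₀³ - a t₀ = 1` (IVT); `x₀ = 1/(2t₀) = (t₀²-a)/2 > 0`, `φ(x₀) = -x₀ F(t₀) < 0`.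
Hence `(x₀ - x_{m-1})(x₀ - x_m) < 0` for `m ≥ 2`; `x_1 = 0 < x₀`. So `x_m - x₀` and then
`x_{m-1} - x_m = W_{2m-1}/(W_m W_{m-1})²` (that is `W_dbl_add_one`) alternate in sign. -/

set_option autoImplicit false

namespace MP308.CE

variable {c D : ℤ}

/-- the x-coordinate of `m Q₀` -/
private noncomputable def xr (c D m : ℤ) : ℝ :=
  -((W c D (m + 1) : ℝ) * (W c D (m - 1) : ℝ)) / (W c D m : ℝ) ^ 2

private theorem exists_t0 (a : ℝ) : ∃ t : ℝ, 0 < t ∧ t ^ 3 - a * t = 1 := by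
  have hcont : ContinuousOn (fun t : ℝ => t ^ 3 - a * t) (Set.Icc 0 (|a| + 1)) := by fun_prop
  have h0 : (0 : ℝ) ≤ |a| + 1 := by positivity
  have himg := intermediate_value_Icc h0 hcont
  have h1 : (1 : ℝ) ∈ Set.Icc ((fun t : ℝ => t ^ 3 - a * t) 0)
      ((fun t : ℝ => t ^ 3 - a * t) (|a| + 1)) := by
    constructor
    · norm_num
    · simp only
      have ha := le_abs_self a
      have ha0 := abs_nonneg a
      nlinarith [mul_nonneg ha0 ha0, mul_nonneg (mul_nonneg ha0 ha0) ha0,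
        mul_nonneg (sub_nonneg.mpr ha) (show (0 : ℝ) ≤ |a| + 1 by positivity)]
  obtain ⟨t, ht, h⟩ := himg h1
  simp only at h
  refine ⟨t, ?_, h⟩
  rcases eq_or_lt_of_le ht.1 with h2 | h2
  · rw [← h2] at h
    norm_num at h
  · exact h2

private theorem exists_x0 (h : Par c D) :
    ∃ x₀ : ℝ, 0 < x₀ ∧ ∀ t : ℝ,
      x₀ ^ 2 + ((c : ℝ) ^ 2 - D - t ^ 2) * x₀ + (c + t) < 0 := by
  obtain ⟨t₀, ht₀, he⟩ := exists_t0 ((c : ℝ) ^ 2 - D)
  have hF := h.hF t₀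
  obtain ⟨x₀, hx⟩ : ∃ x₀ : ℝ, x₀ = 1 / (2 * t₀) := ⟨_, rfl⟩
  have hx0 : 0 < x₀ := by rw [hx]; positivity
  refine ⟨x₀, hx0, fun t => ?_⟩
  have h2 : 2 * t₀ * x₀ = 1 := by rw [hx]; field_simp
  have h3 : t₀ ^ 2 - ((c : ℝ) ^ 2 - D) = 2 * x₀ := by
    have : (t₀ ^ 2 - ((c : ℝ) ^ 2 - D)) * t₀ = 2 * x₀ * t₀ := by
      linear_combination he - h2
    exact mul_right_cancel₀ ht₀.ne' this
  rw [h3] at hF
  -- `φ(x₀) = 4 x₀ g_t(x₀) + (2 t x₀ - 1)²` for `t` and for `t₀`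
  have key : 4 * x₀ * (x₀ ^ 2 + ((c : ℝ) ^ 2 - D - t ^ 2) * x₀ + (c + t))
      = 4 * x₀ * (x₀ ^ 2 + ((c : ℝ) ^ 2 - D - t₀ ^ 2) * x₀ + (c + t₀)) - (2 * t * x₀ - 1) ^ 2 := by
    linear_combination (2 * t₀ * x₀ - 1) * h2
  have h5 : x₀ ^ 2 + ((c : ℝ) ^ 2 - D - t₀ ^ 2) * x₀ + (c + t₀) < 0 := by
    have : (c : ℝ) ^ 2 - D - t₀ ^ 2 = -(2 * x₀) := by linear_combination -h3
    rw [this]
    nlinarith
  have h6 : 4 * x₀ * (x₀ ^ 2 + ((c : ℝ) ^ 2 - D - t ^ 2) * x₀ + (c + t)) < 0 := by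
    rw [key]
    have := mul_pos hx0 (neg_pos.mpr h5)
    nlinarith [sq_nonneg (2 * t * x₀ - 1)]
  by_contra hcon
  push Not at hcon
  have := mul_nonneg (show (0 : ℝ) ≤ 4 * x₀ by positivity) hcon
  linarith

private theorem xr_prod (hc : c % 2 = 0) (hD : D % 8 = 3) {m : ℤ} (hm : 2 ≤ m) (x : ℝ) :
    ∃ t : ℝ, x ^ 2 + ((c : ℝ) ^ 2 - D - t ^ 2) * x + (c + t)
      = (x - xr c D (m - 1)) * (x - xr c D m) := by
  have w0 : (W c D m : ℝ) ≠ 0 := by exact_mod_cast W_ne hc hD m (by omega)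
  have w1 : (W c D (m - 1) : ℝ) ≠ 0 := by exact_mod_cast W_ne hc hD (m - 1) (by omega)
  have hM := M_rel hc hD (m - 1)
  rw [show m - 1 + 2 = m + 1 by ring, show m - 1 + 1 = m by ring,
    show m - 1 - 1 = m - 2 by ring] at hM
  have hM' : (W c D (m + 1) : ℝ) * (W c D (m - 1) : ℝ) ^ 3 + (W c D m : ℝ) ^ 3 * (W c D (m - 2) : ℝ)
      + ((c : ℝ) * W c D (m - 1) * W c D m - W c D (m + 1) * W c D (m - 2)) ^ 2
      = ((c : ℝ) ^ 2 - D) * (W c D (m - 1) : ℝ) ^ 2 * (W c D m : ℝ) ^ 2 := by exact_mod_cast hM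
  refine ⟨xr c D (m - 1) * xr c D m - c, ?_⟩
  have h1 : xr c D (m - 1) * xr c D m
      = (W c D (m - 2) : ℝ) * W c D (m + 1) / (W c D (m - 1) * W c D m) := by
    simp only [xr]
    rw [show m - 1 + 1 = m by ring, show m - 1 - 1 = m - 2 by ring]
    field_simp
  have h2 : (xr c D (m - 1) * xr c D m - c) ^ 2 = xr c D (m - 1) + xr c D m + ((c : ℝ) ^ 2 - D) := by
    rw [h1]
    simp only [xr]
    rw [show m - 1 + 1 = m by ring, show m - 1 - 1 = m - 2 by ring]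
    field_simp
    linear_combination hM'
  rw [h2]
  ring

private theorem xr_sub (hc : c % 2 = 0) (hD : D % 8 = 3) {m : ℤ} (hm : 2 ≤ m) :
    (xr c D (m - 1) - xr c D m) * ((W c D m : ℝ) * W c D (m - 1)) ^ 2 = (W c D (2 * m - 1) : ℝ) := by
  have w0 : (W c D m : ℝ) ≠ 0 := by exact_mod_cast W_ne hc hD m (by omega)
  have w1 : (W c D (m - 1) : ℝ) ≠ 0 := by exact_mod_cast W_ne hc hD (m - 1) (by omega)
  have hd := W_dbl_add_one c D (m - 1)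
  rw [show 2 * (m - 1) + 1 = 2 * m - 1 by ring, show m - 1 + 2 = m + 1 by ring,
    show m - 1 - 1 = m - 2 by ring, show m - 1 + 1 = m by ring] at hd
  rw [hd]
  push_cast
  simp only [xr]
  rw [show m - 1 + 1 = m by ring, show m - 1 - 1 = m - 2 by ring]
  field_simp
  ring

/-- the sign of `W_{2m-1}` is `(-1)^(m-1)` -/
private theorem sign_aux (h : Par c D) (k : ℕ) :
    0 < (-1 : ℝ) ^ k * (W c D (2 * (k : ℤ) + 1) : ℝ) := by
  obtain ⟨x₀, hx₀, hg⟩ := exists_x0 h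
  have halt : ∀ m : ℤ, 2 ≤ m → (x₀ - xr c D (m - 1)) * (x₀ - xr c D m) < 0 := by
    intro m hm
    obtain ⟨t, ht⟩ := xr_prod h.hc h.hD hm x₀
    rw [← ht]
    exact hg t
  have hs : ∀ k : ℕ, 0 < (-1 : ℝ) ^ k * (x₀ - xr c D ((k : ℤ) + 1)) := by
    intro k
    induction k with
    | zero =>
      simp [xr, W_zero]
      exact hx₀
    | succ k ih =>
      have := halt ((k : ℤ) + 2) (by omega)
      rw [show (k : ℤ) + 2 - 1 = (k : ℤ) + 1 by ring] at this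
      push_cast
      rw [show (k : ℤ) + 1 + 1 = (k : ℤ) + 2 by ring, pow_succ]
      rcases neg_one_pow_eq_or ℝ k with e | e <;> rw [e] at ih ⊢ <;> nlinarith
  rcases k with _ | k
  · simp [W_one]
  · have h1 := hs k
    have h2 := hs (k + 1)
    have h3 := xr_sub h.hc h.hD (m := (k : ℤ) + 2) (by omega)
    rw [show (k : ℤ) + 2 - 1 = (k : ℤ) + 1 by ring,
      show 2 * ((k : ℤ) + 2) - 1 = 2 * ((k : ℤ) + 1) + 1 by ring] at h3
    push_cast at h2 ⊢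
    rw [show (k : ℤ) + 1 + 1 = (k : ℤ) + 2 by ring] at h2
    rw [← h3]
    have w0 : (W c D ((k : ℤ) + 2) : ℝ) ≠ 0 := by exact_mod_cast W_ne h.hc h.hD _ (by omega)
    have w1 : (W c D ((k : ℤ) + 1) : ℝ) ≠ 0 := by exact_mod_cast W_ne h.hc h.hD _ (by omega)
    have hpos : 0 < ((W c D ((k : ℤ) + 2) : ℝ) * W c D ((k : ℤ) + 1)) ^ 2 := by positivity
    rw [← mul_assoc]
    apply mul_pos _ hpos
    rw [pow_succ] at h2 ⊢
    rcases neg_one_pow_eq_or ℝ k with e | e <;> rw [e] at h1 h2 ⊢ <;> linarith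

theorem W_pos (h : Par c D) (n : ℤ) (hn : n % 4 = 1) : 0 < W c D n := by
  rcases le_or_gt 0 n with h0 | h0
  · obtain ⟨k, hk⟩ : ∃ k : ℕ, n = 2 * (k : ℤ) + 1 := ⟨((n - 1) / 2).toNat, by omega⟩
    have := sign_aux h k
    rw [← hk] at this
    have hev : Even k := by
      rw [Nat.even_iff]
      omega
    rw [hev.neg_one_pow, one_mul] at this
    exact_mod_cast this
  · obtain ⟨k, hk⟩ : ∃ k : ℕ, -n = 2 * (k : ℤ) + 1 := ⟨((-n - 1) / 2).toNat, by omega⟩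
    have := sign_aux h k
    rw [← hk, W_neg] at this
    have hodd : Odd k := by
      rw [Nat.odd_iff]
      omega
    rw [hodd.neg_one_pow] at this
    push_cast at this
    have h2 : (0 : ℝ) < (W c D n : ℝ) := by linarith
    exact_mod_cast h2

end MP308.CE
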