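import Pool.Agent.Work.MP_308fa9_nt.CE.Shift
import Pool.Agent.Work.MP_308fa9_nt.CE.Sign

/-! # `W` mod `q`: ranks of apparition, coprimality, divisibility, `EDSZ (W c D)` -/

set_option autoImplicit false

namespace MP308.CE

variable {c D : ℤ}

/-- the sequence with `V 2 = 1`, `V 3 = 0`, `V 4 = -1` over a field -/
private theorem reg_three {F : Type*} [Field F] {V : ℤ → F} (h : Ell V) (h2 : V 2 = 1)
    (h3 : V 3 = 0) (h4 : V 4 = -1) : Reg V := by
  have r3 : ∀ n : ℤ, V (n + 3) * V (n - 3) = V n ^ 2 := by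
    intro n
    have := h.rel n 3
    rw [show (3 : ℤ) + 1 = 4 by norm_num, show (3 : ℤ) - 1 = 2 by norm_num, h2, h3, h4] at this
    linear_combination this
  have r2 : ∀ n : ℤ, V (n + 2) * V (n - 2) = V (n + 1) * V (n - 1) := by
    intro n
    have := h.rel n 2
    rw [show (2 : ℤ) + 1 = 3 by norm_num, show (2 : ℤ) - 1 = 1 by norm_num, h2, h3] at this
    linear_combination this
  have sq1 : ∀ k : ℕ, ((-1 : F) ^ k) * (-1) ^ k = 1 := fun k => by
    rw [← mul_pow]; simp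
  have key : ∀ k : ℕ, V (3 * k) = 0 ∧ V (3 * k + 1) = (-1) ^ k ∧ V (3 * k + 2) = (-1) ^ k ∧
      V (3 * k - 1) = (-1) ^ (k + 1) ∧ V (3 * k - 2) = (-1) ^ (k + 1) := by
    intro k
    induction k with
    | zero =>
      refine ⟨by simp [h.zero], by simp [h.one], by simp [h2], ?_, ?_⟩
      · have := h.neg 1
        simp only [Nat.cast_zero, mul_zero, zero_sub, this, h.one]
        ring
      · have := h.neg 2
        simp only [Nat.cast_zero, mul_zero, zero_sub, this, h2]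
        ring
    | succ k ih =>
      obtain ⟨i0, i1, i2, j1, j2⟩ := ih
      have e1 := r3 (3 * k + 1)
      rw [show (3 * (k : ℤ) + 1 + 3) = 3 * ((k + 1 : ℕ) : ℤ) + 1 by push_cast; ring,
        show (3 * (k : ℤ) + 1 - 3) = 3 * (k : ℤ) - 2 by ring, i1, j2] at e1
      have e2 := r3 (3 * k + 2)
      rw [show (3 * (k : ℤ) + 2 + 3) = 3 * ((k + 1 : ℕ) : ℤ) + 2 by push_cast; ring,
        show (3 * (k : ℤ) + 2 - 3) = 3 * (k : ℤ) - 1 by ring, i2, j1] at e2
      have e3 := r2 (3 * k + 1)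
      rw [show (3 * (k : ℤ) + 1 + 2) = 3 * ((k + 1 : ℕ) : ℤ) by push_cast; ring,
        show (3 * (k : ℤ) + 1 - 2) = 3 * (k : ℤ) - 1 by ring,
        show (3 * (k : ℤ) + 1 - 1) = 3 * (k : ℤ) by ring, i0, j1, mul_zero] at e3
      have s := sq1 k
      refine ⟨?_, ?_, ?_, ?_, ?_⟩
      · rcases mul_eq_zero.1 e3 with e | e
        · exact e
        · exact absurd e (pow_ne_zero _ (by norm_num))
      · rw [pow_succ] at e1 ⊢
        linear_combination (-(-1) ^ k) * e1 - (V (3 * ((k + 1 : ℕ) : ℤ) + 1) + (-1) ^ k) * s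
      · rw [pow_succ] at e2 ⊢
        linear_combination (-(-1) ^ k) * e2 - (V (3 * ((k + 1 : ℕ) : ℤ) + 2) + (-1) ^ k) * s
      · rw [show 3 * ((k + 1 : ℕ) : ℤ) - 1 = 3 * (k : ℤ) + 2 by push_cast; ring, i2, pow_succ, pow_succ]
        ring
      · rw [show 3 * ((k + 1 : ℕ) : ℤ) - 2 = 3 * (k : ℤ) + 1 by push_cast; ring, i1, pow_succ, pow_succ]
        ring
  have hnat : ∀ n : ℕ, V (n : ℤ) = 0 ↔ 3 ∣ n := by
    intro n
    obtain ⟨i0, i1, i2, -, -⟩ := key (n / 3)
    have hne : ((-1 : F) ^ (n / 3)) ≠ 0 := pow_ne_zero _ (by norm_num)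
    have hc : n % 3 = 0 ∨ n % 3 = 1 ∨ n % 3 = 2 := by omega
    rcases hc with hc | hc | hc
    · rw [show (n : ℤ) = 3 * ((n / 3 : ℕ) : ℤ) by omega, i0]
      exact ⟨fun _ => by omega, fun _ => rfl⟩
    · rw [show (n : ℤ) = 3 * ((n / 3 : ℕ) : ℤ) + 1 by omega, i1]
      exact ⟨fun e => absurd e hne, fun e => by omega⟩
    · rw [show (n : ℤ) = 3 * ((n / 3 : ℕ) : ℤ) + 2 by omega, i2]
      exact ⟨fun e => absurd e hne, fun e => by omega⟩
  have hz : ∀ n : ℤ, V n = 0 ↔ ((3 : ℕ) : ℤ) ∣ n := by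
    intro n
    rcases Int.natAbs_eq n with hn | hn
    · rw [hn, hnat]; exact Int.natCast_dvd_natCast.symm
    · rw [hn, h.neg, neg_eq_zero, hnat, dvd_neg]; exact Int.natCast_dvd_natCast.symm
  refine ⟨h, by rw [h2]; exact one_ne_zero, ⟨3, hz⟩, fun n hn => ?_⟩
  have hsq : ∀ k : ℕ, IsSquare (-(V (3 * (k : ℤ) + 1) * V (3 * (k : ℤ) - 1))) := by
    intro k
    obtain ⟨-, i1, -, j1, -⟩ := key k
    rw [i1, j1]
    refine ⟨1, ?_⟩
    rw [pow_succ]
    linear_combination sq1 k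
  obtain ⟨m, hm⟩ := (hz n).1 hn
  rcases Int.natAbs_eq m with hm' | hm'
  · rw [hm, hm']
    exact hsq _
  · have e : -(V (n + 1) * V (n - 1)) =
        -(V (3 * (m.natAbs : ℤ) + 1) * V (3 * (m.natAbs : ℤ) - 1)) := by
      have h5 : n = -(3 * (m.natAbs : ℤ)) := by
        rw [hm]
        push_cast
        rw [hm']
        simp
      rw [h5, show -(3 * (m.natAbs : ℤ)) + 1 = -(3 * (m.natAbs : ℤ) - 1) by ring,
        show -(3 * (m.natAbs : ℤ)) - 1 = -(3 * (m.natAbs : ℤ) + 1) by ring, h.neg, h.neg]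
      ring
    rw [e]
    exact hsq _

/-- (SQ) as a congruence: `W_{n+1}³ W_{n-1} + (W_{n+2} W_{n-1})² ≡ 0 mod W_n` is `M_rel`. For `q ∤ D` use `zset_of_ne`;
for `q ∣ D`: `W_2 = 1, W_3 = 0, W_4 = -1` and `W_{n+3} = -W_n` mod `q`. -/
theorem reg_W (hc : c % 2 = 0) (hD : D % 8 = 3) (q : ℕ) [Fact q.Prime] (hq : q ≠ 2) :
    Reg (fun n => ((W c D n : ℤ) : ZMod q)) := by
  have hE : Ell (fun n => ((W c D n : ℤ) : ZMod q)) := (ell_W c D).map (Int.castRingHom (ZMod q))
  have e2 : ((W c D 2 : ℤ) : ZMod q) = 1 := by rw [W_two]; simp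
  by_cases h3 : ((W c D 3 : ℤ) : ZMod q) = 0
  · refine reg_three hE e2 h3 ?_
    have h3' : ((D : ℤ) : ZMod q) = 0 := by
      rw [W_three] at h3
      push_cast at h3
      simpa using h3
    simp only [W_four]
    push_cast
    rw [h3']
    ring
  · exact reg_of_ne hE (by rw [e2]; exact one_ne_zero) h3

/-- rank of apparition (all primes, `q = 2` included: `r = 5`) -/
theorem rank_W (hc : c % 2 = 0) (hD : D % 8 = 3) (q : ℕ) (hq : q.Prime) :
    ∃ r : ℕ, 3 ≤ r ∧ r ≤ 2 * q + 1 ∧ ∀ n : ℤ, (q : ℤ) ∣ W c D n ↔ (r : ℤ) ∣ n := by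
  by_cases hq2 : q = 2
  · subst hq2
    exact ⟨5, by norm_num, by norm_num, fun n => two_dvd_W_iff hc hD n⟩
  · have : Fact q.Prime := ⟨hq⟩
    have hR := reg_W hc hD q hq2
    obtain ⟨r, hr⟩ := hR.zset
    obtain ⟨i, hi1, hi2, hi0⟩ := exists_zero q _ hR.ell
    have hri : (r : ℤ) ∣ (i : ℤ) := (hr i).1 hi0
    have hri' : r ∣ i := Int.natCast_dvd_natCast.1 hri
    have hrle := Nat.le_of_dvd hi1 hri'
    have hr1 : ¬ (r : ℤ) ∣ 1 := by
      intro hd
      have := (hr 1).2 hd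
      simp only [W_one, Int.cast_one] at this
      exact one_ne_zero this
    have hr2 : ¬ (r : ℤ) ∣ 2 := by
      intro hd
      have := (hr 2).2 hd
      simp only [W_two, Int.cast_one] at this
      exact one_ne_zero this
    refine ⟨r, ?_, by omega, fun n => ?_⟩
    · by_contra hlt
      have hlt' : r = 0 ∨ r = 1 ∨ r = 2 := by omega
      rcases hlt' with h0 | h0 | h0
      · rw [h0, zero_dvd_iff] at hri'
        omega
      · exact hr1 (by rw [h0]; simp)
      · exact hr2 (by rw [h0]; simp)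
    · rw [← hr n, ZMod.intCast_zmod_eq_zero_iff_dvd]

/-- a common prime factor of `W_m` and `W_n` would have a rank dividing `m` and `n` -/
private theorem cop_of (hc : c % 2 = 0) (hD : D % 8 = 3) (m n : ℤ)
    (h : ∀ r : ℕ, 3 ≤ r → (r : ℤ) ∣ m → ¬ (r : ℤ) ∣ n) : IsCoprime (W c D m) (W c D n) := by
  rw [Int.isCoprime_iff_gcd_eq_one]
  by_contra hne
  obtain ⟨p, hp, hpd⟩ := Nat.exists_prime_and_dvd hne
  have h1 : (p : ℤ) ∣ W c D m := (Int.natCast_dvd_natCast.2 hpd).trans (Int.gcd_dvd_left _ _)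
  have h2 : (p : ℤ) ∣ W c D n := (Int.natCast_dvd_natCast.2 hpd).trans (Int.gcd_dvd_right _ _)
  obtain ⟨r, hr3, -, hr⟩ := rank_W hc hD p hp
  exact h r hr3 ((hr m).1 h1) ((hr n).1 h2)

theorem cop_W (hc : c % 2 = 0) (hD : D % 8 = 3) (m n : ℤ) (h : IsCoprime m n) :
    IsCoprime (W c D m) (W c D n) := by
  refine cop_of hc hD m n fun r hr hm hn => ?_
  have h1 : (r : ℤ) ∣ 1 := by
    obtain ⟨a, b, hab⟩ := h
    rw [← hab]
    exact dvd_add (hm.mul_left a) (hn.mul_left b)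
  have := Int.le_of_dvd one_pos h1
  omega

theorem dvd_W (hc : c % 2 = 0) (hD : D % 8 = 3) (m n : ℤ) (h : m ∣ n) : W c D m ∣ W c D n := by
  have key : ∀ K : ℕ, W c D m ∣ W c D ((K : ℤ) * m) := by
    intro K
    induction K with
    | zero => simp [W_zero]
    | succ K ih =>
      have e := (ell_W c D).three ((K : ℤ) * m + 1) (m - 1) 1
      rw [show (K : ℤ) * m + 1 + (m - 1) = ((K + 1 : ℕ) : ℤ) * m by push_cast; ring,
        show (K : ℤ) * m + 1 - (m - 1) = ((K : ℤ) - 1) * m + 2 by ring,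
        show (K : ℤ) * m + 1 - 1 = (K : ℤ) * m by ring, show m - 1 + 1 = m by ring, W_one] at e
      have hcop : IsCoprime (W c D m) (W c D (((K : ℤ) - 1) * m + 2)) := by
        refine cop_of hc hD _ _ fun r hr hm hn => ?_
        have h2 : (r : ℤ) ∣ 2 := (dvd_add_right (hm.mul_left ((K : ℤ) - 1))).1 hn
        have := Int.le_of_dvd two_pos h2
        omega
      have hd : W c D m ∣ W c D (((K + 1 : ℕ) : ℤ) * m) * W c D (((K : ℤ) - 1) * m + 2) := by
        have e' : W c D (((K + 1 : ℕ) : ℤ) * m) * W c D (((K : ℤ) - 1) * m + 2) =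
            W c D ((K : ℤ) * m) * (W c D ((K : ℤ) * m + 1 + 1) * W c D (m - 1) ^ 2) -
            W c D m * (W c D ((K : ℤ) * m + 1) ^ 2 * W c D (m - 1 - 1)) := by
          linear_combination e
        rw [e']
        exact dvd_sub (ih.mul_right _) (dvd_mul_right _ _)
      exact hcop.dvd_of_dvd_mul_right hd
  obtain ⟨k, rfl⟩ := h
  rcases Int.natAbs_eq k with hk | hk
  · rw [hk, mul_comm]
    exact key _
  · rw [hk, show m * -(k.natAbs : ℤ) = -((k.natAbs : ℤ) * m) by ring, W_neg]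
    exact (dvd_neg).2 (key _)

theorem edsz_W (h : Par c D) : EDSZ (W c D) where
  ell := ell_W c D
  ne n hn := W_ne h.hc h.hD n hn
  cop m n hmn := cop_W h.hc h.hD m n hmn
  pos n hn := W_pos h n hn
  shift := by
    intro q hq hq2 n s s' hn hp hs hs'
    have : Fact q.Prime := ⟨hq⟩
    have hR := reg_W h.hc h.hD q hq2
    have := shift_sq hR n s s' ((ZMod.intCast_zmod_eq_zero_iff_dvd _ _).2 hn)
      (fun e => hs ((ZMod.intCast_zmod_eq_zero_iff_dvd _ _).1 e))
      (fun e => hs' ((ZMod.intCast_zmod_eq_zero_iff_dvd _ _).1 e)) hp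
    push_cast
    exact this

/-- for odd `n` the parity condition in the shift lemma can be dropped -/
theorem W_shift_odd (h : Par c D) (q : ℕ) (hq : q.Prime) (hq2 : q ≠ 2) (n s s' : ℤ)
    (hn : (q : ℤ) ∣ W c D n) (hodd : n % 2 = 1) (hs : ¬ (q : ℤ) ∣ W c D s) (hs' : ¬ (q : ℤ) ∣ W c D s') :
    IsSquare ((W c D (s + n) * W c D s * (W c D (s' + n) * W c D s') : ℤ) : ZMod q) := by
  have : Fact q.Prime := ⟨hq⟩
  have hR := reg_W h.hc h.hD q hq2
  have := shift_sq_odd hR n s s' ((ZMod.intCast_zmod_eq_zero_iff_dvd _ _).2 hn)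
    (fun e => hs ((ZMod.intCast_zmod_eq_zero_iff_dvd _ _).1 e))
    (fun e => hs' ((ZMod.intCast_zmod_eq_zero_iff_dvd _ _).1 e)) hodd
  push_cast
  exact this

/-- every prime power divides some `W_n` -/
theorem exists_pow_dvd (hc : c % 2 = 0) (hD : D % 8 = 3) (q : ℕ) (hq : q.Prime) (k : ℕ) :
    ∃ n : ℤ, n ≠ 0 ∧ (q : ℤ) ^ k ∣ W c D n := by
  have : Fact q.Prime := ⟨hq⟩
  induction k with
  | zero => exact ⟨1, one_ne_zero, by simp⟩
  | succ k ih =>
    obtain ⟨n, hn, hd⟩ := ih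
    have hW0 := W_ne hc hD n hn
    choose V hV using fun i : ℤ => dvd_W hc hD n (i * n) (dvd_mul_left n i)
    have hVE : Ell V := by
      refine ⟨?_, ?_, ?_, ?_⟩
      · have := hV 0
        rw [zero_mul, W_zero] at this
        exact (mul_eq_zero.1 this.symm).resolve_left hW0
      · have := hV 1
        rw [one_mul] at this
        exact mul_left_cancel₀ hW0 (by rw [mul_one]; exact this.symm)
      · intro i
        have h1 := hV i
        have h2 := hV (-i)
        rw [show -i * n = -(i * n) by ring, W_neg, h1] at h2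
        exact mul_left_cancel₀ hW0 (by rw [← h2]; ring)
      · intro a b
        have e := (ell_W c D).three (a * n) (b * n) n
        rw [show a * n + b * n = (a + b) * n by ring, show a * n - b * n = (a - b) * n by ring,
          show a * n + n = (a + 1) * n by ring, show a * n - n = (a - 1) * n by ring,
          show b * n + n = (b + 1) * n by ring, show b * n - n = (b - 1) * n by ring,
          hV (a + b), hV (a - b), hV (a + 1), hV (a - 1), hV (b + 1), hV (b - 1), hV a, hV b] at e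
        have e' : W c D n ^ 4 * (V (a + b) * V (a - b)) = W c D n ^ 4 *
            (V (a + 1) * V (a - 1) * V b ^ 2 - V (b + 1) * V (b - 1) * V a ^ 2) := by
          linear_combination e
        exact mul_left_cancel₀ (pow_ne_zero 4 hW0) e'
    obtain ⟨i, hi1, -, hi0⟩ := exists_zero q (fun n => ((V n : ℤ) : ZMod q))
      (hVE.map (Int.castRingHom (ZMod q)))
    refine ⟨i * n, mul_ne_zero (by omega) hn, ?_⟩
    rw [hV i, pow_succ]
    exact mul_dvd_mul hd ((ZMod.intCast_zmod_eq_zero_iff_dvd _ _).1 hi0)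

end MP308.CE
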