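import Pool.Agent.Work.MP_308fa9_nt.CE.Jac
import Pool.Agent.Work.MP_308fa9_nt.CE.WReg

/-! # The values `c_n = J W (n+1) n` (from `J_five`, `J_four` and the table `W_mod8`) -/

set_option autoImplicit false

namespace MP308.CE

variable {c D : ℤ}

private theorem CV_c4 (h : Par c D) : c % 4 = 0 ∨ c % 4 = 2 := by have := h.hc; omega

/-- `(-1 / odd W_i)` for `i ≡ 1 mod 4`, odd value -/
private theorem CV_neg_odd (h : Par c D) {i : ℤ} (hi : i % 4 = 1) (hw : W c D i % 2 = 1) :
    jacobiSym (-1) (op (W c D i)) = if W c D i % 4 = 3 then -1 else 1 :=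
  jac_neg_one hw (W_pos h i hi)

/-- `(-1 / odd W_i)` for `i ≡ 1 mod 4`, value twice an odd number -/
private theorem CV_neg_two (h : Par c D) {i u : ℤ} (hi : i % 4 = 1) (hw : W c D i = 2 * u)
    (hu : u % 2 = 1) : jacobiSym (-1) (op (W c D i)) = if u % 4 = 3 then -1 else 1 := by
  have h1 := W_pos h i hi
  rw [hw] at h1 ⊢
  exact jac_neg_one_two hu (by omega)

/-- the same for `i ≡ 3 mod 4` -/
private theorem CV_neg_odd' (h : Par c D) {i : ℤ} (hi : i % 4 = 3) (hw : W c D i % 2 = 1) :
    jacobiSym (-1) (op (W c D i)) = if W c D i % 4 = 1 then -1 else 1 := by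
  have h1 := CV_neg_odd h (i := -i) (by omega) (by rw [W_neg]; omega)
  rw [W_neg, op_neg] at h1
  rw [h1]
  by_cases h2 : W c D i % 4 = 1
  · rw [if_pos (by omega), if_pos h2]
  · rw [if_neg (by omega), if_neg h2]

private theorem CV_neg_two' (h : Par c D) {i u : ℤ} (hi : i % 4 = 3) (hw : W c D i = 2 * u)
    (hu : u % 2 = 1) : jacobiSym (-1) (op (W c D i)) = if u % 4 = 1 then -1 else 1 := by
  have h1 := CV_neg_two h (i := -i) (u := -u) (by omega) (by rw [W_neg, hw]; ring) (by omega)
  rw [W_neg, op_neg] at h1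
  rw [h1]
  by_cases h2 : u % 4 = 1
  · rw [if_pos (by omega), if_pos h2]
  · rw [if_neg (by omega), if_neg h2]

/-- (J5) for `W` -/
private theorem CV_five (h : Par c D) {m : ℤ} (hm : m ≠ 0) (hm2 : m % 2 = 0) :
    J (W c D) (2 * m + 1) (2 * m) = hil (W c D (m + 1) * W c D (1 - m)) (W c D (2 * m)) *
      jacobiSym (-1) (op (W c D (m + 1))) :=
  J_five (edsz_W h) (W_two c D) hm hm2

private theorem CV_half {x : ℤ} (hx : x % 4 = 2) : ∃ u, x = 2 * u ∧ u % 2 = 1 :=
  ⟨x / 2, by omega, by omega⟩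

theorem c_8 (h : Par c D) {n : ℤ} (h8 : n % 8 = 0) (h5 : n % 5 ≠ 0) :
    J (W c D) (n + 1) n = -1 := by
  obtain ⟨m, rfl⟩ : ∃ m, n = 2 * m := ⟨n / 2, by omega⟩
  rw [CV_five h (by omega) (by omega)]
  have e1 := W_mod8 (c := c) (D := D) h.hc h.hD (m + 1)
  have e2 := W_mod8 (c := c) (D := D) h.hc h.hD (1 - m)
  have e3 := W_mod8 (c := c) (D := D) h.hc h.hD (2 * m)
  unfold tab at e1 e2 e3
  have hm : m % 20 = 4 ∨ m % 20 = 8 ∨ m % 20 = 12 ∨ m % 20 = 16 := by omega
  rcases hm with hm | hm | hm | hm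
  · rw [show (m + 1) % 20 = 5 by omega] at e1
    rw [show (1 - m) % 20 = 17 by omega] at e2
    rw [show (2 * m) % 20 = 8 by omega] at e3
    rcases CV_c4 h with hc | hc <;> simp [hc, tab0, tab2] at e1 e2 e3
    · obtain ⟨u, hu, hu2⟩ := CV_half (show W c D (m + 1) % 4 = 2 by omega)
      rw [CV_neg_two h (by omega) hu hu2, hu, mul_assoc,
        hil_two_odd (A := u * W c D (1 - m)) ?_ (by omega)]
      · have : (u * W c D (1 - m)) % 4 = 3 := by
          rw [Int.mul_emod, show u % 4 = 1 by omega, show W c D (1 - m) % 4 = 3 by omega]; norm_num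
        rw [if_neg (by omega), if_pos ⟨this, by omega⟩, if_neg (by omega)]
        norm_num
      · rw [Int.mul_emod, hu2, show W c D (1 - m) % 2 = 1 by omega]; norm_num
    · obtain ⟨u, hu, hu2⟩ := CV_half (show W c D (m + 1) % 4 = 2 by omega)
      rw [CV_neg_two h (by omega) hu hu2, hu, mul_assoc,
        hil_two_odd (A := u * W c D (1 - m)) ?_ (by omega)]
      · have : (u * W c D (1 - m)) % 4 = 1 := by
          rw [Int.mul_emod, show u % 4 = 3 by omega, show W c D (1 - m) % 4 = 3 by omega]; norm_num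
        rw [if_neg (by omega), if_neg (by omega), if_pos (by omega)]
        norm_num
      · rw [Int.mul_emod, hu2, show W c D (1 - m) % 2 = 1 by omega]; norm_num
  · rw [show (m + 1) % 20 = 9 by omega] at e1
    rw [show (1 - m) % 20 = 13 by omega] at e2
    rw [show (2 * m) % 20 = 16 by omega] at e3
    rcases CV_c4 h with hc | hc <;> simp [hc, tab0, tab2] at e1 e2 e3 <;>
    · have e4 : (W c D (m + 1) * W c D (1 - m)) % 8 = 7 := by rw [Int.mul_emod, e1, e2]; norm_num
      rw [hil_odd_odd (by omega) (by omega), CV_neg_odd h (by omega) (by omega),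
        if_neg (by omega), if_pos (by omega)]
      norm_num
  · rw [show (m + 1) % 20 = 13 by omega] at e1
    rw [show (1 - m) % 20 = 9 by omega] at e2
    rw [show (2 * m) % 20 = 4 by omega] at e3
    rcases CV_c4 h with hc | hc <;> simp [hc, tab0, tab2] at e1 e2 e3 <;>
    · have e4 : (W c D (m + 1) * W c D (1 - m)) % 8 = 7 := by rw [Int.mul_emod, e1, e2]; norm_num
      rw [hil_odd_odd (by omega) (by omega), CV_neg_odd h (by omega) (by omega),
        if_pos ⟨by omega, by omega⟩, if_neg (by omega)]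
      norm_num
  · rw [show (m + 1) % 20 = 17 by omega] at e1
    rw [show (1 - m) % 20 = 5 by omega] at e2
    rw [show (2 * m) % 20 = 12 by omega] at e3
    rcases CV_c4 h with hc | hc <;> simp [hc, tab0, tab2] at e1 e2 e3 <;>
    · obtain ⟨u, hu, hu2⟩ := CV_half (show W c D (1 - m) % 4 = 2 by omega)
      rw [CV_neg_odd h (by omega) (by omega), hu,
        show W c D (m + 1) * (2 * u) = 2 * (W c D (m + 1) * u) by ring,
        hil_two_odd (A := W c D (m + 1) * u) ?_ (by omega)]
      · rw [if_neg (by omega), if_neg (by omega), if_pos (by omega)]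
        norm_num
      · rw [Int.mul_emod, hu2, show W c D (m + 1) % 2 = 1 by omega]; norm_num

theorem c_4 (h : Par c D) {n : ℤ} (h8 : n % 8 = 4) (h5 : n % 5 ≠ 0) :
    J (W c D) (n + 1) n = 1 := by
  obtain ⟨m, rfl⟩ : ∃ m, n = 2 * m := ⟨n / 2, by omega⟩
  rw [CV_five h (by omega) (by omega)]
  have e1 := W_mod8 (c := c) (D := D) h.hc h.hD (m + 1)
  have e2 := W_mod8 (c := c) (D := D) h.hc h.hD (1 - m)
  have e3 := W_mod8 (c := c) (D := D) h.hc h.hD (2 * m)
  unfold tab at e1 e2 e3
  have hm : m % 20 = 2 ∨ m % 20 = 6 ∨ m % 20 = 14 ∨ m % 20 = 18 := by omega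
  rcases hm with hm | hm | hm | hm
  · rw [show (m + 1) % 20 = 3 by omega] at e1
    rw [show (1 - m) % 20 = 19 by omega] at e2
    rw [show (2 * m) % 20 = 4 by omega] at e3
    rcases CV_c4 h with hc | hc <;> simp [hc, tab0, tab2] at e1 e2 e3 <;>
    · have e4 : (W c D (m + 1) * W c D (1 - m)) % 8 = 3 := by rw [Int.mul_emod, e1, e2]; norm_num
      rw [hil_odd_odd (by omega) (by omega), CV_neg_odd' h (by omega) (by omega),
        if_pos ⟨by omega, by omega⟩, if_pos (by omega)]
      norm_num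
  · rw [show (m + 1) % 20 = 7 by omega] at e1
    rw [show (1 - m) % 20 = 15 by omega] at e2
    rw [show (2 * m) % 20 = 12 by omega] at e3
    rcases CV_c4 h with hc | hc <;> simp [hc, tab0, tab2] at e1 e2 e3 <;>
    · obtain ⟨u, hu, hu2⟩ := CV_half (show W c D (1 - m) % 4 = 2 by omega)
      rw [CV_neg_odd' h (by omega) (by omega), hu,
        show W c D (m + 1) * (2 * u) = 2 * (W c D (m + 1) * u) by ring,
        hil_two_odd (A := W c D (m + 1) * u) ?_ (by omega)]
      · rw [if_neg (by omega), if_neg (by omega), if_neg (by omega)]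
        norm_num
      · rw [Int.mul_emod, hu2, show W c D (m + 1) % 2 = 1 by omega]; norm_num
  · rw [show (m + 1) % 20 = 15 by omega] at e1
    rw [show (1 - m) % 20 = 7 by omega] at e2
    rw [show (2 * m) % 20 = 8 by omega] at e3
    rcases CV_c4 h with hc | hc <;> simp [hc, tab0, tab2] at e1 e2 e3
    · obtain ⟨u, hu, hu2⟩ := CV_half (show W c D (m + 1) % 4 = 2 by omega)
      rw [CV_neg_two' h (by omega) hu hu2, hu, mul_assoc,
        hil_two_odd (A := u * W c D (1 - m)) ?_ (by omega)]
      · have : (u * W c D (1 - m)) % 4 = 1 := by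
          rw [Int.mul_emod, show u % 4 = 3 by omega, show W c D (1 - m) % 4 = 3 by omega]; norm_num
        rw [if_neg (by omega), if_neg (by omega), if_neg (by omega)]
        norm_num
      · rw [Int.mul_emod, hu2, show W c D (1 - m) % 2 = 1 by omega]; norm_num
    · obtain ⟨u, hu, hu2⟩ := CV_half (show W c D (m + 1) % 4 = 2 by omega)
      rw [CV_neg_two' h (by omega) hu hu2, hu, mul_assoc,
        hil_two_odd (A := u * W c D (1 - m)) ?_ (by omega)]
      · have : (u * W c D (1 - m)) % 4 = 3 := by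
          rw [Int.mul_emod, show u % 4 = 1 by omega, show W c D (1 - m) % 4 = 3 by omega]; norm_num
        rw [if_neg (by omega), if_pos ⟨this, by omega⟩, if_pos (by omega)]
        norm_num
      · rw [Int.mul_emod, hu2, show W c D (1 - m) % 2 = 1 by omega]; norm_num
  · rw [show (m + 1) % 20 = 19 by omega] at e1
    rw [show (1 - m) % 20 = 3 by omega] at e2
    rw [show (2 * m) % 20 = 16 by omega] at e3
    rcases CV_c4 h with hc | hc <;> simp [hc, tab0, tab2] at e1 e2 e3 <;>
    · have e4 : (W c D (m + 1) * W c D (1 - m)) % 8 = 3 := by rw [Int.mul_emod, e1, e2]; norm_num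
      rw [hil_odd_odd (by omega) (by omega), CV_neg_odd' h (by omega) (by omega),
        if_neg (by omega), if_neg (by omega)]
      norm_num

theorem c_20 (h : Par c D) {n : ℤ} (h40 : n % 40 = 20) : J (W c D) (n + 1) n = -1 := by
  obtain ⟨m, rfl⟩ : ∃ m, n = 2 * m := ⟨n / 2, by omega⟩
  rw [CV_five h (by omega) (by omega)]
  have e1 := W_mod8 (c := c) (D := D) h.hc h.hD (m + 1)
  have e2 := W_mod8 (c := c) (D := D) h.hc h.hD (1 - m)
  unfold tab at e1 e2
  rw [show (m + 1) % 20 = 11 by omega] at e1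
  rw [show (1 - m) % 20 = 11 by omega] at e2
  rcases CV_c4 h with hc | hc <;> simp [hc, tab0, tab2] at e1 e2 <;>
  · have e4 : (W c D (m + 1) * W c D (1 - m)) % 8 = 1 := by rw [Int.mul_emod, e1, e2]; norm_num
    rw [hil_of_one e4 (W_ne h.hc h.hD _ (by omega)), CV_neg_odd' h (by omega) (by omega),
      if_pos (by omega)]
    norm_num

theorem c_40 (h : Par c D) {n : ℤ} (hn : n ≠ 0) (h40 : n % 40 = 0) : J (W c D) (n + 1) n = 1 := by
  obtain ⟨m, rfl⟩ : ∃ m, n = 2 * m := ⟨n / 2, by omega⟩
  rw [CV_five h (by omega) (by omega)]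
  have e1 := W_mod8 (c := c) (D := D) h.hc h.hD (m + 1)
  have e2 := W_mod8 (c := c) (D := D) h.hc h.hD (1 - m)
  unfold tab at e1 e2
  rw [show (m + 1) % 20 = 1 by omega] at e1
  rw [show (1 - m) % 20 = 1 by omega] at e2
  rcases CV_c4 h with hc | hc <;> simp [hc, tab0, tab2] at e1 e2 <;>
  · have e4 : (W c D (m + 1) * W c D (1 - m)) % 8 = 1 := by rw [Int.mul_emod, e1, e2]; norm_num
    rw [hil_of_one e4 (W_ne h.hc h.hD _ hn), CV_neg_odd h (by omega) (by omega),
      if_neg (by omega)]
    norm_num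

/-- (J4) for `W`, in terms of `n ≡ 1 mod 4`, `n ≠ 1` -/
private theorem CV_four (h : Par c D) {n : ℤ} (hn : n ≠ 1) (h4 : n % 4 = 1) :
    J (W c D) (n - 1 + 1) (n - 1) * J (W c D) (n + 1) n * jacobiSym (-1) (op (W c D n))
      = hil (W c D n) (W c D (n - 1)) := by
  have h1 := J_four (edsz_W h) (n := n - 1) (by omega) (by omega)
  rw [show n - 1 + 2 = n + 1 by ring] at h1
  rwa [show n - 1 + 1 = n by ring] at h1 ⊢

/-- `n ≡ 1 mod 4`, `5 ∤ n` -/
theorem c_odd_pos (h : Par c D) {n : ℤ} (h40 : n % 40 = 1 ∨ n % 40 = 13 ∨ n % 40 = 17 ∨ n % 40 = 29) :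
    J (W c D) (n + 1) n = 1 := by
  by_cases hn : n = 1
  · subst hn
    unfold J
    rw [W_one]
    have : op 1 = 1 := by simp [op]
    rw [this, jacobiSym.one_right]
  have key := CV_four h hn (by omega)
  have e1 := W_mod8 (c := c) (D := D) h.hc h.hD n
  have e2 := W_mod8 (c := c) (D := D) h.hc h.hD (n - 1)
  unfold tab at e1 e2
  rcases h40 with h4 | h4 | h4 | h4
  · rw [show n % 20 = 1 by omega] at e1
    rw [c_40 h (by omega) (by omega)] at key
    rcases CV_c4 h with hc | hc <;> simp [hc, tab0, tab2] at e1 <;>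
    · rw [hil_of_one e1 (W_ne h.hc h.hD _ (by omega)), CV_neg_odd h (by omega) (by omega),
        if_neg (by omega)] at key
      linarith
  · rw [show n % 20 = 13 by omega] at e1
    rw [show (n - 1) % 20 = 12 by omega] at e2
    rw [c_4 h (by omega) (by omega)] at key
    rcases CV_c4 h with hc | hc <;> simp [hc, tab0, tab2] at e1 e2 <;>
    · rw [hil_odd_odd (by omega) (by omega), CV_neg_odd h (by omega) (by omega),
        if_neg (by omega), if_neg (by omega)] at key
      linarith
  · rw [show n % 20 = 17 by omega] at e1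
    rw [show (n - 1) % 20 = 16 by omega] at e2
    rw [c_8 h (by omega) (by omega)] at key
    rcases CV_c4 h with hc | hc <;> simp [hc, tab0, tab2] at e1 e2 <;>
    · rw [hil_odd_odd (by omega) (by omega), CV_neg_odd h (by omega) (by omega),
        if_pos (by omega), if_neg (by omega)] at key
      linarith
  · rw [show n % 20 = 9 by omega] at e1
    rw [show (n - 1) % 20 = 8 by omega] at e2
    rw [c_4 h (by omega) (by omega)] at key
    rcases CV_c4 h with hc | hc <;> simp [hc, tab0, tab2] at e1 e2 <;>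
    · rw [hil_odd_odd (by omega) (by omega), CV_neg_odd h (by omega) (by omega),
        if_pos (by omega), if_pos ⟨by omega, by omega⟩] at key
      linarith

theorem c_odd_neg (h : Par c D) {n : ℤ} (h40 : n % 40 = 9 ∨ n % 40 = 21 ∨ n % 40 = 33 ∨ n % 40 = 37) :
    J (W c D) (n + 1) n = -1 := by
  have key := CV_four h (n := n) (by omega) (by omega)
  have e1 := W_mod8 (c := c) (D := D) h.hc h.hD n
  have e2 := W_mod8 (c := c) (D := D) h.hc h.hD (n - 1)
  unfold tab at e1 e2
  rcases h40 with h4 | h4 | h4 | h4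
  · rw [show n % 20 = 9 by omega] at e1
    rw [show (n - 1) % 20 = 8 by omega] at e2
    rw [c_8 h (by omega) (by omega)] at key
    rcases CV_c4 h with hc | hc <;> simp [hc, tab0, tab2] at e1 e2 <;>
    · rw [hil_odd_odd (by omega) (by omega), CV_neg_odd h (by omega) (by omega),
        if_pos (by omega), if_pos ⟨by omega, by omega⟩] at key
      linarith
  · rw [show n % 20 = 1 by omega] at e1
    rw [c_20 h (by omega)] at key
    rcases CV_c4 h with hc | hc <;> simp [hc, tab0, tab2] at e1 <;>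
    · rw [hil_of_one e1 (W_ne h.hc h.hD _ (by omega)), CV_neg_odd h (by omega) (by omega),
        if_neg (by omega)] at key
      linarith
  · rw [show n % 20 = 13 by omega] at e1
    rw [show (n - 1) % 20 = 12 by omega] at e2
    rw [c_8 h (by omega) (by omega)] at key
    rcases CV_c4 h with hc | hc <;> simp [hc, tab0, tab2] at e1 e2 <;>
    · rw [hil_odd_odd (by omega) (by omega), CV_neg_odd h (by omega) (by omega),
        if_neg (by omega), if_neg (by omega)] at key
      linarith
  · rw [show n % 20 = 17 by omega] at e1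
    rw [show (n - 1) % 20 = 16 by omega] at e2
    rw [c_4 h (by omega) (by omega)] at key
    rcases CV_c4 h with hc | hc <;> simp [hc, tab0, tab2] at e1 e2 <;>
    · rw [hil_odd_odd (by omega) (by omega), CV_neg_odd h (by omega) (by omega),
        if_pos (by omega), if_neg (by omega)] at key
      linarith

/-- `c_5 (-1/N_5) = 1` -/
theorem c_five (h : Par c D) : J (W c D) 6 5 * jacobiSym (-1) (op (W c D 5)) = 1 := by
  have key := CV_four h (n := 5) (by norm_num) (by norm_num)
  norm_num at key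
  have h4 := c_4 h (n := 4) (by norm_num) (by norm_num)
  norm_num at h4
  rw [h4, one_mul] at key
  rw [key]
  have e1 := W_mod8 (c := c) (D := D) h.hc h.hD 5
  have e2 := W_mod8 (c := c) (D := D) h.hc h.hD 4
  unfold tab at e1 e2
  rcases CV_c4 h with hc | hc <;> simp [hc, tab0, tab2] at e1 e2 <;>
  · obtain ⟨u, hu, hu2⟩ := CV_half (show W c D 5 % 4 = 2 by omega)
    rw [hu, hil_two_odd hu2 (by omega)]
    by_cases h1 : W c D 4 % 8 = 3 ∨ W c D 4 % 8 = 5
    · rw [if_pos h1, if_pos ⟨by omega, by omega⟩]; norm_num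
    · rw [if_neg h1, if_neg (by omega)]; norm_num

/-- a `Good` index has Jacobi symbol 1 -/
theorem J_of_good (h : Par c D) {t n : ℤ} (hn : n ≠ 0) (ht : IsCoprime t n) (hg : Good c D t n) :
    J (W c D) t n = 1 := by
  unfold J
  apply jac_eq_one_of_isSquare (W_ne h.hc h.hD n hn)
  intro q hq hq2 hqn
  have h1 : ¬ (q : ℤ) ∣ W c D t := by
    intro h2
    have h3 := (cop_W (c := c) (D := D) h.hc h.hD t n ht)
    have h4 := h3.isUnit_of_dvd' h2 hqn
    exact (Nat.prime_iff_prime_int.1 hq).not_isUnit h4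
  exact ⟨h1, hg q hq hq2 hqn h1⟩

end MP308.CE
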