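import Pool.Agent.Work.MP_308fa9_nt.CE.Defs

/-! # Smooth numbers in residue classes -/

set_option autoImplicit false

namespace MP308.CE

theorem Smooth.mul {l : ℕ} {a b : ℤ} (ha : Smooth l a) (hb : Smooth l b) : Smooth l (a * b) := by
  refine ⟨mul_ne_zero ha.1 hb.1, fun p hp h => ?_⟩
  rcases (Nat.prime_iff_prime_int.1 hp).dvd_or_dvd h with h | h
  · exact ha.2 p hp h
  · exact hb.2 p hp h

theorem Smooth.one {l : ℕ} : Smooth l 1 := by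
  refine ⟨one_ne_zero, fun p hp h => ?_⟩
  have := Int.eq_one_of_dvd_one (by positivity) h
  have h2 := hp.two_le
  omega

theorem Smooth.pow {l : ℕ} {a : ℤ} (ha : Smooth l a) (n : ℕ) : Smooth l (a ^ n) := by
  induction n with
  | zero => simpa using Smooth.one
  | succ n ih => rw [pow_succ]; exact ih.mul ha

theorem Smooth.of_lt {l : ℕ} {a : ℤ} (h0 : a ≠ 0) (h : |a| < l) : Smooth l a := by
  refine ⟨h0, fun p hp hd => ?_⟩
  have h1 := Int.le_of_dvd (abs_pos.2 h0) ((dvd_abs _ _).2 hd)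
  omega

theorem Smooth.dvd {l : ℕ} {a b : ℤ} (ha : Smooth l a) (h : b ∣ a) : Smooth l b := by
  refine ⟨fun h0 => ha.1 ?_, fun p hp hd => ha.2 p hp (hd.trans h)⟩
  rw [h0, zero_dvd_iff] at h
  exact h

private theorem exists_i : ∀ x g : ZMod 5, x ≠ 0 → (g = 2 ∨ g = 3) →
    (x * g ^ 3 = 4 ∨ x * g ^ 4 = 4 ∨ x * g ^ 5 = 4 ∨ x * g ^ 6 = 4) := by decide

/-- (A1): an even smooth `d ≡ ρ mod l` with `l^v d ≡ 24 mod 40` -/
theorem smooth_even (l : ℕ) (hl : l.Prime) (h2 : l ≠ 2) (h5 : l ≠ 5) (v : ℕ) (ρ : ℤ)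
    (hρ : ¬ (l : ℤ) ∣ ρ) :
    ∃ d : ℤ, Smooth l d ∧ (l : ℤ) ∣ d - ρ ∧ ((l : ℤ) ^ v * d) % 40 = 24 := by
  have hl2 : 3 ≤ l := by
    have := hl.two_le
    omega
  have hodd : (l : ℤ) % 2 = 1 := by
    have := hl.eq_two_or_odd
    omega
  have hl5 : (l : ℤ) % 5 ≠ 0 := by
    intro h
    have h1 : (5 : ℕ) ∣ l := by omega
    have := (Nat.prime_dvd_prime_iff_eq (by norm_num) hl).1 h1
    omega
  -- r
  obtain ⟨r, hr0, hrl, hr, hr5⟩ : ∃ r : ℤ, r ≠ 0 ∧ |r| < l ∧ (l : ℤ) ∣ r - ρ ∧ r % 5 ≠ 0 := by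
    have e := Int.emod_add_mul_ediv ρ l
    have hlt := Int.emod_lt_of_pos ρ (show (0 : ℤ) < l by omega)
    have hnn := Int.emod_nonneg ρ (show (l : ℤ) ≠ 0 by omega)
    have hne : ρ % l ≠ 0 := fun h => hρ (Int.dvd_of_emod_eq_zero h)
    by_cases h : (ρ % l) % 5 = 0
    · refine ⟨ρ % l - l, by omega, by rw [abs_lt]; omega, ⟨-(ρ / l) - 1, by linarith⟩, by omega⟩
    · exact ⟨ρ % l, hne, by rw [abs_lt]; omega, ⟨-(ρ / l), by linarith⟩, h⟩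
  -- g
  obtain ⟨g, hg, hgl, hg2, hg5⟩ : ∃ g : ℤ, Smooth l g ∧ (l : ℤ) ∣ g - 1 ∧ (2 : ℤ) ∣ g ∧
      (g % 5 = 2 ∨ g % 5 = 3) := by
    have key : ∀ g : ℤ, (g = 1 + l ∨ g = 1 - l) → Smooth l g ∧ (l : ℤ) ∣ g - 1 ∧ (2 : ℤ) ∣ g := by
      intro g hg
      obtain ⟨g', hg'⟩ : (2 : ℤ) ∣ g := by omega
      refine ⟨?_, ?_, ⟨g', hg'⟩⟩
      · rw [hg']
        refine Smooth.mul (Smooth.of_lt (by norm_num) (by rw [abs_lt]; omega)) ?_
        exact Smooth.of_lt (by omega) (by rw [abs_lt]; omega)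
      · rcases hg with rfl | rfl
        · exact ⟨1, by ring⟩
        · exact ⟨-1, by ring⟩
    have h4 : (l : ℤ) % 5 = 1 ∨ (l : ℤ) % 5 = 2 ∨ (l : ℤ) % 5 = 3 ∨ (l : ℤ) % 5 = 4 := by omega
    rcases h4 with h | h | h | h
    · exact ⟨1 + l, (key _ (.inl rfl)).1, (key _ (.inl rfl)).2.1, (key _ (.inl rfl)).2.2, by omega⟩
    · exact ⟨1 + l, (key _ (.inl rfl)).1, (key _ (.inl rfl)).2.1, (key _ (.inl rfl)).2.2, by omega⟩
    · exact ⟨1 - l, (key _ (.inr rfl)).1, (key _ (.inr rfl)).2.1, (key _ (.inr rfl)).2.2, by omega⟩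
    · exact ⟨1 - l, (key _ (.inr rfl)).1, (key _ (.inr rfl)).2.1, (key _ (.inr rfl)).2.2, by omega⟩
  -- conclusion for a given exponent
  have concl : ∀ i : ℕ, 3 ≤ i → (((l : ℤ) ^ v * r : ℤ) : ZMod 5) * ((g : ℤ) : ZMod 5) ^ i = 4 →
      ∃ d : ℤ, Smooth l d ∧ (l : ℤ) ∣ d - ρ ∧ ((l : ℤ) ^ v * d) % 40 = 24 := by
    intro i hi h
    refine ⟨r * g ^ i, (Smooth.of_lt hr0 hrl).mul (hg.pow i), ?_, ?_⟩
    · have h1 : (l : ℤ) ∣ g ^ i - 1 := hgl.trans (by simpa using sub_dvd_pow_sub_pow g 1 i)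
      have : r * g ^ i - ρ = r * (g ^ i - 1) + (r - ρ) := by ring
      rw [this]
      exact dvd_add (h1.mul_left r) hr
    · have h8 : (8 : ℤ) ∣ (l : ℤ) ^ v * (r * g ^ i) := by
        have : (8 : ℤ) ∣ g ^ i := by
          have h3 : (2 : ℤ) ^ 3 ∣ g ^ 3 := pow_dvd_pow_of_dvd hg2 3
          exact (show (8 : ℤ) = 2 ^ 3 by norm_num) ▸ h3.trans (pow_dvd_pow g hi)
        exact (this.mul_left r).mul_left _
      have h5' : (5 : ℤ) ∣ (l : ℤ) ^ v * (r * g ^ i) - 4 := by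
        have : (((l : ℤ) ^ v * (r * g ^ i) - 4 : ℤ) : ZMod 5) = 0 := by
          push_cast at h ⊢
          rw [← mul_assoc, h]
          ring
        exact (ZMod.intCast_zmod_eq_zero_iff_dvd _ 5).1 this
      omega
  have hx : (((l : ℤ) ^ v * r : ℤ) : ZMod 5) ≠ 0 := by
    intro h
    have h1 : (5 : ℤ) ∣ (l : ℤ) ^ v * r := (ZMod.intCast_zmod_eq_zero_iff_dvd _ 5).1 h
    have p5 : Prime (5 : ℤ) := by norm_num
    rcases p5.dvd_or_dvd h1 with h1 | h1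
    · have := p5.dvd_of_dvd_pow h1
      omega
    · omega
  have hgz : ((g : ℤ) : ZMod 5) = 2 ∨ ((g : ℤ) : ZMod 5) = 3 := by
    rcases hg5 with h | h
    · left
      have : ((g - 2 : ℤ) : ZMod 5) = 0 := (ZMod.intCast_zmod_eq_zero_iff_dvd _ 5).2 (by omega)
      push_cast at this
      exact sub_eq_zero.1 this
    · right
      have : ((g - 3 : ℤ) : ZMod 5) = 0 := (ZMod.intCast_zmod_eq_zero_iff_dvd _ 5).2 (by omega)
      push_cast at this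
      exact sub_eq_zero.1 this
  rcases exists_i _ _ hx hgz with h | h | h | h
  · exact concl 3 (by norm_num) h
  · exact concl 4 (by norm_num) h
  · exact concl 5 (by norm_num) h
  · exact concl 6 (by norm_num) h

private theorem odd_rep (l : ℕ) (hl : l.Prime) (h2 : l ≠ 2) (ρ : ℤ) (hρ : ¬ (l : ℤ) ∣ ρ) :
    ∃ r : ℤ, r % 2 = 1 ∧ |r| < l ∧ (l : ℤ) ∣ r - ρ := by
  have hl2 : 3 ≤ l := by
    have := hl.two_le
    omega
  have hodd : (l : ℤ) % 2 = 1 := by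
    have := hl.eq_two_or_odd
    omega
  have e := Int.emod_add_mul_ediv ρ l
  have hlt := Int.emod_lt_of_pos ρ (show (0 : ℤ) < l by omega)
  have hnn := Int.emod_nonneg ρ (show (l : ℤ) ≠ 0 by omega)
  have hne : ρ % l ≠ 0 := fun h => hρ (Int.dvd_of_emod_eq_zero h)
  by_cases h : (ρ % l) % 2 = 1
  · exact ⟨ρ % l, h, by rw [abs_lt]; omega, ⟨-(ρ / l), by linarith⟩⟩
  · exact ⟨ρ % l - l, by omega, by rw [abs_lt]; omega, ⟨-(ρ / l) - 1, by linarith⟩⟩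

/-- (A2): an odd smooth `d ≡ ρ mod l`, divisible by 5 -/
theorem smooth_odd_five (l : ℕ) (hl : l.Prime) (h5 : 7 ≤ l) (ρ : ℤ) (hρ : ¬ (l : ℤ) ∣ ρ) :
    ∃ d : ℤ, Smooth l d ∧ (l : ℤ) ∣ d - ρ ∧ d % 2 = 1 ∧ d % 5 = 0 := by
  have hcop : IsCoprime (5 : ℤ) l := by
    have : Nat.Coprime 5 l := (Nat.coprime_primes (by norm_num) hl).2 (by omega)
    exact_mod_cast this.isCoprime
  obtain ⟨u, w, huw⟩ := hcop
  have hlp : Prime (l : ℤ) := Nat.prime_iff_prime_int.1 hl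
  have hρ' : ¬ (l : ℤ) ∣ u * ρ := by
    intro h
    apply hρ
    have : ρ = 5 * (u * ρ) + l * (w * ρ) := by linear_combination (-ρ) * huw
    rw [this]
    exact dvd_add (h.mul_left 5) (dvd_mul_right _ _)
  obtain ⟨r, hr2, hrl, hr⟩ := odd_rep l hl (by omega) (u * ρ) hρ'
  refine ⟨5 * r, (Smooth.of_lt (by norm_num) (by rw [abs_lt]; omega)).mul
    (Smooth.of_lt (by omega) hrl), ?_, by omega, by omega⟩
  have : 5 * r - ρ = 5 * (r - u * ρ) - l * (w * ρ) := by linear_combination ρ * huw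
  rw [this]
  exact dvd_sub (hr.mul_left 5) (dvd_mul_right _ _)

/-- (A2): an odd smooth `d ≡ ρ mod l` with `5 ∤ d`, `5 ∤ l^v d + σ` -/
theorem smooth_odd (l : ℕ) (hl : l.Prime) (h5 : 11 ≤ l) (hl5 : l % 5 = 1 ∨ l % 5 = 4) (v : ℕ) (ρ σ : ℤ)
    (hρ : ¬ (l : ℤ) ∣ ρ) :
    ∃ d : ℤ, Smooth l d ∧ (l : ℤ) ∣ d - ρ ∧ d % 2 = 1 ∧ ((l : ℤ) ^ v * d) % 5 ≠ 0 ∧
      ((l : ℤ) ^ v * d + σ) % 5 ≠ 0 := by
  obtain ⟨r, hr2, hrl, hr⟩ := odd_rep l hl (by omega) ρ hρ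
  have hr0 : r ≠ 0 := by omega
  have h3l : (l : ℤ) % 3 = 1 ∨ (l : ℤ) % 3 = 2 := by
    have : (l : ℤ) % 3 ≠ 0 := by
      intro h
      have h1 : (3 : ℕ) ∣ l := by omega
      have := (Nat.prime_dvd_prime_iff_eq (by norm_num) hl).1 h1
      omega
    omega
  have smooth3 : ∀ x : ℤ, (3 : ℤ) ∣ x → x ≠ 0 → |x| < 3 * l → Smooth l x := by
    rintro x ⟨y, rfl⟩ h0 h
    refine (Smooth.of_lt (by norm_num) (by rw [abs_lt]; omega)).mul (Smooth.of_lt (by rintro rfl; simp at h0) ?_)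
    rw [abs_mul, show |(3 : ℤ)| = 3 by norm_num] at h
    linarith
  -- the substitute of 5
  obtain ⟨g, hg, hgl, hg2, hg5⟩ : ∃ g : ℤ, Smooth l g ∧ (l : ℤ) ∣ g - 5 ∧ g % 2 = 1 ∧ g % 5 ≠ 0 := by
    rcases h3l with h | h
    · exact ⟨5 - 2 * l, smooth3 _ (by omega) (by omega) (by rw [abs_lt]; omega), ⟨-2, by ring⟩,
        by omega, by omega⟩
    · exact ⟨5 + 2 * l, smooth3 _ (by omega) (by omega) (by rw [abs_lt]; omega), ⟨2, by ring⟩,
        by omega, by omega⟩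
  -- the unit
  obtain ⟨e, he, hel, he2, he5, he5'⟩ : ∃ e : ℤ, Smooth l e ∧ (l : ℤ) ∣ e - 1 ∧ e % 2 = 1 ∧
      e % 5 ≠ 0 ∧ e % 5 ≠ 1 := by
    rcases h3l with h | h
    · exact ⟨1 + 2 * l, smooth3 _ (by omega) (by omega) (by rw [abs_lt]; omega), ⟨2, by ring⟩,
        by omega, by omega, by omega⟩
    · exact ⟨1 - 2 * l, smooth3 _ (by omega) (by omega) (by rw [abs_lt]; omega), ⟨-2, by ring⟩,
        by omega, by omega, by omega⟩
  -- remove the fives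
  obtain ⟨r', hr's, hr'l, hr'2, hr'5⟩ : ∃ r' : ℤ, Smooth l r' ∧ (l : ℤ) ∣ r' - r ∧ r' % 2 = 1 ∧
      r' % 5 ≠ 0 := by
    obtain ⟨s, hrs, hs⟩ := (Int.finiteMultiplicity_iff (a := (5 : ℤ)) (b := r)).2
      ⟨by norm_num, hr0⟩ |>.exists_eq_pow_mul_and_not_dvd
    obtain ⟨k, hk⟩ : ∃ k, k = multiplicity (5 : ℤ) r := ⟨_, rfl⟩
    rw [← hk] at hrs
    have hsm : Smooth l r := Smooth.of_lt hr0 hrl
    refine ⟨g ^ k * s, (hg.pow k).mul (hsm.dvd ⟨5 ^ k, by rw [hrs]; ring⟩), ?_, ?_, ?_⟩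
    · have h1 : (l : ℤ) ∣ g ^ k - 5 ^ k := hgl.trans (sub_dvd_pow_sub_pow g 5 k)
      have : g ^ k * s - r = (g ^ k - 5 ^ k) * s := by rw [hrs]; ring
      rw [this]
      exact h1.mul_right s
    · have hs2 : s % 2 = 1 := by
        by_contra hcon
        have : (2 : ℤ) ∣ s := by omega
        have : (2 : ℤ) ∣ r := by rw [hrs]; exact this.mul_left _
        omega
      have : Odd (g ^ k * s) := (Odd.pow (Int.odd_iff.2 hg2)).mul (Int.odd_iff.2 hs2)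
      exact Int.odd_iff.1 this
    · intro h
      have h1 : (5 : ℤ) ∣ g ^ k * s := Int.dvd_of_emod_eq_zero h
      have p5 : Prime (5 : ℤ) := by norm_num
      rcases p5.dvd_or_dvd h1 with h1 | h1
      · have := p5.dvd_of_dvd_pow h1
        omega
      · exact hs h1
  have hx : ((l : ℤ) ^ v * r') % 5 ≠ 0 := by
    intro h
    have h1 : (5 : ℤ) ∣ (l : ℤ) ^ v * r' := Int.dvd_of_emod_eq_zero h
    have p5 : Prime (5 : ℤ) := by norm_num
    rcases p5.dvd_or_dvd h1 with h1 | h1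
    · have := p5.dvd_of_dvd_pow h1
      omega
    · omega
  have hr'ρ : (l : ℤ) ∣ r' - ρ := by
    have : r' - ρ = (r' - r) + (r - ρ) := by ring
    rw [this]
    exact dvd_add hr'l hr
  by_cases hc : ((l : ℤ) ^ v * r' + σ) % 5 = 0
  · refine ⟨r' * e, hr's.mul he, ?_, ?_, ?_, ?_⟩
    · have : r' * e - ρ = r' * (e - 1) + (r' - ρ) := by ring
      rw [this]
      exact dvd_add (hel.mul_left _) hr'ρ
    · exact Int.odd_iff.1 ((Int.odd_iff.2 hr'2).mul (Int.odd_iff.2 he2))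
    · intro h
      have h1 : (5 : ℤ) ∣ ((l : ℤ) ^ v * r') * e := by rw [mul_assoc]; exact Int.dvd_of_emod_eq_zero h
      have p5 : Prime (5 : ℤ) := by norm_num
      rcases p5.dvd_or_dvd h1 with h1 | h1 <;> omega
    · intro h
      have h1 : (5 : ℤ) ∣ (l : ℤ) ^ v * (r' * e) + σ := Int.dvd_of_emod_eq_zero h
      have h2 : (5 : ℤ) ∣ (l : ℤ) ^ v * r' + σ := Int.dvd_of_emod_eq_zero hc
      have h3 : (5 : ℤ) ∣ ((l : ℤ) ^ v * r') * (e - 1) := by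
        have : ((l : ℤ) ^ v * r') * (e - 1) = ((l : ℤ) ^ v * (r' * e) + σ) - ((l : ℤ) ^ v * r' + σ) := by
          ring
        rw [this]
        exact dvd_sub h1 h2
      have p5 : Prime (5 : ℤ) := by norm_num
      rcases p5.dvd_or_dvd h3 with h1 | h1 <;> omega
  · exact ⟨r', hr's, hr'ρ, hr'2, hx, hc⟩

end MP308.CE
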