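import Pool.Agent.Work.MP_308fa9_nt.CE.S25
import Pool.Agent.Work.MP_308fa9_nt.CE.A1
import Pool.Agent.Work.MP_308fa9_nt.CE.A2
import Pool.Agent.Work.MP_308fa9_nt.CE.B5
import Pool.Agent.Work.MP_308fa9_nt.CE.Smooth

/-! # The core: assembly of all cases -/

set_option autoImplicit false

namespace MP308.CE

open Filter

variable {c D : ℤ}

/-- a sequence of integers satisfying all local conditions eventually -/
structure Lim (c D : ℤ) (t : ℕ → ℤ) : Prop where
  two : ∀ᶠ N in atTop, t N % 20 = 1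
  good : ∀ n : ℤ, n ≠ 0 → ∀ᶠ N in atTop, Good c D (t N) n

/-- `t ≡ 1 mod M` eventually -/
def Ev (t : ℕ → ℤ) (M : ℤ) : Prop := ∀ᶠ N in atTop, M ∣ t N - 1

theorem Ev.mul {t : ℕ → ℤ} {M M' : ℤ} (h : IsCoprime M M') (h1 : Ev t M) (h2 : Ev t M') :
    Ev t (M * M') := by
  filter_upwards [h1, h2] with N a b using h.mul_dvd a b

theorem Ev.dvd {t : ℕ → ℤ} {M M' : ℤ} (h : M' ∣ M) (h1 : Ev t M) : Ev t M' := by
  filter_upwards [h1] with N a using h.trans a

/-- powers of 2 -/
theorem ev_two (hp : Par c D) {t : ℕ → ℤ} (ht : Lim c D t) (k : ℕ) : Ev t (2 ^ k) := by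
  have h8 : Ev t (2 ^ 3) := by
    filter_upwards [ht.two, ht.good 20 (by norm_num)] with N h1 h2
    have := stage40 hp h1 h2
    omega
  by_cases hk : k ≤ 3
  · exact h8.dvd (pow_dvd_pow 2 hk)
  · have key : ∀ m : ℕ, Ev t (2 ^ (3 + m)) := by
      intro m
      induction m with
      | zero => exact h8
      | succ m ih =>
        filter_upwards [ih, ht.good (2 ^ (3 + m)) (by positivity)] with N h1 h2
        exact stage2 hp (k := 3 + m) (by omega) h1 h2
    have := key (k - 3)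
    rwa [show 3 + (k - 3) = k by omega] at this

/-- powers of 5, once the powers of 3 are known -/
theorem ev_five (hp : Par c D) {t : ℕ → ℤ} (ht : Lim c D t) (h3 : Ev t 3) (k : ℕ) : Ev t (5 ^ k) := by
  have h5 : Ev t (5 ^ 1) := by
    filter_upwards [ht.two] with N h1
    omega
  have h6 : Ev t 6 := by
    filter_upwards [h3, ev_two hp ht 1] with N h1 h2
    omega
  have key : ∀ m : ℕ, Ev t (5 ^ (1 + m)) := by
    intro m
    induction m with
    | zero => exact h5
    | succ m ih =>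
      have hc : IsCoprime (6 : ℤ) (5 ^ (1 + m)) := IsCoprime.pow_right ⟨1, -1, by norm_num⟩
      filter_upwards [Ev.mul hc h6 ih, ht.good (5 ^ (1 + m + 1)) (by positivity),
        ht.good (3 * 5 ^ (1 + m + 1)) (by positivity)] with N h1 h2 h4
      exact stage5 hp (v := 1 + m) (by omega) h1 h2 h4
  rcases Nat.eq_zero_or_pos k with rfl | hk
  · exact h5.dvd (pow_dvd_pow 5 (by norm_num))
  · have := key (k - 1)
    rwa [show 1 + (k - 1) = k by omega] at this

/-- the signed prime `l' = ±l ≡ 1 mod 4` -/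
theorem exists_signed (l : ℕ) (hl : l.Prime) (h2 : l ≠ 2) :
    ∃ l' : ℤ, (l' = l ∨ l' = -l) ∧ l' % 4 = 1 ∧ Prime l' := by
  have hodd := hl.eq_two_or_odd
  have hp : Prime (l : ℤ) := Nat.prime_iff_prime_int.1 hl
  by_cases h : (l : ℤ) % 4 = 1
  · exact ⟨l, .inl rfl, h, hp⟩
  · exact ⟨-l, .inr rfl, by omega, hp.neg⟩

theorem exists_two_pow (x : ℤ) (hx : x ≠ 0) : ∃ (v : ℕ) (s : ℤ), x = 2 ^ v * s ∧ s % 2 = 1 := by
  obtain ⟨s, hrs, hs⟩ := (Int.finiteMultiplicity_iff (a := (2 : ℤ)) (b := x)).2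
    ⟨by norm_num, hx⟩ |>.exists_eq_pow_mul_and_not_dvd
  exact ⟨_, s, hrs, by omega⟩

theorem smooth_two_pow {l : ℕ} (hl : 3 ≤ l) (k : ℕ) : Smooth l (2 ^ k) :=
  Smooth.pow (Smooth.of_lt (by norm_num) (by rw [abs_lt]; omega)) k

/-- Case B excluded: `ℓ ∤ t_N` eventually -/
theorem not_dvd (hp : Par c D) {t : ℕ → ℤ} (ht : Lim c D t) (l : ℕ) (hl : l.Prime) (h2 : l ≠ 2)
    (h5 : l ≠ 5) (hs : ∀ d : ℤ, Smooth l d → Ev t d) : ∀ᶠ N in atTop, ¬ (l : ℤ) ∣ t N := by
  have hl3 : 3 ≤ l := by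
    have := hl.two_le
    omega
  have hl5 : (l : ℤ) % 5 ≠ 0 := by
    intro h
    have h1 : (5 : ℕ) ∣ l := by omega
    have := (Nat.prime_dvd_prime_iff_eq (by norm_num) hl).1 h1
    omega
  obtain ⟨l', hll, hl4, hlp⟩ := exists_signed l hl h2
  have hl0 : l' ≠ 0 := hlp.ne_zero
  have hdvd : ∀ x : ℤ, (l : ℤ) ∣ x → l' ∣ x := by
    intro x hx
    rcases hll with h | h
    · rwa [h]
    · rw [h]; exact (neg_dvd).2 hx
  have hpow : ∀ k : ℕ, Ev t (2 ^ k) := fun k => hs _ (smooth_two_pow hl3 k)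
  have hl5' : l' % 5 ≠ 0 := by rcases hll with h | h <;> omega
  have h40 : (l' % 40 = 13 ∨ l' % 40 = 17 ∨ l' % 40 = 21 ∨ l' % 40 = 29) ∨
      (l' % 40 = 33 ∨ l' % 40 = 37) ∨ l' % 40 = 1 ∨ l' % 80 = 49 ∨ l' % 80 = 9 := by
    have e1 : l' % 80 % 4 = 1 := by omega
    have e2 : l' % 80 % 5 ≠ 0 := by omega
    have e3 : l' % 40 = l' % 80 % 40 := by omega
    have e4 := Int.emod_nonneg l' (show (80 : ℤ) ≠ 0 by norm_num)
    have e5 := Int.emod_lt_of_pos l' (show (0 : ℤ) < 80 by norm_num)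
    rw [e3]
    generalize l' % 80 = r at *
    interval_cases r <;> simp_all
  rcases h40 with h | h | h | h | h
  · filter_upwards [hpow 2, ht.good (2 * l') (by simp [hl0])] with N h1 h3 h4
    exact caseB1 hp hlp h (hdvd _ h4) (by norm_num at h1; exact h1) h3
  · filter_upwards [hpow 3, ht.good (4 * l') (by simp [hl0])] with N h1 h3 h4
    exact caseB2 hp hlp h (hdvd _ h4) (by norm_num at h1; exact h1) h3
  · obtain ⟨v, s, hv, hs2⟩ := exists_two_pow (l' - 1) (by
      intro h0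
      have : l' = 1 := by omega
      exact hlp.not_isUnit (by rw [this]; exact isUnit_one))
    filter_upwards [hpow (v + 1), ht.good (2 ^ v * l') (mul_ne_zero (by positivity) hl0)] with N h1 h3 h4
    refine caseB3 hp hlp h ⟨s, hv⟩ ?_ (hdvd _ h4) h1 h3
    rintro ⟨w, hw⟩
    have h2v : (2 : ℤ) ^ v ≠ 0 := by positivity
    have : s = 2 * w := by
      apply mul_left_cancel₀ h2v
      rw [← hv, hw]; ring
    omega
  · filter_upwards [hpow 4, ht.good (8 * l') (by simp [hl0])] with N h1 h3 h4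
    exact caseB4 hp hlp h (hdvd _ h4) (by norm_num at h1; exact h1) h3
  · obtain ⟨k, hk⟩ : ∃ k : ℤ, 8 * k = l' - 1 := ⟨(l' - 1) / 8, by omega⟩
    have hk0 : k ≠ 0 := by omega
    have hsm : Smooth l (32 * k) := by
      have := (smooth_two_pow hl3 5).mul (Smooth.of_lt hk0 (show |k| < l by rw [abs_lt]; omega))
      norm_num at this
      exact this
    filter_upwards [hs _ hsm, ht.good (16 * (k * l')) (by simp [hl0, hk0])] with N h1 h3 h4
    exact caseB5 hp hlp h hk (hdvd _ h4) h1 h3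

/-- Case A: `ℓ^v → ℓ^(v+1)` -/
theorem ev_step (hp : Par c D) {t : ℕ → ℤ} (ht : Lim c D t) (l : ℕ) (hl : l.Prime) (h2 : l ≠ 2)
    (h5 : l ≠ 5) (hs : ∀ d : ℤ, Smooth l d → Ev t d) (v : ℕ) (hv : Ev t ((l : ℤ) ^ v)) :
    Ev t ((l : ℤ) ^ (v + 1)) := by
  have hl3 : 3 ≤ l := by
    have := hl.two_le
    omega
  have hl5 : (l : ℤ) % 5 ≠ 0 := by
    intro h
    have h1 : (5 : ℕ) ∣ l := by omega
    have := (Nat.prime_dvd_prime_iff_eq (by norm_num) hl).1 h1
    omega
  have hlP : Prime (l : ℤ) := Nat.prime_iff_prime_int.1 hl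
  obtain ⟨l', hll, hl4, hlp⟩ := exists_signed l hl h2
  have hl0 : l' ≠ 0 := hlp.ne_zero
  have hlL0 : (l : ℤ) ≠ 0 := hlP.ne_zero
  have hdvd : ∀ x : ℤ, l' ∣ x → (l : ℤ) ∣ x := by
    intro x hx
    rcases hll with h | h
    · rwa [h] at hx
    · rw [h] at hx; exact (neg_dvd).1 hx
  have hdvd' : ∀ (x y : ℤ), y * l ∣ x → y * l' ∣ x := by
    intro x y hx
    rcases hll with h | h
    · rwa [h]
    · rw [h, mul_neg]; exact (neg_dvd).2 hx
  have hnd := not_dvd hp ht l hl h2 h5 hs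
  -- smooth numbers are prime to l
  have hcop : ∀ (d : ℤ) (k : ℕ), Smooth l d → IsCoprime (2 * d) ((l : ℤ) ^ k) := by
    intro d k hd
    refine IsCoprime.pow_right ?_
    have hsm : Smooth l (2 * d) := by
      have := (smooth_two_pow hl3 1).mul hd
      rwa [pow_one] at this
    rw [isCoprime_comm]
    refine (Prime.coprime_iff_not_dvd hlP).2 fun hdv => ?_
    exact absurd (hsm.2 l hl hdv) (lt_irrefl _)
  have hS2 : ∀ d : ℤ, Smooth l d → Ev t (2 * d) := by
    intro d hd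
    have := (smooth_two_pow hl3 1).mul hd
    rw [pow_one] at this
    exact hs _ this
  -- each nonzero class is excluded
  have key : ∀ ρ ∈ Finset.Ico 1 l, ∀ᶠ N in atTop, ¬ (l : ℤ) ^ (v + 1) ∣ t N - 1 - l ^ v * (ρ : ℤ) := by
    intro ρ hρ
    rw [Finset.mem_Ico] at hρ
    have hρl : ¬ (l : ℤ) ∣ (ρ : ℤ) := by
      intro h
      have := Nat.le_of_dvd (by omega) (Int.natCast_dvd_natCast.1 h)
      omega
    by_cases h20 : l' % 20 = 1
    · -- case A2
      have hl19 : 11 ≤ l := by omega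
      obtain ⟨m, s, hm, hs2⟩ := exists_two_pow (1 - l') (by
        intro h0
        have : l' = 1 := by omega
        exact hlp.not_isUnit (by rw [this]; exact isUnit_one))
      have hm2 : 2 ≤ m := by
        by_contra hcon
        have : m = 0 ∨ m = 1 := by omega
        rcases this with rfl | rfl
        · norm_num at hm; omega
        · norm_num at hm; omega
      obtain ⟨a, rfl⟩ : ∃ a, m = a + 1 := ⟨m - 1, by omega⟩
      have ha : 1 ≤ a := by omega
      set k : ℤ := 2 * s with hk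
      have hka : k * 2 ^ a = 1 - l' := by rw [hm, hk]; ring
      have hk4 : k % 4 = 2 := by omega
      have hl1 : (l : ℤ) ∣ k * 2 ^ a - 1 := hdvd _ ⟨-1, by rw [hka]; ring⟩
      have hρ' : ¬ (l : ℤ) ∣ (ρ : ℤ) * 2 ^ a := by
        intro h
        rcases hlP.dvd_or_dvd h with h | h
        · exact hρl h
        · have := hlP.dvd_of_dvd_pow h
          have := Int.le_of_dvd (by norm_num) this
          omega
      obtain ⟨d₁, hd₁, hdρ₁, hd₁2, hd₁5⟩ := smooth_odd_five l hl (by omega) _ hρ'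
      obtain ⟨d₂, hd₂, hdρ₂, hd₂2, hd₂5, hd₂5'⟩ := smooth_odd l hl hl19 (by
        rcases hll with h | h <;> omega) v _ (2 ^ a) hρ'
      have hbk : ∀ d : ℤ, Smooth l d → (l : ℤ) ∣ d - (ρ : ℤ) * 2 ^ a → ∀ N, 2 * d ∣ t N - 1 →
          (l : ℤ) ^ (v + 1) ∣ t N - 1 - l ^ v * (ρ : ℤ) →
          2 * ((l : ℤ) ^ v * d * l') ∣ t N - (1 + (l : ℤ) ^ v * d * k) := by
        intro d hd hdρ N h1 h3
        have h4 : 2 * d ∣ t N - (1 + (l : ℤ) ^ v * d * k) := by
          have : t N - (1 + (l : ℤ) ^ v * d * k) = (t N - 1) - 2 * d * ((l : ℤ) ^ v * s) := by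
            rw [hk]; ring
          rw [this]
          exact dvd_sub h1 (dvd_mul_right _ _)
        have h6 : (l : ℤ) ^ (v + 1) ∣ t N - (1 + (l : ℤ) ^ v * d * k) := by
          have h7 : (l : ℤ) ∣ (ρ : ℤ) - d * k := by
            have : (ρ : ℤ) - d * k = -((d - (ρ : ℤ) * 2 ^ a) * k) - (ρ : ℤ) * (k * 2 ^ a - 1) := by ring
            rw [this]
            exact dvd_sub ((hdρ.mul_right k).neg_right) (hl1.mul_left _)
          have : t N - (1 + (l : ℤ) ^ v * d * k)
              = (t N - 1 - l ^ v * (ρ : ℤ)) + l ^ v * ((ρ : ℤ) - d * k) := by ring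
          rw [this]
          refine dvd_add h3 ?_
          rw [pow_succ]
          exact mul_dvd_mul_left _ h7
        have h8 := (hcop d (v + 1) hd).mul_dvd h4 h6
        have := hdvd' (t N - (1 + (l : ℤ) ^ v * d * k)) (2 * d * (l : ℤ) ^ v)
          (by rw [mul_assoc (2 * d), ← pow_succ]; exact h8)
        have e : 2 * ((l : ℤ) ^ v * d * l') = 2 * d * (l : ℤ) ^ v * l' := by ring
        rwa [e]
      have hlodd : Odd ((l : ℤ) ^ v) := by
        have : Odd (l : ℤ) := by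
          rw [Int.odd_iff]
          have := hl.eq_two_or_odd
          omega
        exact this.pow
      filter_upwards [hnd, hS2 _ hd₁, hS2 _ hd₂,
        ht.good ((l : ℤ) ^ v * d₁ * l') (mul_ne_zero (mul_ne_zero (pow_ne_zero _ hlL0) hd₁.1) hl0),
        ht.good ((l : ℤ) ^ v * d₂ * l') (mul_ne_zero (mul_ne_zero (pow_ne_zero _ hlL0) hd₂.1) hl0)] with N h1 h3 h4 h6 h7 h8
      refine caseA2 hp hlp h20 ha hka hk4 (fun h => h1 (hdvd _ h)) (b₁ := (l : ℤ) ^ v * d₁)
        (b₂ := (l : ℤ) ^ v * d₂) ?_ ?_ (hbk _ hd₁ hdρ₁ N h3 h8) (hbk _ hd₂ hdρ₂ N h4 h8) h6 h7 ?_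
        hd₂5 hd₂5'
      · exact Int.odd_iff.1 (hlodd.mul (Int.odd_iff.2 hd₁2))
      · exact Int.odd_iff.1 (hlodd.mul (Int.odd_iff.2 hd₂2))
      · exact Int.emod_eq_zero_of_dvd ((Int.dvd_of_emod_eq_zero hd₁5).mul_left _)
    · -- case A1
      obtain ⟨d, hd, hdρ, hd40⟩ := smooth_even l hl h2 h5 v (ρ : ℤ) hρl
      filter_upwards [hnd, hS2 _ hd, ht.good ((l : ℤ) ^ v * d * l') (mul_ne_zero (mul_ne_zero (pow_ne_zero _ hlL0) hd.1) hl0),
        ht.good l' hl0] with N h1 h3 h4 h6 h7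
      refine caseA1 hp hlp hl4 (by rcases hll with h | h <;> omega) h20 hd40
        (fun h => h1 (hdvd _ h)) ?_ h4 h6
      have h8 : 2 * d ∣ t N - (1 + (l : ℤ) ^ v * d + (l : ℤ) ^ v * d * l') := by
        obtain ⟨w, hw⟩ : ∃ w, 1 + l' = 2 * w := ⟨(1 + l') / 2, by omega⟩
        have : t N - (1 + (l : ℤ) ^ v * d + (l : ℤ) ^ v * d * l')
            = (t N - 1) - 2 * d * ((l : ℤ) ^ v * w) := by linear_combination (-(l : ℤ) ^ v * d) * hw
        rw [this]
        exact dvd_sub h3 (dvd_mul_right _ _)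
      have h9 : (l : ℤ) ^ (v + 1) ∣ t N - (1 + (l : ℤ) ^ v * d + (l : ℤ) ^ v * d * l') := by
        have h10 : (l : ℤ) ∣ (ρ : ℤ) - d - d * l' := by
          have : (ρ : ℤ) - d - d * l' = -(d - ρ) - d * l' := by ring
          rw [this]
          refine dvd_sub hdρ.neg_right ?_
          rcases hll with h | h <;> rw [h]
          · exact dvd_mul_left _ _
          · rw [mul_neg]; exact (dvd_mul_left _ _).neg_right
        have : t N - (1 + (l : ℤ) ^ v * d + (l : ℤ) ^ v * d * l')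
            = (t N - 1 - l ^ v * (ρ : ℤ)) + l ^ v * ((ρ : ℤ) - d - d * l') := by ring
        rw [this]
        refine dvd_add h7 ?_
        rw [pow_succ]
        exact mul_dvd_mul_left _ h10
      have h11 := (hcop d (v + 1) hd).mul_dvd h8 h9
      have := hdvd' (t N - (1 + (l : ℤ) ^ v * d + (l : ℤ) ^ v * d * l')) (2 * d * (l : ℤ) ^ v)
        (by rw [mul_assoc (2 * d), ← pow_succ]; exact h11)
      have e : 2 * ((l : ℤ) ^ v * d * l') = 2 * d * (l : ℤ) ^ v * l' := by ring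
      rwa [e]
  have key2 := (Filter.eventually_all_finset _).2 key
  filter_upwards [hv, key2] with N h1 h3
  obtain ⟨s, hs'⟩ := h1
  have hmod := Int.emod_add_mul_ediv s l
  have hlt := Int.emod_lt_of_pos s (show (0 : ℤ) < l by omega)
  have hnn := Int.emod_nonneg s hlL0
  by_cases h0 : s % l = 0
  · obtain ⟨w, rfl⟩ := Int.dvd_of_emod_eq_zero h0
    exact ⟨w, by rw [hs']; ring⟩
  · exfalso
    refine h3 (s % l).toNat (Finset.mem_Ico.2 (by omega)) ?_
    rw [Int.toNat_of_nonneg hnn, hs']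
    exact ⟨s / l, by linear_combination (-(l : ℤ) ^ v) * hmod⟩

theorem ev_pow (hp : Par c D) {t : ℕ → ℤ} (ht : Lim c D t) (l : ℕ) (hl : l.Prime)
    (hs : ∀ d : ℤ, Smooth l d → Ev t d) (v : ℕ) : Ev t ((l : ℤ) ^ v) := by
  by_cases h2 : l = 2
  · subst h2; exact_mod_cast ev_two hp ht v
  by_cases h5 : l = 5
  · subst h5
    exact_mod_cast ev_five hp ht (hs 3 (Smooth.of_lt (by norm_num) (by rw [abs_lt]; norm_num))) v
  induction v with
  | zero => rw [pow_zero]; exact Filter.Eventually.of_forall fun N => one_dvd _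
  | succ v ih => exact ev_step hp ht l hl h2 h5 hs v ih

/-- all prime powers, hence all moduli -/
theorem core (hp : Par c D) {t : ℕ → ℤ} (ht : Lim c D t) (M : ℤ) (hM : M ≠ 0) : Ev t M := by
  have key : ∀ l : ℕ, ∀ d : ℤ, Smooth l d → Ev t d := by
    intro l
    induction l with
    | zero =>
      intro d hd
      have : IsUnit d := by
        rw [Int.isUnit_iff_natAbs_eq]
        by_contra hne
        obtain ⟨p, hp, hpd⟩ := Nat.exists_prime_and_dvd hne
        exact absurd (hd.2 p hp (Int.natCast_dvd.2 hpd)) (Nat.not_lt_zero _)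
      exact Filter.Eventually.of_forall fun N => this.dvd
    | succ l ih =>
      intro d hd
      by_cases hl : l.Prime
      · have hl1 : (l : ℤ).natAbs ≠ 1 := by simpa using hl.ne_one
        obtain ⟨s, hrs, hs⟩ := (Int.finiteMultiplicity_iff (a := (l : ℤ)) (b := d)).2
          ⟨hl1, hd.1⟩ |>.exists_eq_pow_mul_and_not_dvd
        generalize multiplicity (l : ℤ) d = m at hrs
        have hlP : Prime (l : ℤ) := Nat.prime_iff_prime_int.1 hl
        have hsS : Smooth l s := by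
          have h1 := hd.dvd (b := s) ⟨(l : ℤ) ^ m, by rw [hrs]; ring⟩
          refine ⟨h1.1, fun p hp hps => ?_⟩
          have := h1.2 p hp hps
          rcases Nat.lt_succ_iff_lt_or_eq.1 this with h | h
          · exact h
          · rw [h] at hps; exact absurd hps hs
        rw [hrs]
        refine Ev.mul ?_ (ev_pow hp ht l hl ih m) (ih s hsS)
        exact IsCoprime.pow_left ((Prime.coprime_iff_not_dvd hlP).2 hs)
      · refine ih d ⟨hd.1, fun p hp hps => ?_⟩
        rcases Nat.lt_succ_iff_lt_or_eq.1 (hd.2 p hp hps) with h | h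
        · exact h
        · exact absurd (h ▸ hp) hl
  refine key (M.natAbs + 1) M ⟨hM, fun p hp hpd => ?_⟩
  have := Nat.le_of_dvd (Int.natAbs_pos.2 hM) (Int.natCast_dvd.1 hpd)
  omega

end MP308.CE
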