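import Mathlib

/-! # The curves `C : w⁴ = (t²-a)² - 4(t+c)` and `E : y² + y = x³ + a x² + c x`, the map `f`,
and the closure of `ℤ·Q₀` in `∏_q E(ℚ_q)` -/

set_option autoImplicit false

namespace MP308.CE

open WeierstrassCurve.Affine

/-- the elliptic curve `E : y² + y = x³ + a x² + c x` -/
def E (K : Type*) [Field K] (a c : ℤ) : WeierstrassCurve.Affine K :=
  { a₁ := 0, a₂ := (a : K), a₃ := 1, a₄ := (c : K), a₆ := 0 }

/-- the discriminant of `E` is an odd integer, so `E` is smooth in characteristic 0 -/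
theorem E_Δ (K : Type*) [Field K] [CharZero K] (a c : ℤ) : (E K a c).Δ ≠ 0 := by
  have h : (E K a c).Δ = (((2 * (-8 * a ^ 2 * (a - c ^ 2) - 32 * c ^ 3 + 36 * a * c - 14) + 1 : ℤ)) : K) := by
    simp only [WeierstrassCurve.Δ, WeierstrassCurve.b₂, WeierstrassCurve.b₄, WeierstrassCurve.b₆,
      WeierstrassCurve.b₈, E]
    push_cast
    ring
  rw [h, Ne, Int.cast_eq_zero]
  omega

theorem E_nonsing_zero (K : Type*) [Field K] (a c : ℤ) : (E K a c).Nonsingular 0 0 := by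
  rw [nonsingular_zero]; simp [E]

/-- the point `Q₀ = (0, 0)` of `E` -/
def Q₀ (K : Type*) [Field K] (a c : ℤ) : (E K a c).Point := .some 0 0 (E_nonsing_zero K a c)

/-- The `K`-points of the plane quartic `C : w⁴ = (t² - a z²)² - 4 z³ (t + c z)`:
the affine points `[t : w : 1]` and the points `[1 : ε : 0]`, `ε⁴ = 1`, at infinity. -/
inductive CPt (K : Type*) [Field K] (a c : ℤ)
  | aff (t w : K) (h : w ^ 4 = (t ^ 2 - a) ^ 2 - 4 * (t + c))
  | inf (ε : K) (h : ε ^ 4 = 1)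

theorem E_nonsing_f {K : Type*} [Field K] [CharZero K] {a c : ℤ} {t w : K}
    (h : w ^ 4 = (t ^ 2 - a) ^ 2 - 4 * (t + c)) :
    (E K a c).Nonsingular ((t ^ 2 - a - w ^ 2) / 2) (t * ((t ^ 2 - a - w ^ 2) / 2) - 1) := by
  rw [← equation_iff_nonsingular_of_Δ_ne_zero (E_Δ K a c), equation_iff]
  simp only [E]
  have h2 : (2 : K) ≠ 0 := two_ne_zero
  field_simp
  linear_combination -(t ^ 2 - a - w ^ 2) * h

open Classical in
/-- the morphism `f : C → E`, `f(t, w) = ((t² - a - w²)/2, t (t² - a - w²)/2 - 1)`;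
`f([1:±1:0]) = (0,0)`, `f([1:±i:0]) = O` -/
noncomputable def f {K : Type*} [Field K] [CharZero K] {a c : ℤ} : CPt K a c → (E K a c).Point
  | .aff t w h => .some ((t ^ 2 - a - w ^ 2) / 2) (t * ((t ^ 2 - a - w ^ 2) / 2) - 1) (E_nonsing_f h)
  | .inf ε _ => if ε ^ 2 = 1 then Q₀ K a c else 0

/-- `R` is `q^k`-close to `S` in `E(ℚ_q)`. For fixed `S` these sets (`k = 0, 1, 2, ...`) are a basis of
neighbourhoods of `S` in the `q`-adic topology of `E(ℚ_q)`: for an affine point `S` both coordinates of `R`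
are close to those of `S`; close to `O` are `O` and the points with large `x`-coordinate. -/
def Near (q : ℕ) [Fact q.Prime] (a c : ℤ) (k : ℕ) : (E ℚ_[q] a c).Point → (E ℚ_[q] a c).Point → Prop
  | .zero, .zero => True
  | .zero, .some _ _ _ => False
  | .some x _ _, .zero => (q : ℝ) ^ k ≤ ‖x‖
  | .some x y _, .some x' y' _ => ‖x - x'‖ ≤ (q : ℝ) ^ (-(k : ℤ)) ∧ ‖y - y'‖ ≤ (q : ℝ) ^ (-(k : ℤ))

open Classical in
/-- `(R_q)_q` lies in the closure of `ℤ·Q₀` in `∏_q E(ℚ_q)` (product topology) -/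
def InClosure (a c : ℤ) (R : ∀ (q : ℕ) [Fact q.Prime], (E ℚ_[q] a c).Point) : Prop :=
  ∀ (S : Finset ℕ) (k : ℕ), ∃ m : ℤ, ∀ (q : ℕ) [Fact q.Prime], q ∈ S →
    Near q a c k (m • Q₀ ℚ_[q] a c) (R q)

end MP308.CE
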