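import Mathlib

/-!
# MP_308fa9_nt, CE cell: basic definitions

`W c D n = ψ_n((0,0))` for `y² + y = x³ + (c² - D) x² + c x`.
-/

set_option autoImplicit false

namespace MP308.CE

/-- The elliptic divisibility sequence of the point `(0,0)` on `y² + y = x³ + (c² - D) x² + c x`. -/
def W (c D : ℤ) (n : ℤ) : ℤ := normEDS (1 : ℤ) (-D) (-(1 + 2 * c * D)) n

/-- `T_n`, with `W_{2n} = W_n T_n`. -/
def T (c D : ℤ) (n : ℤ) : ℤ := W c D (n + 2) * W c D (n - 1) ^ 2 - W c D (n - 2) * W c D (n + 1) ^ 2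

/-- Elliptic sequences with `V 1 = 1`. -/
structure Ell {R : Type*} [CommRing R] (V : ℤ → R) : Prop where
  zero : V 0 = 0
  one : V 1 = 1
  neg : ∀ n, V (-n) = -V n
  rel : ∀ m n, V (m + n) * V (m - n)
    = V (m + 1) * V (m - 1) * V n ^ 2 - V (n + 1) * V (n - 1) * V m ^ 2

/-- The hypotheses on the parameters (`a = c² - D`). -/
structure Par (c D : ℤ) : Prop where
  hc : c % 2 = 0
  hD : D % 8 = 3
  hF : ∀ t : ℝ, 0 < (t ^ 2 - ((c : ℝ) ^ 2 - D)) ^ 2 - 4 * (t + c)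

/-- Behaviour of an elliptic sequence with values in a field. -/
structure Reg {F : Type*} [Field F] (V : ℤ → F) : Prop where
  ell : Ell V
  two : V 2 ≠ 0
  zset : ∃ r : ℕ, ∀ n : ℤ, V n = 0 ↔ (r : ℤ) ∣ n
  sq : ∀ n, V n = 0 → IsSquare (-(V (n + 1) * V (n - 1)))

/-- The properties of an integral elliptic sequence used in the computations with Jacobi symbols. -/
structure EDSZ (V : ℤ → ℤ) : Prop where
  ell : Ell V
  ne : ∀ n, n ≠ 0 → V n ≠ 0
  cop : ∀ m n, IsCoprime m n → IsCoprime (V m) (V n)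
  pos : ∀ n, n % 4 = 1 → 0 < V n
  shift : ∀ q : ℕ, q.Prime → q ≠ 2 → ∀ n s s' : ℤ, (q : ℤ) ∣ V n → s % 2 = s' % 2 →
    ¬ (q : ℤ) ∣ V s → ¬ (q : ℤ) ∣ V s' →
    IsSquare ((V (s + n) * V s * (V (s' + n) * V s') : ℤ) : ZMod q)

/-- odd part of `|x|` -/
def op (x : ℤ) : ℕ := x.natAbs / 2 ^ (x.natAbs.factorization 2)

/-- `(V_s / odd |V_n|)` -/
noncomputable def J (V : ℤ → ℤ) (s n : ℤ) : ℤ := jacobiSym (V s) (op (V n))

/-- The local condition at the primes dividing `W_n`, for the index `t`. -/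
def Good (c D t n : ℤ) : Prop := ∀ q : ℕ, q.Prime → q ≠ 2 → (q : ℤ) ∣ W c D n →
  ¬ (q : ℤ) ∣ W c D t → IsSquare ((W c D t : ℤ) : ZMod q)

/-- `d ≠ 0` has only prime factors `< l`. -/
def Smooth (l : ℕ) (d : ℤ) : Prop := d ≠ 0 ∧ ∀ p : ℕ, p.Prime → (p : ℤ) ∣ d → p < l

end MP308.CE
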