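import Pool.Agent.Work.MP_308fa9_nt.CE.Defs
import Pool.Agent.Work.MP_308fa9_nt.CE.ERel

/-! # (1.1): the elliptic relation for `W` (and the doubling recurrences) -/

set_option autoImplicit false

namespace MP308.CE

variable (c D : ℤ)

theorem W_zero : W c D 0 = 0 := by simp [W]
theorem W_one : W c D 1 = 1 := by simp [W]
theorem W_two : W c D 2 = 1 := by simp [W]
theorem W_three : W c D 3 = -D := by simp [W]
theorem W_four : W c D 4 = -(1 + 2 * c * D) := by simp [W]
theorem W_neg (n : ℤ) : W c D (-n) = -W c D n := by simp [W]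

theorem W_dbl (m : ℤ) : W c D (2 * m) = W c D m * T c D m := by
  have h := normEDS_even (1 : ℤ) (-D) (-(1 + 2 * c * D)) m
  simp only [W, T] at *
  linear_combination h

theorem W_dbl_add_one (m : ℤ) : W c D (2 * m + 1)
    = W c D (m + 2) * W c D m ^ 3 - W c D (m - 1) * W c D (m + 1) ^ 3 :=
  normEDS_odd (1 : ℤ) (-D) (-(1 + 2 * c * D)) m

theorem doubling_W : Pool.Agent.Work.MP_308fa9_nt.CE.Doubling (W c D) :=
  Pool.Agent.Work.MP_308fa9_nt.CE.doubling_normEDS (-D) (-(1 + 2 * c * D))

/-- (1.1) -/
theorem ell_W : Ell (W c D) where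
  zero := W_zero c D
  one := W_one c D
  neg := W_neg c D
  rel m n := (doubling_W c D).erel m n

/-- three index form, for any elliptic sequence with `V 1 = 1` -/
theorem Ell.three {R : Type*} [CommRing R] {V : ℤ → R} (h : Ell V) (p q r : ℤ) :
    V (p + q) * V (p - q) * V r ^ 2 - V (p + r) * V (p - r) * V q ^ 2
      + V p ^ 2 * (V (q + r) * V (q - r)) = 0 := by
  rw [h.rel p q, h.rel p r, h.rel q r]; ring

theorem Ell.map {R S : Type*} [CommRing R] [CommRing S] {V : ℤ → R} (h : Ell V) (f : R →+* S) :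
    Ell (fun n => f (V n)) where
  zero := by rw [h.zero, map_zero]
  one := by rw [h.one, map_one]
  neg n := by rw [h.neg, map_neg]
  rel m n := by
    simp only [← map_mul, ← map_pow, ← map_sub, h.rel m n]

end MP308.CE
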