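import Pool.Agent.Work.MP_308fa9_nt.CE.Curve

/-! # Complements: positivity of `F`, smoothness of the plane quartic, the trivial inclusion -/

set_option autoImplicit false

namespace MP308.CE

/-- `F > 0` on `ℝ` holds for all `c ≤ 0` and `a ≤ c² - 3` -/
theorem F_pos (a c : ℤ) (hc : c ≤ 0) (ha : a + 3 ≤ c ^ 2) (t : ℝ) :
    0 < (t ^ 2 - a) ^ 2 - 4 * (t + c) := by
  have hc' : (c : ℝ) ≤ 0 := by exact_mod_cast hc
  have ha' : (a : ℝ) + 3 ≤ (c : ℝ) ^ 2 := by exact_mod_cast ha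
  by_cases ht : t + c < 0
  · nlinarith [sq_nonneg (t ^ 2 - a)]
  · push Not at ht
    -- `t ≥ -c ≥ 0`
    have h1 : (3 : ℝ) ≤ t ^ 2 - a := by nlinarith
    rcases le_or_gt (-c : ℝ) 0 with h0 | h0
    · -- c = 0
      have hc0 : (c : ℝ) = 0 := le_antisymm hc' (by linarith)
      rw [hc0] at ha' ht ⊢
      have h2 : t ^ 2 + 3 ≤ t ^ 2 - a := by nlinarith
      nlinarith [sq_nonneg (t ^ 2), sq_nonneg (3 * t - 1), mul_self_le_mul_self (by positivity) h2]
    · have hc1 : (c : ℝ) ≤ -1 := by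
        have : c < 0 := by exact_mod_cast (show (c : ℝ) < 0 by linarith)
        have : c ≤ -1 := by omega
        exact_mod_cast this
      have hs : 0 ≤ t + c := ht
      have h2 : 3 + 2 * (t + c) ≤ t ^ 2 - a := by nlinarith
      nlinarith [mul_self_le_mul_self (show (0 : ℝ) ≤ 3 + 2 * (t + c) by positivity) h2]

/-- The plane quartic `G = w⁴ - (t² - a z²)² + 4 z³ (t + c z)` is smooth (characteristic 0, all integers `a`, `c`):
its three partial derivatives have no common zero on it. -/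
theorem C_smooth (K : Type*) [Field K] [CharZero K] (a c : ℤ) (t w z : K)
    (h : w ^ 4 = (t ^ 2 - a * z ^ 2) ^ 2 - 4 * z ^ 3 * (t + c * z))
    (hw : 4 * w ^ 3 = 0) (ht : 4 * z ^ 3 - 4 * t * (t ^ 2 - a * z ^ 2) = 0) :
    t = 0 ∧ w = 0 ∧ z = 0 := by
  have hw0 : w = 0 := by
    have : w ^ 3 = 0 := by simpa using hw
    exact pow_eq_zero_iff (by norm_num) |>.1 this
  subst hw0
  have ht' : t ^ 3 = a * t * z ^ 2 + z ^ 3 := by
    have h4 : (4 : K) ≠ 0 := by norm_num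
    have : 4 * (t ^ 3 - (a * t * z ^ 2 + z ^ 3)) = 0 := by linear_combination -ht
    rcases mul_eq_zero.1 this with h | h
    · exact absurd h h4
    · linear_combination h
  by_cases hz : z = 0
  · subst hz
    have : t ^ 3 = 0 := by rw [ht']; ring
    exact ⟨pow_eq_zero_iff (by norm_num) |>.1 this, rfl, rfl⟩
  exfalso
  -- `s = t² - a z²`, `t s = z³`, `s² = 4 z³ (t + c z)`
  have e0 : 3 * z ^ 2 + 4 * a * t * z + 4 * c * t ^ 2 = 0 := by
    have h3 : z ^ 4 * (3 * z ^ 2 + 4 * a * t * z + 4 * c * t ^ 2) = 0 := by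
      have hs : (t * (t ^ 2 - a * z ^ 2)) ^ 2 = z ^ 6 := by
        have : t * (t ^ 2 - a * z ^ 2) = z ^ 3 := by linear_combination ht'
        rw [this]; ring
      have h2 : t ^ 2 * (4 * z ^ 3 * (t + c * z)) = z ^ 6 := by
        rw [← hs]; linear_combination (t ^ 2) * h
      linear_combination h2 - 4 * z ^ 3 * ht'
    rcases mul_eq_zero.1 h3 with h | h
    · exact absurd h (pow_ne_zero 4 hz)
    · exact h
  have e1 : 4 * c * z ^ 2 + (4 * a * c + 3) * t * z + 4 * a * t ^ 2 = 0 := by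
    have : z * (4 * c * z ^ 2 + (4 * a * c + 3) * t * z + 4 * a * t ^ 2) = 0 := by
      linear_combination t * e0 - 4 * c * ht'
    rcases mul_eq_zero.1 this with h | h
    · exact absurd h hz
    · exact h
  have e2 : 4 * a * z ^ 2 + 4 * (a ^ 2 + c) * t * z + (4 * a * c + 3) * t ^ 2 = 0 := by
    have : z * (4 * a * z ^ 2 + 4 * (a ^ 2 + c) * t * z + (4 * a * c + 3) * t ^ 2) = 0 := by
      linear_combination t * e1 - 4 * a * ht'
    rcases mul_eq_zero.1 this with h | h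
    · exact absurd h hz
    · exact h
  have e3 : (((2 * (-8 * a ^ 2 * c ^ 2 + 8 * a ^ 3 + 32 * c ^ 3 - 36 * a * c + 13) + 1 : ℤ)) : K) * z ^ 2
      = 0 := by
    push_cast
    linear_combination ((4 * a * c + 3) ^ 2 - 16 * a * (a ^ 2 + c) : K) * e0
      + (16 * c ^ 2 - 12 * a : K) * e1 + (16 * a ^ 2 - 16 * a * c ^ 2 - 12 * c : K) * e2
  rcases mul_eq_zero.1 e3 with h | h
  · rw [Int.cast_eq_zero] at h
    omega
  · exact pow_ne_zero 2 hz h

theorem Near.refl {q : ℕ} [Fact q.Prime] {a c : ℤ} (k : ℕ) (x y : ℚ_[q])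
    (h : (E ℚ_[q] a c).Nonsingular x y) : Near q a c k (.some x y h) (.some x y h) := by
  refine ⟨?_, ?_⟩ <;> rw [sub_self, norm_zero] <;> positivity

open Classical in
/-- the trivial inclusion: `Q₀` itself is in the closure -/
theorem inClosure_of_inf (a c : ℤ) (P : ∀ (q : ℕ) [Fact q.Prime], CPt ℚ_[q] a c)
    (h : ∀ (q : ℕ) [Fact q.Prime], ∃ (ε : ℚ_[q]) (hε : ε ^ 4 = 1), P q = .inf ε hε ∧ (ε = 1 ∨ ε = -1)) :
    InClosure a c (fun q _ => f (P q)) := by
  intro S k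
  refine ⟨1, fun q _ _ => ?_⟩
  obtain ⟨ε, hε, h1, h2⟩ := h q
  have h3 : ε ^ 2 = 1 := by rcases h2 with rfl | rfl <;> norm_num
  have : f (P q) = Q₀ ℚ_[q] a c := by rw [h1]; simp [f, h3]
  have e : (1 : ℤ) • Q₀ ℚ_[q] a c = Q₀ ℚ_[q] a c := one_smul _ _
  simp only [this]
  rw [e]
  exact Near.refl k _ _ _

end MP308.CE
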