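import Pool.Agent.Work.MP_308fa9_nt.CE.Geo

/-! # Section 3: the local condition at the odd primes -/

set_option autoImplicit false

namespace MP308.CE

open Classical WeierstrassCurve.Affine

/-- reduction is zero iff the norm is `< 1` -/
theorem localO_red {q : ℕ} [Fact q.Prime] (z : ℤ_[q]) :
    PadicInt.toZMod z = 0 ↔ ‖z‖ < 1 := by
  rw [← RingHom.mem_ker, PadicInt.ker_toZMod, IsLocalRing.mem_maximalIdeal, PadicInt.mem_nonunits]

theorem localO_lift {q : ℕ} [Fact q.Prime] {z : ℚ_[q]} (h : ‖z‖ ≤ 1) :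
    ∃ z' : ℤ_[q], (z' : ℚ_[q]) = z := ⟨⟨z, h⟩, rfl⟩

theorem localO_int {q : ℕ} [Fact q.Prime] (n : ℤ) :
    ∃ z' : ℤ_[q], (z' : ℚ_[q]) = (n : ℚ_[q]) ∧ PadicInt.toZMod z' = (n : ZMod q) :=
  ⟨(n : ℤ_[q]), by simp, by simp⟩

/-- an integral fourth power equation: `‖w‖ ≤ 1` if `‖w⁴‖ ≤ 1` -/
theorem localO_pow {q : ℕ} [Fact q.Prime] {w : ℚ_[q]} {n : ℕ} (hn : n ≠ 0) (h : ‖w ^ n‖ ≤ 1) :
    ‖w‖ ≤ 1 := by
  rw [norm_pow] at h
  exact (pow_le_one_iff_of_nonneg (norm_nonneg _) hn).1 h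

theorem localO_two {q : ℕ} [Fact q.Prime] (hq : q ≠ 2) : ‖(2 : ℚ_[q])‖ = 1 := by
  have h1 : ‖((2 : ℤ) : ℚ_[q])‖ = 1 := by
    rw [Padic.norm_intCast_eq_one_iff]
    have h2 : Nat.Coprime 2 q := by
      rw [Nat.coprime_primes Nat.prime_two (Fact.out)]
      exact fun h => hq h.symm
    exact_mod_cast h2.isCoprime
  exact_mod_cast h1

theorem localO_two' {q : ℕ} [Fact q.Prime] (hq : q ≠ 2) : (2 : ZMod q) ≠ 0 := by
  intro h
  have h1 : ((2 : ℕ) : ZMod q) = 0 := by exact_mod_cast h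
  rw [ZMod.natCast_eq_zero_iff] at h1
  exact hq ((Nat.prime_dvd_prime_iff_eq Fact.out Nat.prime_two).1 h1)

theorem localO_four {q : ℕ} [Fact q.Prime] {s : ZMod q} (h : s ^ 4 = 1) (h' : s ^ 2 ≠ 1) :
    s ^ 2 = -1 := by
  have h1 : (s ^ 2 - 1) * (s ^ 2 + 1) = 0 := by linear_combination h
  rcases mul_eq_zero.1 h1 with h2 | h2
  · exact absurd (by linear_combination h2) h'
  · linear_combination h2

/-- `-1` is a square mod `q` if `f P = O` or `f P` reduces to `O`. -/
theorem localO_neg_one {a c : ℤ} (q : ℕ) [Fact q.Prime] (hq : q ≠ 2) (P : CPt ℚ_[q] a c)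
    (h : f P = 0 ∨ ∃ x y h', f P = .some x y h' ∧ 1 < ‖x‖) : IsSquare (-1 : ZMod q) := by
  cases P with
  | inf ε hε =>
    have hε2 : ε ^ 2 ≠ 1 := by
      intro h2
      simp only [f, h2, if_true, Q₀] at h
      rcases h with h | ⟨x, y, h', h3, h4⟩
      · exact Point.some_ne_zero _ h
      · injection h3 with h5 h6
        rw [← h5, norm_zero] at h4
        linarith
    have h4 : ‖ε‖ ≤ 1 := localO_pow (n := 4) (by norm_num) (by rw [hε, norm_one])
    obtain ⟨e, rfl⟩ := localO_lift h4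
    have h5 : e ^ 4 = 1 := Subtype.ext (by push_cast; exact hε)
    have h6 : e ^ 2 ≠ 1 := by
      intro h7
      apply hε2
      rw [← PadicInt.coe_pow, h7, PadicInt.coe_one]
    have h8 : e ^ 2 = -1 := by
      have h1 : (e ^ 2 - 1) * (e ^ 2 + 1) = 0 := by linear_combination h5
      rcases mul_eq_zero.1 h1 with h2 | h2
      · exact absurd (by linear_combination h2) h6
      · linear_combination h2
    refine ⟨PadicInt.toZMod e, ?_⟩
    rw [← pow_two, ← map_pow, h8, map_neg, map_one]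
  | aff t w hw =>
    obtain ⟨hx1, -⟩ : 1 < ‖(t ^ 2 - a - w ^ 2) / 2‖ ∧ True := by
      refine ⟨?_, trivial⟩
      rcases h with h | ⟨x, y, h', h3, h4⟩
      · simp only [f] at h
        exact absurd h (Point.some_ne_zero _)
      · simp only [f] at h3
        injection h3 with h5 h6
        rw [h5]
        exact h4
    rw [norm_div, localO_two hq, div_one] at hx1
    -- `|t| > 1`
    have ht : 1 < ‖t‖ := by
      by_contra hcon
      push Not at hcon
      obtain ⟨t', rfl⟩ := localO_lift hcon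
      have h1 : ‖w ^ 4‖ ≤ 1 := by
        rw [hw]
        have : ((t' : ℚ_[q]) ^ 2 - a) ^ 2 - 4 * (t' + c) =
            (((t' ^ 2 - (a : ℤ_[q])) ^ 2 - ((4 : ℤ) : ℤ_[q]) * (t' + (c : ℤ_[q])) : ℤ_[q]) : ℚ_[q]) := by
          simp only [PadicInt.coe_sub, PadicInt.coe_pow, PadicInt.coe_mul, PadicInt.coe_add,
            PadicInt.coe_intCast]
          norm_num
        rw [this]
        exact PadicInt.norm_le_one _
      obtain ⟨w', rfl⟩ := localO_lift (localO_pow (by norm_num) h1)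
      have : ((t' : ℚ_[q]) ^ 2 - a - (w' : ℚ_[q]) ^ 2) =
          ((t' ^ 2 - (a : ℤ_[q]) - w' ^ 2 : ℤ_[q]) : ℚ_[q]) := by
        push_cast
        ring
      rw [this] at hx1
      have := PadicInt.norm_le_one (t' ^ 2 - (a : ℤ_[q]) - w' ^ 2 : ℤ_[q])
      rw [PadicInt.norm_def] at this
      linarith
    have ht0 : t ≠ 0 := by
      rintro rfl
      rw [norm_zero] at ht
      linarith
    obtain ⟨u, hu⟩ := localO_lift (q := q) (z := 1 / t) (by
      rw [norm_div, norm_one]
      exact (div_le_one (by linarith)).2 ht.le)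
    have hu1 : PadicInt.toZMod u = 0 := by
      rw [localO_red, PadicInt.norm_def, hu, norm_div, norm_one]
      exact (div_lt_one (by linarith)).2 ht
    have htu : t * u = 1 := by rw [hu]; field_simp
    have hs4 : (w / t) ^ 4 =
        (((1 - (a : ℤ_[q]) * u ^ 2) ^ 2 - ((4 : ℤ) : ℤ_[q]) * (u ^ 3 + (c : ℤ_[q]) * u ^ 4) :
          ℤ_[q]) : ℚ_[q]) := by
      simp only [PadicInt.coe_sub, PadicInt.coe_pow, PadicInt.coe_mul, PadicInt.coe_add,
        PadicInt.coe_intCast, PadicInt.coe_one]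
      rw [hu]
      push_cast
      field_simp
      linear_combination hw
    obtain ⟨s, hs⟩ := localO_lift (q := q) (z := w / t) (localO_pow (n := 4) (by norm_num) (by
      rw [hs4]; exact PadicInt.norm_le_one _))
    have hs4' : s ^ 4 = (1 - (a : ℤ_[q]) * u ^ 2) ^ 2 -
        ((4 : ℤ) : ℤ_[q]) * (u ^ 3 + (c : ℤ_[q]) * u ^ 4) := by
      rw [← hs, ← PadicInt.coe_pow] at hs4
      exact Subtype.ext hs4
    have hr4 : (PadicInt.toZMod s) ^ 4 = 1 := by
      have := congrArg (PadicInt.toZMod (p := q)) hs4'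
      simp only [map_pow, map_sub, map_mul, map_add, map_one, hu1] at this
      rw [this]
      ring
    by_cases h2 : (PadicInt.toZMod s) ^ 2 = 1
    · exfalso
      have hw' : w = s * t := by rw [hs]; field_simp
      -- `(t²-a-w²) (1 - a u² + s²) = 4 (u + c u²)`
      have hprod : (t ^ 2 - a - w ^ 2) * ((1 - (a : ℤ_[q]) * u ^ 2 + s ^ 2 : ℤ_[q]) : ℚ_[q]) =
          ((((4 : ℤ) : ℤ_[q]) * (u + (c : ℤ_[q]) * u ^ 2) : ℤ_[q]) : ℚ_[q]) := by
        simp only [PadicInt.coe_sub, PadicInt.coe_pow, PadicInt.coe_mul, PadicInt.coe_add,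
          PadicInt.coe_intCast, PadicInt.coe_one]
        rw [hs, hu]
        push_cast
        field_simp
        linear_combination -hw
      have hn1 : ‖((1 - (a : ℤ_[q]) * u ^ 2 + s ^ 2 : ℤ_[q]) : ℚ_[q])‖ = 1 := by
        rw [← PadicInt.norm_def]
        refine le_antisymm (PadicInt.norm_le_one _) (not_lt.1 fun hlt => ?_)
        rw [← localO_red] at hlt
        simp only [map_add, map_sub, map_mul, map_pow, map_one, hu1, h2] at hlt
        apply localO_two' hq
        linear_combination hlt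
      have hn2 : ‖((((4 : ℤ) : ℤ_[q]) * (u + (c : ℤ_[q]) * u ^ 2) : ℤ_[q]) : ℚ_[q])‖ < 1 := by
        rw [← PadicInt.norm_def, ← localO_red]
        simp only [map_add, map_mul, map_pow, hu1]
        ring
      have := congrArg norm hprod
      rw [norm_mul, hn1, mul_one] at this
      linarith
    · exact ⟨PadicInt.toZMod s, by rw [← pow_two, localO_four hr4 h2]⟩

theorem localO_unit {q : ℕ} [Fact q.Prime] {n : ℤ} (h : ¬ (q : ℤ) ∣ n) : ‖(n : ℚ_[q])‖ = 1 := by
  rcases (Padic.norm_int_le_one (p := q) n).lt_or_eq with h1 | h1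
  · exact absurd ((Padic.norm_intCast_lt_one_iff).mp h1) h
  · exact h1

/-- a `q`-adic number close to the `q`-integral fraction `n / d` -/
theorem localO_near {q : ℕ} [Fact q.Prime] {n d : ℤ} (hd : ¬ (q : ℤ) ∣ d) {z : ℚ_[q]}
    (h : ‖(n : ℚ_[q]) / (d : ℚ_[q]) - z‖ < 1) :
    ∃ z' : ℤ_[q], (z' : ℚ_[q]) = z ∧ PadicInt.toZMod z' * (d : ZMod q) = (n : ZMod q) := by
  have hd1 := localO_unit hd
  have hd0 : (d : ℚ_[q]) ≠ 0 := by
    intro h0
    rw [h0, norm_zero] at hd1
    exact zero_ne_one hd1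
  have h1 : ‖z‖ ≤ 1 := by
    have h2 : z = (n : ℚ_[q]) / (d : ℚ_[q]) - ((n : ℚ_[q]) / (d : ℚ_[q]) - z) := by ring
    rw [h2]
    have h7 := Padic.nonarchimedean ((n : ℚ_[q]) / (d : ℚ_[q])) (-((n : ℚ_[q]) / (d : ℚ_[q]) - z))
    rw [norm_neg, ← sub_eq_add_neg] at h7
    refine h7.trans (max_le ?_ h.le)
    rw [norm_div, hd1, div_one]
    exact Padic.norm_int_le_one n
  obtain ⟨z', rfl⟩ := localO_lift h1
  refine ⟨z', rfl, ?_⟩
  have h3 : ‖((n : ℤ_[q]) - z' * (d : ℤ_[q]))‖ < 1 := by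
    rw [PadicInt.norm_def]
    simp only [PadicInt.coe_sub, PadicInt.coe_mul, PadicInt.coe_intCast]
    have h4 : (n : ℚ_[q]) - z' * (d : ℚ_[q]) = ((n : ℚ_[q]) / (d : ℚ_[q]) - z') * d := by
      field_simp
    rw [h4, norm_mul, hd1, mul_one]
    exact h
  rw [← localO_red] at h3
  simp only [map_sub, map_mul, map_intCast] at h3
  linear_combination -h3

/-- (Lq) -/
theorem local_odd {c D : ℤ} (hc : c % 2 = 0) (hD : D % 8 = 3) (q : ℕ) [Fact q.Prime] (hq : q ≠ 2)
    (P : CPt ℚ_[q] (c ^ 2 - D) c) (m : ℤ)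
    (hm : Near q (c ^ 2 - D) c 1 (m • Q₀ ℚ_[q] (c ^ 2 - D) c) (f P))
    (hW : ¬ (q : ℤ) ∣ W c D (2 * m - 1)) : IsSquare ((W c D (2 * m - 1) : ℤ) : ZMod q) := by
  have hq1 : (1 : ℝ) < q := by exact_mod_cast (Fact.out : q.Prime).one_lt
  have hinv : (q : ℝ) ^ (-((1 : ℕ) : ℤ)) < 1 := by
    rw [zpow_neg]
    simpa using inv_lt_one_of_one_lt₀ hq1
  have hcop : ∀ i j : ℤ, IsCoprime i j → (q : ℤ) ∣ W c D i → (q : ℤ) ∣ W c D j → False := by
    intro i j hij h1 h2
    have h3 := Int.isUnit_iff.mp ((cop_W hc hD i j hij).isUnit_of_dvd' h1 h2)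
    have h4 := (Fact.out : q.Prime).two_le
    omega
  have hz : ∀ n : ℤ, ((W c D n : ℤ) : ZMod q) = 0 ↔ (q : ℤ) ∣ W c D n := fun n =>
    ZMod.intCast_zmod_eq_zero_iff_dvd _ _
  have hsq := (reg_W hc hD q hq).sq
  -- `W_{2m-1} = W_{m+1} W_{m-1}³ - W_{m-2} W_m³`
  have hd : ((W c D (2 * m - 1) : ℤ) : ZMod q) = (W c D (m + 1) : ℤ) * (W c D (m - 1) : ℤ) ^ 3 -
      (W c D (m - 2) : ℤ) * (W c D m : ℤ) ^ 3 := by
    have h := W_dbl_add_one c D (m - 1)
    rw [show 2 * (m - 1) + 1 = 2 * m - 1 by ring, show m - 1 + 2 = m + 1 by ring,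
      show m - 1 - 1 = m - 2 by ring, show m - 1 + 1 = m by ring] at h
    rw [h]
    push_cast
    ring
  by_cases hα : (q : ℤ) ∣ W c D m
  · -- (α)
    have hm1 : ¬ (q : ℤ) ∣ W c D (m + 1) := fun h => hcop m (m + 1) ⟨-1, 1, by ring⟩ hα h
    have hm2 : ¬ (q : ℤ) ∣ W c D (m - 1) := fun h => hcop m (m - 1) ⟨1, -1, by ring⟩ hα h
    have hneg : IsSquare (-1 : ZMod q) := by
      apply localO_neg_one q hq P
      cases hfP : f P with
      | zero => exact Or.inl rfl
      | some x' y' h' =>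
        refine Or.inr ⟨x', y', h', rfl, ?_⟩
        rw [hfP] at hm
        rcases eq_or_ne m 0 with rfl | hm0
        · rw [zero_smul] at hm
          exact absurd hm id
        obtain ⟨h, e⟩ := zsmul_Q₀ (K := ℚ_[q]) hc hD m hm0
        rw [e] at hm
        have h1 : ‖(X c D m : ℚ_[q]) / (W c D m : ℚ_[q]) ^ 2 - x'‖ < 1 := hm.1.trans_lt hinv
        have hXn : ‖(X c D m : ℚ_[q])‖ = 1 := by
          apply localO_unit
          simp only [X, dvd_neg]
          intro h2
          rcases (Nat.prime_iff_prime_int.1 (Fact.out : q.Prime)).dvd_or_dvd h2 with h3 | h3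
          · exact hm1 h3
          · exact hm2 h3
        have hWn : ‖(W c D m : ℚ_[q])‖ < 1 := Padic.norm_intCast_lt_one_iff.2 hα
        have hW0 : (W c D m : ℚ_[q]) ≠ 0 := by
          exact_mod_cast W_ne hc hD m hm0
        have h2 : 1 < ‖(X c D m : ℚ_[q]) / (W c D m : ℚ_[q]) ^ 2‖ := by
          rw [norm_div, hXn, norm_pow]
          have h3 : 0 < ‖(W c D m : ℚ_[q])‖ := norm_pos_iff.2 hW0
          exact (one_lt_div (by positivity)).2 (pow_lt_one₀ h3.le hWn two_ne_zero)
        by_contra hcon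
        push Not at hcon
        have h7 := Padic.nonarchimedean ((X c D m : ℚ_[q]) / (W c D m : ℚ_[q]) ^ 2 - x') x'
        rw [sub_add_cancel] at h7
        have := h7.trans (max_le h1.le hcon)
        linarith
    have h1 := hsq m ((hz m).2 hα)
    have h2 : ((W c D (2 * m - 1) : ℤ) : ZMod q) =
        (-(((W c D (m + 1) : ℤ) : ZMod q) * ((W c D (m - 1) : ℤ) : ZMod q))) * (-1) *
          ((W c D (m - 1) : ℤ) : ZMod q) ^ 2 := by
      rw [hd, (hz m).2 hα]
      ring
    rw [h2]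
    exact (h1.mul hneg).mul (IsSquare.sq _)
  by_cases hβ : (q : ℤ) ∣ W c D (m - 1)
  · -- (β)
    have h1 := hsq (m - 1) ((hz _).2 hβ)
    simp only [show m - 1 + 1 = m by ring, show m - 1 - 1 = m - 2 by ring] at h1
    have h2 : ((W c D (2 * m - 1) : ℤ) : ZMod q) =
        (-(((W c D m : ℤ) : ZMod q) * ((W c D (m - 2) : ℤ) : ZMod q))) *
          ((W c D m : ℤ) : ZMod q) ^ 2 := by
      rw [hd, (hz _).2 hβ]
      ring
    rw [h2]
    exact h1.mul (IsSquare.sq _)
  -- (γ)
  have hm0 : m ≠ 0 := by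
    rintro rfl
    apply hα
    rw [W_zero]
    exact dvd_zero _
  have hw0 : ((W c D m : ℤ) : ZMod q) ≠ 0 := fun h => hα ((hz m).1 h)
  have hw1 : ((W c D (m - 1) : ℤ) : ZMod q) ≠ 0 := fun h => hβ ((hz _).1 h)
  have hndvd2 : ¬ (q : ℤ) ∣ W c D m ^ 2 := fun h =>
    hα ((Nat.prime_iff_prime_int.1 (Fact.out : q.Prime)).dvd_of_dvd_pow h)
  have hndvd3 : ¬ (q : ℤ) ∣ W c D m ^ 3 := fun h =>
    hα ((Nat.prime_iff_prime_int.1 (Fact.out : q.Prime)).dvd_of_dvd_pow h)
  obtain ⟨h, e⟩ := zsmul_Q₀ (K := ℚ_[q]) hc hD m hm0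
  rw [e] at hm
  have hK : ((W c D (m + 2) : ℤ) : ZMod q) * ((W c D (m - 1) : ℤ) : ZMod q) ^ 2 +
      ((W c D (m - 2) : ℤ) : ZMod q) * ((W c D (m + 1) : ℤ) : ZMod q) ^ 2 +
      ((W c D m : ℤ) : ZMod q) ^ 3 = 2 * (c : ZMod q) * ((W c D (m - 1) : ℤ) : ZMod q) *
        ((W c D m : ℤ) : ZMod q) * ((W c D (m + 1) : ℤ) : ZMod q) := by
    have := congrArg (fun z : ℤ => (z : ZMod q)) (K_rel hc hD m)
    push_cast at this
    exact this
  have hXc : ((X c D m : ℤ) : ZMod q) =
      -(((W c D (m + 1) : ℤ) : ZMod q) * ((W c D (m - 1) : ℤ) : ZMod q)) := by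
    simp only [X]; push_cast; ring
  have hYc : ((Y c D m : ℤ) : ZMod q) =
      ((W c D (m + 2) : ℤ) : ZMod q) * ((W c D (m - 1) : ℤ) : ZMod q) ^ 2 -
      (c : ZMod q) * ((W c D (m - 1) : ℤ) : ZMod q) * ((W c D m : ℤ) : ZMod q) *
        ((W c D (m + 1) : ℤ) : ZMod q) := by
    simp only [Y]; push_cast; ring
  cases hfP : f P with
  | zero =>
    exfalso
    rw [hfP] at hm
    have h1 : (q : ℝ) ^ 1 ≤ ‖(X c D m : ℚ_[q]) / (W c D m : ℚ_[q]) ^ 2‖ := hm
    rw [norm_div, norm_pow, localO_unit hα, one_pow, div_one, pow_one] at h1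
    have := Padic.norm_int_le_one (p := q) (X c D m)
    linarith
  | some x' y' h' =>
    rw [hfP] at hm
    have hx : ‖(X c D m : ℚ_[q]) / (W c D m : ℚ_[q]) ^ 2 - x'‖ < 1 := hm.1.trans_lt hinv
    have hy : ‖(Y c D m : ℚ_[q]) / (W c D m : ℚ_[q]) ^ 3 - y'‖ < 1 := hm.2.trans_lt hinv
    obtain ⟨ξ, rfl, hξ⟩ := localO_near (q := q) (n := X c D m) (d := W c D m ^ 2) hndvd2
      (z := x') (by push_cast; exact hx)
    obtain ⟨η, rfl, hη⟩ := localO_near (q := q) (n := Y c D m) (d := W c D m ^ 3) hndvd3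
      (z := y') (by push_cast; exact hy)
    push_cast at hξ hη
    -- `f P` affine with `x = 0` mod `q`
    have hx0 : PadicInt.toZMod ξ = 0 → ((W c D (m + 1) : ℤ) : ZMod q) = 0 ∧
        PadicInt.toZMod η = -1 := by
      intro h0
      rw [h0, zero_mul, hXc] at hξ
      have h1 : ((W c D (m + 1) : ℤ) : ZMod q) = 0 := by
        rcases mul_eq_zero.1 (neg_eq_zero.1 hξ.symm) with h2 | h2
        · exact h2
        · exact absurd h2 hw1
      refine ⟨h1, ?_⟩
      rw [hYc, h1] at hη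
      rw [h1] at hK
      have h2 : (PadicInt.toZMod η + 1) * ((W c D m : ℤ) : ZMod q) ^ 3 = 0 := by
        linear_combination hη + hK
      rcases mul_eq_zero.1 h2 with h3 | h3
      · linear_combination h3
      · exact absurd h3 (pow_ne_zero 3 hw0)
    cases P with
    | inf ε hε =>
      exfalso
      have h1 : ξ = 0 ∧ η = 0 := by
        simp only [f] at hfP
        split_ifs at hfP with h2
        simp only [Q₀] at hfP
        injection hfP with h5 h6
        exact ⟨Subtype.ext h5.symm, Subtype.ext h6.symm⟩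
      rw [h1.1, h1.2, map_zero] at hx0
      have h3 := (hx0 rfl).2
      have h4 : (1 : ZMod q) = 0 := by linear_combination h3
      exact one_ne_zero h4
    | aff t w hw =>
      simp only [f] at hfP
      injection hfP with h5 h6
      rw [h5] at h6
      have ht : t * ξ = η + 1 := by linear_combination h6
      have hw2 : w ^ 2 = t ^ 2 - ((c ^ 2 - D : ℤ) : ℚ_[q]) - 2 * ξ := by
        linear_combination (-2 : ℚ_[q]) * h5
      -- `w` is integral as soon as `t` is
      have key : ∀ τ : ℤ_[q], (τ : ℚ_[q]) = t → ∃ ω : ℤ_[q], (ω : ℚ_[q]) = w ∧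
          (PadicInt.toZMod ω) ^ 2 = (PadicInt.toZMod τ) ^ 2 - ((c ^ 2 - D : ℤ) : ZMod q) -
            2 * PadicInt.toZMod ξ := by
        rintro τ rfl
        have h1 : w ^ 2 = ((τ ^ 2 - ((c ^ 2 - D : ℤ) : ℤ_[q]) - ((2 : ℤ) : ℤ_[q]) * ξ : ℤ_[q]) :
            ℚ_[q]) := by
          simp only [PadicInt.coe_sub, PadicInt.coe_pow, PadicInt.coe_mul, PadicInt.coe_intCast]
          rw [hw2]
          norm_num
        obtain ⟨ω, rfl⟩ := localO_lift (localO_pow (n := 2) two_ne_zero (by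
          rw [h1]; exact PadicInt.norm_le_one _) : ‖w‖ ≤ 1)
        refine ⟨ω, rfl, ?_⟩
        rw [← PadicInt.coe_pow] at h1
        have h2 := congrArg (PadicInt.toZMod (p := q)) (Subtype.ext h1)
        simp only [map_pow, map_sub, map_mul, map_intCast] at h2
        rw [h2]
        norm_num
      by_cases hξ0 : PadicInt.toZMod ξ = 0
      · obtain ⟨h1, h2⟩ := hx0 hξ0
        have hrel : t + c = ξ * (t ^ 2 - ((c ^ 2 - D : ℤ) : ℚ_[q])) - (ξ : ℚ_[q]) ^ 2 := by
          have h3 : w ^ 4 = (t ^ 2 - ((c ^ 2 - D : ℤ) : ℚ_[q]) - 2 * ξ) ^ 2 := by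
            rw [← hw2]; ring
          have h4 : (4 : ℚ_[q]) ≠ 0 := by norm_num
          apply mul_left_cancel₀ h4
          linear_combination hw - h3
        have htn : ‖t‖ ≤ 1 := by
          by_contra hcon
          push Not at hcon
          have ht0 : t ≠ 0 := by
            rintro rfl
            rw [norm_zero] at hcon
            linarith
          obtain ⟨u, hu⟩ := localO_lift (q := q) (z := 1 / t) (by
            rw [norm_div, norm_one]
            exact (div_le_one (by linarith)).2 hcon.le)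
          have hu1 : PadicInt.toZMod u = 0 := by
            rw [localO_red, PadicInt.norm_def, hu, norm_div, norm_one]
            exact (div_lt_one (by linarith)).2 hcon
          have h3 : ((1 + (c : ℤ_[q]) * u : ℤ_[q]) : ℚ_[q]) =
              ((η + 1 - ((c ^ 2 - D : ℤ) : ℤ_[q]) * ξ * u - ξ ^ 2 * u : ℤ_[q]) : ℚ_[q]) := by
            simp only [PadicInt.coe_sub, PadicInt.coe_pow, PadicInt.coe_mul, PadicInt.coe_intCast,
              PadicInt.coe_add, PadicInt.coe_one]
            rw [← ht, hu]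
            field_simp
            linear_combination hrel
          have h4 := congrArg (PadicInt.toZMod (p := q)) (Subtype.ext h3)
          simp only [map_pow, map_sub, map_mul, map_add, map_one, hu1, h2] at h4
          have h5 : (1 : ZMod q) = 0 := by linear_combination h4
          exact one_ne_zero h5
        obtain ⟨τ, hτ⟩ := localO_lift htn
        obtain ⟨ω, -, hω⟩ := key τ hτ
        have hτc : PadicInt.toZMod τ = -(c : ZMod q) := by
          have h3 : ((τ + (c : ℤ_[q]) : ℤ_[q]) : ℚ_[q]) =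
              ((ξ * (τ ^ 2 - ((c ^ 2 - D : ℤ) : ℤ_[q])) - ξ ^ 2 : ℤ_[q]) : ℚ_[q]) := by
            simp only [PadicInt.coe_sub, PadicInt.coe_pow, PadicInt.coe_mul, PadicInt.coe_intCast,
              PadicInt.coe_add]
            rw [hτ]
            exact hrel
          have h4 := congrArg (PadicInt.toZMod (p := q)) (Subtype.ext h3)
          simp only [map_pow, map_sub, map_mul, map_add, map_intCast, hξ0] at h4
          linear_combination h4
        have hE : ((W c D (m + 2) : ℤ) : ZMod q) * ((W c D (m - 2) : ℤ) : ZMod q) =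
            (D : ZMod q) * ((W c D m : ℤ) : ZMod q) ^ 2 := by
          have h3 := (ell_W c D).rel m 2
          rw [show (2 : ℤ) + 1 = 3 by norm_num, show (2 : ℤ) - 1 = 1 by norm_num, W_two, W_three,
            W_one] at h3
          have h4 := congrArg (fun z : ℤ => (z : ZMod q)) h3
          push_cast at h4
          rw [h1] at h4
          linear_combination h4
        refine ⟨PadicInt.toZMod ω * ((W c D m : ℤ) : ZMod q) * ((W c D (m - 1) : ℤ) : ZMod q), ?_⟩
        rw [hd, h1]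
        rw [h1] at hK
        rw [hτc, hξ0] at hω
        push_cast at hω
        have hω' : (PadicInt.toZMod ω) ^ 2 = (D : ZMod q) := by rw [hω]; ring
        linear_combination (-((W c D (m - 2) : ℤ) : ZMod q)) * hK +
          ((W c D (m - 1) : ℤ) : ZMod q) ^ 2 * hE -
          ((W c D m : ℤ) : ZMod q) ^ 2 * ((W c D (m - 1) : ℤ) : ZMod q) ^ 2 * hω'
      · have hξn : ‖(ξ : ℚ_[q])‖ = 1 := by
          rw [← PadicInt.norm_def]
          refine le_antisymm (PadicInt.norm_le_one _) (not_lt.1 fun hlt => ?_)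
          rw [← localO_red] at hlt
          exact hξ0 hlt
        have htn : ‖t‖ ≤ 1 := by
          have h1 := congrArg norm ht
          rw [norm_mul, hξn, mul_one] at h1
          rw [h1]
          have h2 := PadicInt.norm_le_one (η + 1)
          rw [PadicInt.norm_def] at h2
          simpa using h2
        obtain ⟨τ, hτ⟩ := localO_lift htn
        obtain ⟨ω, -, hω⟩ := key τ hτ
        have hτ2 : PadicInt.toZMod τ * PadicInt.toZMod ξ = PadicInt.toZMod η + 1 := by
          have h3 : ((τ * ξ : ℤ_[q]) : ℚ_[q]) = ((η + 1 : ℤ_[q]) : ℚ_[q]) := by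
            simp only [PadicInt.coe_mul, PadicInt.coe_add, PadicInt.coe_one]
            rw [hτ]
            exact ht
          have h4 := congrArg (PadicInt.toZMod (p := q)) (Subtype.ext h3)
          simpa only [map_mul, map_add, map_one] using h4
        have hv : (((Y c D m : ℤ) : ZMod q) + ((W c D m : ℤ) : ZMod q) ^ 3) ^ 2 *
            ((W c D (m - 1) : ℤ) : ZMod q) ^ 2 -
            ((((c ^ 2 - D : ℤ) : ZMod q)) * ((W c D m : ℤ) : ZMod q) ^ 2 +
              2 * ((X c D m : ℤ) : ZMod q)) * ((X c D m : ℤ) : ZMod q) ^ 2 *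
              ((W c D (m - 1) : ℤ) : ZMod q) ^ 2 =
            ((W c D (2 * m - 1) : ℤ) : ZMod q) * ((X c D m : ℤ) : ZMod q) ^ 2 := by
          have h4 := congrArg (fun z : ℤ => (z : ZMod q)) (v_eq hc hD m)
          push_cast at h4 ⊢
          linear_combination h4
        rw [← hξ, ← hη] at hv
        refine ⟨PadicInt.toZMod ω * ((W c D m : ℤ) : ZMod q) * ((W c D (m - 1) : ℤ) : ZMod q), ?_⟩
        have hne : (PadicInt.toZMod ξ) ^ 2 * ((W c D m : ℤ) : ZMod q) ^ 4 ≠ 0 :=
          mul_ne_zero (pow_ne_zero 2 hξ0) (pow_ne_zero 4 hw0)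
        apply mul_right_cancel₀ hne
        have h7 : (PadicInt.toZMod η * ((W c D m : ℤ) : ZMod q) ^ 3 +
            ((W c D m : ℤ) : ZMod q) ^ 3) = PadicInt.toZMod τ * PadicInt.toZMod ξ *
            ((W c D m : ℤ) : ZMod q) ^ 3 := by rw [hτ2]; ring
        rw [h7] at hv
        linear_combination -hv - (PadicInt.toZMod ξ) ^ 2 * ((W c D m : ℤ) : ZMod q) ^ 6 *
          ((W c D (m - 1) : ℤ) : ZMod q) ^ 2 * hω

end MP308.CE
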