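import Pool.Agent.Work.MP_308fa9_nt.CE.Core
import Pool.Agent.Work.MP_308fa9_nt.CE.Local

/-! # The theorem -/

set_option autoImplicit false

namespace MP308.CE

open Classical Filter

theorem main_aux (c D : ℤ) (h : Par c D)
    (P : ∀ (q : ℕ) [Fact q.Prime], CPt ℚ_[q] (c ^ 2 - D) c)
    (hP : InClosure (c ^ 2 - D) c (fun q _ => f (P q))) :
    ∀ (q : ℕ) [Fact q.Prime], ∃ (ε : ℚ_[q]) (hε : ε ^ 4 = 1), P q = .inf ε hε ∧ (ε = 1 ∨ ε = -1) := by
  choose m hm using fun N : ℕ => hP (Finset.range N) N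
  have hnear : ∀ (q : ℕ) [Fact q.Prime] (k : ℕ), ∀ᶠ N in atTop,
      Near q (c ^ 2 - D) c k (m N • Q₀ ℚ_[q] (c ^ 2 - D) c) (f (P q)) := by
    intro q _ k
    filter_upwards [eventually_ge_atTop (q + 1), eventually_ge_atTop k] with N h1 h2
    exact Near.mono h2 (hm N q (Finset.mem_range.2 h1))
  have hlim : Lim c D (fun N => 2 * m N - 1) := by
    constructor
    · obtain ⟨k, hk⟩ := local_two h.hc h.hD (P 2)
      filter_upwards [hnear 2 k] with N h1 using hk _ h1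
    · intro n hn
      have hfin : ∀ q ∈ (W c D n).natAbs.primeFactors, ∀ᶠ N in atTop, ∀ _ : Fact q.Prime,
          Near q (c ^ 2 - D) c 1 (m N • Q₀ ℚ_[q] (c ^ 2 - D) c) (f (P q)) := by
        intro q hq
        haveI : Fact q.Prime := ⟨Nat.prime_of_mem_primeFactors hq⟩
        filter_upwards [hnear q 1] with N h1 _ using h1
      filter_upwards [(eventually_all_finset _).2 hfin] with N h1 q hq hq2 hqn hqt
      haveI : Fact q.Prime := ⟨hq⟩
      have hmem : q ∈ (W c D n).natAbs.primeFactors :=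
        Nat.mem_primeFactors.2 ⟨hq, Int.natCast_dvd.1 hqn, Int.natAbs_ne_zero.2 (W_ne h.hc h.hD n hn)⟩
      exact local_odd h.hc h.hD q hq2 (P q) (m N) (h1 q hmem inferInstance) hqt
  have hone : ∀ M : ℤ, M ≠ 0 → ∀ᶠ N in atTop, M ∣ m N - 1 := by
    intro M hM
    filter_upwards [core h hlim (2 * M) (by simpa using hM)] with N h1
    have : 2 * M ∣ 2 * (m N - 1) := by
      have e : 2 * (m N - 1) = 2 * m N - 1 - 1 := by ring
      rw [e]; exact h1
    exact (mul_dvd_mul_iff_left (by norm_num)).1 this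
  intro q _
  exact eq_inf_of_f (P q) (limit_eq h.hc h.hD q (f (P q)) m (fun k => hnear q k) hone)

/-- **Main theorem.** -/
theorem main (a c : ℤ) (hc : Even c) (ha : (c ^ 2 - a) % 8 = 3)
    (hF : ∀ t : ℝ, 0 < (t ^ 2 - a) ^ 2 - 4 * (t + c))
    (P : ∀ (q : ℕ) [Fact q.Prime], CPt ℚ_[q] a c)
    (hP : InClosure a c (fun q _ => f (P q))) :
    ∀ (q : ℕ) [Fact q.Prime], ∃ (ε : ℚ_[q]) (hε : ε ^ 4 = 1), P q = .inf ε hε ∧ (ε = 1 ∨ ε = -1) := by
  obtain ⟨D, rfl⟩ : ∃ D, a = c ^ 2 - D := ⟨c ^ 2 - a, by ring⟩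
  refine main_aux c D ⟨Int.even_iff.1 hc, ?_, ?_⟩ P hP
  · rwa [sub_sub_cancel] at ha
  · intro t
    have := hF t
    push_cast at this
    exact this

end MP308.CE
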