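import Pool.Agent.Work.MP_308fa9_nt.CE.Curve
import Pool.Agent.Work.MP_308fa9_nt.CE.WReg
import Pool.Agent.Work.MP_308fa9_nt.CE.Coord

/-! # (1.3): the multiples of `Q₀` -/

set_option autoImplicit false

namespace MP308.CE

open Classical WeierstrassCurve.Affine

/-- numerator of `x(nQ₀)` -/
def X (c D n : ℤ) : ℤ := -(W c D (n + 1) * W c D (n - 1))
/-- numerator of `y(nQ₀)` -/
def Y (c D n : ℤ) : ℤ := W c D (n + 2) * W c D (n - 1) ^ 2 - c * W c D (n - 1) * W c D n * W c D (n + 1)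

/-- the image of `W` in a ring -/
theorem doubling_cast {K : Type*} [CommRing K] (c D : ℤ) :
    Pool.Agent.Work.MP_308fa9_nt.CE.Doubling (fun n => ((W c D n : ℤ) : K)) where
  odd n := by
    change ((W c D (-n) : ℤ) : K) = -((W c D n : ℤ) : K)
    rw [W_neg]; push_cast; ring
  zero := by simp [W_zero]
  one := by simp [W_one]
  two := by simp [W_two]
  even_rec m := by
    rw [(doubling_W c D).even_rec m]
    push_cast
    ring
  odd_rec m := by
    rw [(doubling_W c D).odd_rec m]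
    push_cast
    ring

/-- (1.3) HINT: induction `n → n+1` for `n ≥ 1` (`n = 1 → 2`: tangent), slope
`y_n/x_n = c - W_{n+2}W_{n-1}/(W_n W_{n+1})`, `K_rel`, `M_rel`; then `n < 0` by `-(x,y) = (x,-y-1)`. -/
theorem zsmul_Q₀ {K : Type*} [Field K] [CharZero K] {c D : ℤ} (hc : c % 2 = 0) (hD : D % 8 = 3)
    (n : ℤ) (hn : n ≠ 0) :
    ∃ h, n • Q₀ K (c ^ 2 - D) c
      = .some ((X c D n : K) / (W c D n : K) ^ 2) ((Y c D n : K) / (W c D n : K) ^ 3) h := by
  have h3 : (fun n => ((W c D n : ℤ) : K)) 3 = -((c : K) ^ 2 - ((c ^ 2 - D : ℤ) : K)) := by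
    simp only [W_three]; push_cast; ring
  have h4 : (fun n => ((W c D n : ℤ) : K)) 4
      = -(1 + 2 * (c : K) * ((c : K) ^ 2 - ((c ^ 2 - D : ℤ) : K))) := by
    simp only [W_four]; push_cast; ring
  have hne : ∀ n : ℤ, n ≠ 0 → (fun n => ((W c D n : ℤ) : K)) n ≠ 0 := fun n hn => by
    simp only
    exact_mod_cast W_ne hc hD n hn
  obtain ⟨h, e⟩ := Pool.Agent.Work.MP_308fa9_nt.CE.smul_coord (doubling_cast (K := K) c D)
    (a := ((c ^ 2 - D : ℤ) : K)) (c := (c : K)) h3 h4 hne n hn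
  have hX : Pool.Agent.Work.MP_308fa9_nt.CE.Xn (fun n => ((W c D n : ℤ) : K)) n
      = ((X c D n : ℤ) : K) := by
    simp only [Pool.Agent.Work.MP_308fa9_nt.CE.Xn, X]; push_cast; ring
  have hY : Pool.Agent.Work.MP_308fa9_nt.CE.Yn (fun n => ((W c D n : ℤ) : K)) (c : K) n
      = ((Y c D n : ℤ) : K) := by
    simp only [Pool.Agent.Work.MP_308fa9_nt.CE.Yn, Y]; push_cast; ring
  simp only [hX, hY] at h e
  exact ⟨h, e⟩

/-- the curve equation for `nQ₀`, as an identity of integers -/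
theorem XY_eq {c D : ℤ} (hc : c % 2 = 0) (hD : D % 8 = 3) (n : ℤ) :
    Y c D n ^ 2 + Y c D n * W c D n ^ 3
      = X c D n ^ 3 + (c ^ 2 - D) * X c D n ^ 2 * W c D n ^ 2 + c * X c D n * W c D n ^ 4 := by
  have hM := M_rel hc hD n
  simp only [X, Y]
  linear_combination W c D (n - 1) ^ 2 * hM

/-- `v(mQ₀) = t² - a - 2x = W_{2m-1}/(W_m W_{m-1})²`, `t = (y+1)/x`, in integral form:
`t(mQ₀) = (Y_m + W_m³)/(X_m W_m)` -/
theorem v_eq {c D : ℤ} (hc : c % 2 = 0) (hD : D % 8 = 3) (m : ℤ) :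
    ((Y c D m + W c D m ^ 3) ^ 2 - ((c ^ 2 - D) * W c D m ^ 2 + 2 * X c D m) * X c D m ^ 2)
        * W c D (m - 1) ^ 2 = W c D (2 * m - 1) * X c D m ^ 2 := by
  have hK := K_rel hc hD m
  have hM := M_rel hc hD (m - 1)
  have hd := W_dbl_add_one c D (m - 1)
  rw [show 2 * (m - 1) + 1 = 2 * m - 1 by ring, show m - 1 + 2 = m + 1 by ring,
    show m - 1 - 1 = m - 2 by ring, show m - 1 + 1 = m by ring] at hd
  rw [show m - 1 + 2 = m + 1 by ring, show m - 1 + 1 = m by ring,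
    show m - 1 - 1 = m - 2 by ring] at hM
  rw [hd]
  have hYW : Y c D m + W c D m ^ 3
      = W c D (m + 1) * (c * W c D (m - 1) * W c D m - W c D (m + 1) * W c D (m - 2)) := by
    simp only [Y]
    linear_combination hK
  rw [hYW]
  simp only [X]
  linear_combination W c D (m + 1) ^ 2 * W c D (m - 1) ^ 2 * hM

end MP308.CE
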