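import Pool.Agent.Work.MP_308fa9_nt.CE.QR

/-! # Section 2: Jacobi symbols `J V s n = (V_s / odd|V_n|)` for an `EDSZ` sequence -/

set_option autoImplicit false

namespace MP308.CE

variable {V : ℤ → ℤ}

/-- `q ∣ V n` and `s`, `n` coprime imply `q ∤ V s` -/
theorem jac_not_dvd (h : EDSZ V) {s n : ℤ} (hsn : IsCoprime s n) {q : ℕ} (hq : q.Prime)
    (hqn : (q : ℤ) ∣ V n) : ¬ (q : ℤ) ∣ V s := by
  intro hqs
  have h1 : IsUnit (q : ℤ) := (h.cop s n hsn).isUnit_of_dvd' hqs hqn
  exact (Nat.prime_iff_prime_int.1 hq).not_isUnit h1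

theorem J_sq (h : EDSZ V) {s n : ℤ} (hn : n ≠ 0) (hsn : IsCoprime s n) :
    J V s n = 1 ∨ J V s n = -1 :=
  jac_sq (h.ne n hn) fun _ hq _ hqn => jac_not_dvd h hsn hq hqn

theorem J_mul_self (h : EDSZ V) {s n : ℤ} (hn : n ≠ 0) (hsn : IsCoprime s n) :
    J V s n * J V s n = 1 := by
  rcases J_sq h hn hsn with h1 | h1 <;> rw [h1] <;> norm_num

theorem J_neg_right (h : EDSZ V) (s n : ℤ) : J V s (-n) = J V s n := by
  rw [J, J, h.ell.neg, op_neg]

theorem J_neg_left (h : EDSZ V) {s n : ℤ} (_hn : n ≠ 0) :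
    J V (-s) n = jacobiSym (-1) (op (V n)) * J V s n := by
  rw [J, J, h.ell.neg, ← jacobiSym.mul_left, neg_one_mul]

theorem J_one (h : EDSZ V) {n : ℤ} : J V 1 n = 1 := by
  rw [J, h.ell.one, jacobiSym.one_left]

/-- two parameter form of the shift lemma, for `s ≡ s' mod 2` -/
theorem J_shift2_aux (h : EDSZ V) {s s' n : ℤ} (hn : n ≠ 0) (hs : IsCoprime s n)
    (hs' : IsCoprime s' n) (hp : s % 2 = s' % 2) :
    J V (s + n) n * J V s n = J V (s' + n) n * J V s' n := by
  have e1 : IsCoprime (s + n) n := by simpa using hs.add_mul_left_left 1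
  have e2 : IsCoprime (s' + n) n := by simpa using hs'.add_mul_left_left 1
  have key : J V (s + n) n * J V s n * (J V (s' + n) n * J V s' n) = 1 := by
    simp only [J]
    rw [← jacobiSym.mul_left, ← jacobiSym.mul_left, ← jacobiSym.mul_left]
    refine jac_eq_one_of_isSquare (h.ne n hn) fun q hq hq2 hqn => ⟨?_, ?_⟩
    · have hpr := Nat.prime_iff_prime_int.1 hq
      intro hd
      rcases hpr.dvd_or_dvd hd with hd | hd
      · rcases hpr.dvd_or_dvd hd with hd | hd
        · exact jac_not_dvd h e1 hq hqn hd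
        · exact jac_not_dvd h hs hq hqn hd
      · rcases hpr.dvd_or_dvd hd with hd | hd
        · exact jac_not_dvd h e2 hq hqn hd
        · exact jac_not_dvd h hs' hq hqn hd
    · exact h.shift q hq hq2 n s s' hqn hp (jac_not_dvd h hs hq hqn) (jac_not_dvd h hs' hq hqn)
  rcases J_sq h hn hs with a1 | a1 <;> rcases J_sq h hn hs' with a2 | a2 <;>
    rcases J_sq h hn e1 with a3 | a3 <;> rcases J_sq h hn e2 with a4 | a4 <;>
    rw [a1, a2, a3, a4] at key ⊢ <;> revert key <;> decide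

/-- two parameter form of the shift lemma -/
theorem J_shift2 (h : EDSZ V) {s s' n : ℤ} (hn : n ≠ 0) (hs : IsCoprime s n) (hs' : IsCoprime s' n) :
    J V (s + n) n * J V s n = J V (s' + n) n * J V s' n := by
  by_cases hp : s % 2 = s' % 2
  · exact J_shift2_aux h hn hs hs' hp
  have hno : n % 2 = 1 := by
    by_contra hne
    have h2 : (2 : ℤ) ∣ n := by omega
    have o1 : ∀ u : ℤ, IsCoprime u n → u % 2 = 1 := by
      intro u hu
      by_contra hu2
      have h3 : (2 : ℤ) ∣ u := by omega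
      have := hu.isUnit_of_dvd' h3 h2
      rw [Int.isUnit_iff] at this
      omega
    exact hp (by rw [o1 s hs, o1 s' hs'])
  have e1 : IsCoprime (-s' - n) n := by
    have := (hs'.neg_left).add_mul_left_left (-1)
    simpa [sub_eq_add_neg] using this
  rw [J_shift2_aux h hn hs e1 (by omega)]
  have e2 : -s' - n + n = -s' := by ring
  have e3 : -s' - n = -(s' + n) := by ring
  rw [e2, e3, J_neg_left h hn, J_neg_left h hn]
  have e4 : jacobiSym (-1) (op (V n)) * jacobiSym (-1) (op (V n)) = 1 := by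
    rw [← jacobiSym.mul_left]
    norm_num
  linear_combination (J V s' n * J V (s' + n) n) * e4

/-- (J2) -/
theorem J_shift (h : EDSZ V) {s n : ℤ} (hn : n ≠ 0) (hs : IsCoprime s n) :
    J V (s + n) n = J V (n + 1) n * J V s n := by
  have h1 := J_shift2 h hn hs (isCoprime_one_left (x := n))
  rw [J_one h, mul_one, add_comm 1 n] at h1
  rw [← h1, mul_assoc, J_mul_self h hn hs, mul_one]

theorem jac_coprime_add (n : ℤ) : IsCoprime (n + 1) n := by
  have := (isCoprime_one_left (x := n)).add_mul_left_left 1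
  simpa [add_comm] using this

theorem J_c_sq (h : EDSZ V) {n : ℤ} (hn : n ≠ 0) : J V (n + 1) n * J V (n + 1) n = 1 :=
  J_mul_self h hn (jac_coprime_add n)

theorem J_shift_neg (h : EDSZ V) {s n : ℤ} (hn : n ≠ 0) (hs : IsCoprime s n) :
    J V (s - n) n = J V (n + 1) n * J V s n := by
  have e : IsCoprime (s - n) n := by
    have := hs.add_mul_left_left (-1)
    simpa [sub_eq_add_neg] using this
  have h1 := J_shift h hn e
  rw [sub_add_cancel] at h1
  rw [h1, ← mul_assoc, J_c_sq h hn, one_mul]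

theorem J_shift_mul_nat (h : EDSZ V) {s n : ℤ} (hn : n ≠ 0) (hs : IsCoprime s n) (k : ℕ) :
    J V (s + k * n) n = J V (n + 1) n ^ k * J V s n := by
  induction k with
  | zero => simp
  | succ k ih =>
    have e : s + ((k + 1 : ℕ) : ℤ) * n = s + k * n + n := by push_cast; ring
    have e2 : IsCoprime (s + k * n) n := by
      have := hs.add_mul_left_left (k : ℤ)
      rwa [mul_comm n] at this
    rw [e, J_shift h hn e2, ih, pow_succ]
    ring

theorem J_shift_mul_neg (h : EDSZ V) {s n : ℤ} (hn : n ≠ 0) (hs : IsCoprime s n) (k : ℕ) :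
    J V (s - k * n) n = J V (n + 1) n ^ k * J V s n := by
  induction k with
  | zero => simp
  | succ k ih =>
    have e : s - ((k + 1 : ℕ) : ℤ) * n = s - k * n - n := by push_cast; ring
    have e2 : IsCoprime (s - k * n) n := by
      have := hs.add_mul_left_left (-(k : ℤ))
      have e3 : s + n * -(k : ℤ) = s - k * n := by ring
      rwa [e3] at this
    rw [e, J_shift_neg h hn e2, ih, pow_succ]
    ring

theorem J_shift_mul (h : EDSZ V) {s n : ℤ} (hn : n ≠ 0) (hs : IsCoprime s n) (k : ℤ) :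
    J V (s + k * n) n = J V (n + 1) n ^ k.natAbs * J V s n := by
  rcases Int.natAbs_eq k with hk | hk
  · have := J_shift_mul_nat h hn hs k.natAbs
    rwa [← hk] at this
  · have := J_shift_mul_neg h hn hs k.natAbs
    have e : s - (k.natAbs : ℤ) * n = s + k * n := by
      have : k = -(k.natAbs : ℤ) := hk
      generalize (k.natAbs : ℤ) = j at this ⊢
      rw [this]; ring
    rwa [e] at this

/-- `J V · n` has period `2n` -/
theorem J_period (h : EDSZ V) {s s' n : ℤ} (hn : n ≠ 0) (hs : IsCoprime s n) (hss : 2 * n ∣ s' - s) :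
    J V s' n = J V s n := by
  obtain ⟨k, hk⟩ := hss
  have e : s' = s + (2 * k) * n := by linear_combination hk
  rw [e, J_shift_mul h hn hs, Int.natAbs_mul, pow_mul]
  have e2 : J V (n + 1) n ^ (Int.natAbs 2) = 1 := by
    have : Int.natAbs 2 = 2 := rfl
    rw [this, pow_two, J_c_sq h hn]
  rw [e2, one_pow, one_mul]

/-- `c_{-n} = c_n` -/
theorem J_c_neg (h : EDSZ V) {n : ℤ} (hn : n ≠ 0) : J V (-n + 1) (-n) = J V (n + 1) n := by
  have h1 := J_shift_neg h hn (isCoprime_one_left (x := n))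
  rw [J_one h, mul_one] at h1
  have e : -n + 1 = 1 - n := by ring
  rw [J_neg_right h, e, h1]

/-- (J3) -/
theorem J_flip (h : EDSZ V) {s n : ℤ} (hn : n ≠ 0) (hs : IsCoprime s n) (h4 : s % 4 = 1) :
    J V s n * J V n s = hil (V s) (V n) :=
  flip (h.pos s h4) (h.ne n hn) (h.cop s n hs)

/-- (J4) -/
theorem J_four (h : EDSZ V) {n : ℤ} (hn : n ≠ 0) (h4 : n % 4 = 0) :
    J V (n + 1) n * J V (n + 2) (n + 1) * jacobiSym (-1) (op (V (n + 1)))
      = hil (V (n + 1)) (V n) := by
  have hn1 : n + 1 ≠ 0 := by omega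
  have h1 := J_flip h hn (jac_coprime_add n) (by omega)
  have h2 := J_shift h hn1 (isCoprime_one_left.neg_left : IsCoprime (-1) (n + 1))
  have e1 : (-1 : ℤ) + (n + 1) = n := by ring
  have e2 : n + 1 + 1 = n + 2 := by ring
  rw [e1, e2, J_neg_left h hn1, J_one h, mul_one] at h2
  rw [← h1, h2]
  ring

/-- the product `V_{m+1} V_{1-m}` is positive for `m` even -/
theorem jac_pos (h : EDSZ V) {m : ℤ} (hm2 : m % 2 = 0) : 0 < V (m + 1) * V (1 - m) := by
  by_cases h4 : m % 4 = 0
  · exact mul_pos (h.pos _ (by omega)) (h.pos _ (by omega))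
  · have h1 : 0 < V (-(m + 1)) := h.pos _ (by omega)
    have h2 : 0 < V (-(1 - m)) := h.pos _ (by omega)
    rw [h.ell.neg] at h1 h2
    nlinarith

/-- (J5) -/
theorem J_five' (h : EDSZ V) {m : ℤ} (hm : m ≠ 0) (hm2 : m % 2 = 0) :
    J V (2 * m + 1) (2 * m) = hil (V (m + 1) * V (1 - m)) (V (2 * m)) *
      hil (V (m + 1) * V (1 - m)) (V 2) * jacobiSym (-1) (op (V (m + 1))) := by
  obtain ⟨r, rfl⟩ : ∃ r, m = 2 * r := ⟨m / 2, by omega⟩
  set m : ℤ := 2 * r with hmr
  have hn : 2 * m ≠ 0 := by omega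
  -- coprimality
  have c1 : IsCoprime (m + 1) (2 * m) := by
    refine IsCoprime.mul_right ⟨1, -r, by rw [hmr]; ring⟩ (jac_coprime_add m)
  have c2 : IsCoprime (1 - m) (2 * m) := by
    refine IsCoprime.mul_right ⟨1, r, by rw [hmr]; ring⟩ ⟨1, 1, by ring⟩
  have d1 : IsCoprime (m + 1) 2 := ⟨1, -r, by rw [hmr]; ring⟩
  have d2 : IsCoprime (1 - m) 2 := ⟨1, r, by rw [hmr]; ring⟩
  have hm1 : m + 1 ≠ 0 := by omega
  have hm1' : 1 - m ≠ 0 := by omega
  have v1 := h.ne _ hm1
  have v2 := h.ne _ hm1'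
  have hV2 : V 2 ≠ 0 := h.ne 2 two_ne_zero
  have hVn : V (2 * m) ≠ 0 := h.ne _ hn
  have hA := jac_pos h hm2
  set A : ℤ := V (m + 1) * V (1 - m) with hAdef
  -- step 1
  have s1 := J_shift2 h hn (isCoprime_one_left (x := 2 * m)) c2
  have e1 : 1 - m + 2 * m = m + 1 := by ring
  rw [J_one h, mul_one, e1, add_comm 1 (2 * m)] at s1
  have s2 : J V (m + 1) (2 * m) * J V (1 - m) (2 * m) = jacobiSym A (op (V (2 * m))) := by
    simp only [J]
    rw [← jacobiSym.mul_left]
  have f1 : jacobiSym A (op (V (2 * m))) * jacobiSym (V (2 * m)) (op A) = hil A (V (2 * m)) :=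
    flip hA hVn ((h.cop _ _ c1).mul_left (h.cop _ _ c2))
  have f2 : jacobiSym A (op (V 2)) * jacobiSym (V 2) (op A) = hil A (V 2) :=
    flip hA hV2 ((h.cop _ _ d1).mul_left (h.cop _ _ d2))
  -- splitting the denominators
  have hop : op A = op (V (m + 1)) * op (V (1 - m)) := op_mul v1 v2
  have n1 : NeZero (op (V (m + 1))) := ⟨(op_pos v1).ne'⟩
  have n2 : NeZero (op (V (1 - m))) := ⟨(op_pos v2).ne'⟩
  have g1 : jacobiSym (V (2 * m)) (op A) = J V (2 * m) (m + 1) * J V (2 * m) (1 - m) := by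
    rw [hop, jacobiSym.mul_right]; rfl
  have g2 : jacobiSym (V 2) (op A) = J V 2 (m + 1) * J V 2 (1 - m) := by
    rw [hop, jacobiSym.mul_right]; rfl
  -- `J(2m, m+1)` and `J(2m, 1-m)`
  have t1 : J V (2 * m) (m + 1) = jacobiSym (-1) (op (V (m + 1))) * J V 2 (m + 1) := by
    rw [← J_neg_left h hm1]
    exact J_period h hm1 d1.symm.neg_left ⟨1, by ring⟩
  have t2 : J V (2 * m) (1 - m) = J V 2 (1 - m) :=
    J_period h hm1' d2.symm ⟨-1, by ring⟩
  -- `(A / op V_2) = 1`
  have t3 : jacobiSym A (op (V 2)) = 1 := by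
    have u1 : J V (m + 1) 2 = J V 3 2 ^ r.natAbs := by
      have := J_shift_mul h two_ne_zero (isCoprime_one_left (x := 2)) r
      rw [J_one h, mul_one] at this
      have e : (2 : ℤ) + 1 = 3 := by norm_num
      rw [e] at this
      rw [← this]
      congr 1
      rw [hmr]; ring
    have u2 : J V (1 - m) 2 = J V 3 2 ^ r.natAbs := by
      have := J_shift_mul h two_ne_zero (isCoprime_one_left (x := 2)) (-r)
      rw [J_one h, mul_one, Int.natAbs_neg] at this
      have e : (2 : ℤ) + 1 = 3 := by norm_num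
      rw [e] at this
      rw [← this]
      congr 1
      rw [hmr]; ring
    have u3 : jacobiSym A (op (V 2)) = J V (m + 1) 2 * J V (1 - m) 2 := by
      simp only [J]
      rw [← jacobiSym.mul_left]
    rw [u3, u1, u2, ← mul_pow]
    have u4 : J V 3 2 * J V 3 2 = 1 := by
      have := J_c_sq h (n := 2) two_ne_zero
      norm_num at this
      exact this
    rw [u4, one_pow]
  -- squares
  have q1 : jacobiSym (V (2 * m)) (op A) * jacobiSym (V (2 * m)) (op A) = 1 := by
    rw [g1]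
    have a1 := J_mul_self h hm1 (c1.symm)
    have a2 := J_mul_self h hm1' (c2.symm)
    linear_combination (J V (2 * m) (1 - m) * J V (2 * m) (1 - m)) * a1 + a2
  rw [t3, one_mul, g2] at f2
  rw [s1, s2, ← f1, ← f2]
  rw [mul_assoc, mul_assoc]
  have q2 : jacobiSym (V (2 * m)) (op A) *
      (J V 2 (m + 1) * J V 2 (1 - m) * jacobiSym (-1) (op (V (m + 1)))) = 1 := by
    have : J V 2 (m + 1) * J V 2 (1 - m) * jacobiSym (-1) (op (V (m + 1)))
        = jacobiSym (V (2 * m)) (op A) := by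
      rw [g1, t1, t2]; ring
    rw [this, q1]
  rw [q2, mul_one]

/-- (J5), for `V 2 = 1` -/
theorem J_five (h : EDSZ V) (h2 : V 2 = 1) {m : ℤ} (hm : m ≠ 0) (hm2 : m % 2 = 0) :
    J V (2 * m + 1) (2 * m) = hil (V (m + 1) * V (1 - m)) (V (2 * m)) * jacobiSym (-1) (op (V (m + 1))) := by
  rw [J_five' h hm hm2, h2]
  have : hil (V (m + 1) * V (1 - m)) 1 = 1 := by
    unfold hil
    norm_num
  rw [this, mul_one]

end MP308.CE
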