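import Pool.Agent.Work.MP_308fa9_nt.CE.Res8
import Pool.Agent.Work.MP_308fa9_nt.CE.KM

/-! # (1.3): the K- and M-relations for `W c D` -/

set_option autoImplicit false

namespace MP308.CE

variable {c D : ℤ}

theorem K_rel (hc : c % 2 = 0) (hD : D % 8 = 3) (n : ℤ) :
    W c D (n + 2) * W c D (n - 1) ^ 2 + W c D (n - 2) * W c D (n + 1) ^ 2 + W c D n ^ 3
      = 2 * c * W c D (n - 1) * W c D n * W c D (n + 1) :=
  (doubling_W c D).K_rel c (W_three c D) (W_four c D) (fun n hn => W_ne hc hD n hn) n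

theorem M_rel (hc : c % 2 = 0) (hD : D % 8 = 3) (n : ℤ) :
    W c D (n + 2) * W c D n ^ 3 + W c D (n + 1) ^ 3 * W c D (n - 1)
      + (c * W c D n * W c D (n + 1) - W c D (n + 2) * W c D (n - 1)) ^ 2
      = (c ^ 2 - D) * W c D n ^ 2 * W c D (n + 1) ^ 2 :=
  (doubling_W c D).M_rel (a := c ^ 2 - D) (c := c) (by rw [W_three]; ring)
    (by rw [W_four]; ring) (fun n hn => W_ne hc hD n hn) n

theorem T_eq (hc : c % 2 = 0) (hD : D % 8 = 3) (n : ℤ) :
    T c D n = 2 * W c D (n + 2) * W c D (n - 1) ^ 2 + W c D n ^ 3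
      - 2 * c * W c D (n - 1) * W c D n * W c D (n + 1) := by
  have := K_rel hc hD n
  simp only [T]; linear_combination -this

end MP308.CE
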