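import Pool.Agent.Work.MP_308fa9_nt.CE.Geo

/-! # Section 3: `Near.mono`, the limit, and the fibre of `f` over `Q₀` -/

set_option autoImplicit false

namespace MP308.CE

open Classical WeierstrassCurve.Affine

theorem Near.mono {q : ℕ} [Fact q.Prime] {a c : ℤ} {k k' : ℕ} (hk : k ≤ k')
    {R S : (E ℚ_[q] a c).Point} (h : Near q a c k' R S) : Near q a c k R S := by
  have hq : (1 : ℝ) ≤ q := by exact_mod_cast (Fact.out : q.Prime).one_lt.le
  have hq0 : (0 : ℝ) < q := by linarith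
  have hpow : (q : ℝ) ^ (-(k' : ℤ)) ≤ (q : ℝ) ^ (-(k : ℤ)) :=
    zpow_le_zpow_right₀ hq (by omega)
  cases R with
  | zero =>
    cases S with
    | zero => trivial
    | some x' y' h' => exact h
  | some x y h1 =>
    cases S with
    | zero =>
      have h2 : (q : ℝ) ^ k' ≤ ‖x‖ := h
      exact (pow_le_pow_right₀ hq hk).trans h2
    | some x' y' h' =>
      have h2 : ‖x - x'‖ ≤ (q : ℝ) ^ (-(k' : ℤ)) ∧ ‖y - y'‖ ≤ (q : ℝ) ^ (-(k' : ℤ)) := h
      exact ⟨h2.1.trans hpow, h2.2.trans hpow⟩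

/-- the coordinates of `m Q₀` are small when `q^k ∣ W_{m-1}` -/
theorem localB_small {c D : ℤ} (hc : c % 2 = 0) (hD : D % 8 = 3) (q : ℕ) [Fact q.Prime]
    (k : ℕ) (hk : 1 ≤ k) (m : ℤ) (hm : m ≠ 0) (hdvd : (q : ℤ) ^ k ∣ W c D (m - 1)) :
    ∃ (x y : ℚ_[q]) (h : (E ℚ_[q] (c ^ 2 - D) c).Nonsingular x y),
      m • Q₀ ℚ_[q] (c ^ 2 - D) c = .some x y h ∧ ‖x‖ ≤ (q : ℝ) ^ (-(k : ℤ)) ∧
        ‖y‖ ≤ (q : ℝ) ^ (-(k : ℤ)) := by
  obtain ⟨h, e⟩ := zsmul_Q₀ (K := ℚ_[q]) hc hD m hm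
  have hq1 : (q : ℤ) ∣ W c D (m - 1) := (dvd_pow_self _ (by omega)).trans hdvd
  have hcop : IsCoprime (W c D m) (W c D (m - 1)) :=
    cop_W hc hD m (m - 1) ⟨1, -1, by ring⟩
  have hnd : ¬ (q : ℤ) ∣ W c D m := by
    intro h1
    have h2 := hcop.isUnit_of_dvd' h1 hq1
    have h3 := Int.isUnit_iff.mp h2
    have h4 := (Fact.out : q.Prime).two_le
    omega
  have hW : ‖((W c D m : ℤ) : ℚ_[q])‖ = 1 := by
    rcases (Padic.norm_int_le_one (p := q) (W c D m)).lt_or_eq with h1 | h1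
    · exact absurd ((Padic.norm_intCast_lt_one_iff).mp h1) hnd
    · exact h1
  refine ⟨_, _, h, e, ?_, ?_⟩
  · rw [norm_div, norm_pow, hW, one_pow, div_one]
    rw [Padic.norm_int_le_pow_iff_dvd]
    simp only [X]
    exact (hdvd.mul_left _).neg_right
  · rw [norm_div, norm_pow, hW, one_pow, div_one]
    rw [Padic.norm_int_le_pow_iff_dvd]
    simp only [Y]
    apply dvd_sub
    · exact (hdvd.trans (dvd_pow_self _ two_ne_zero)).mul_left _
    · rw [show c * W c D (m - 1) * W c D m * W c D (m + 1)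
        = W c D (m - 1) * (c * W c D m * W c D (m + 1)) by ring]
      exact hdvd.mul_right _

theorem localB_zpow_tendsto (q : ℕ) [Fact q.Prime] {r : ℝ}
    (h : ∀ k : ℕ, 1 ≤ k → r ≤ (q : ℝ) ^ (-(k : ℤ))) : r ≤ 0 := by
  by_contra hr
  push Not at hr
  have hq : (1 : ℝ) < q := by exact_mod_cast (Fact.out : q.Prime).one_lt
  obtain ⟨n, hn⟩ := exists_pow_lt_of_lt_one hr (inv_lt_one_of_one_lt₀ hq)
  have h1 := h (n + 1) (by omega)
  have h2 : (q : ℝ) ^ (-((n + 1 : ℕ) : ℤ)) ≤ ((q : ℝ)⁻¹) ^ n := by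
    rw [zpow_neg, zpow_natCast, ← inv_pow]
    exact pow_le_pow_of_le_one (by positivity) (inv_lt_one_of_one_lt₀ hq).le (by omega)
  linarith

/-- the limit of `m_N Q₀` with `m_N ≡ 1` modulo everything is `Q₀` -/
theorem limit_eq {c D : ℤ} (hc : c % 2 = 0) (hD : D % 8 = 3) (q : ℕ) [Fact q.Prime]
    (R : (E ℚ_[q] (c ^ 2 - D) c).Point) (m : ℕ → ℤ)
    (hm : ∀ k, ∀ᶠ N in Filter.atTop, Near q (c ^ 2 - D) c k (m N • Q₀ ℚ_[q] (c ^ 2 - D) c) R)
    (h1 : ∀ M : ℤ, M ≠ 0 → ∀ᶠ N in Filter.atTop, M ∣ m N - 1) : R = Q₀ ℚ_[q] (c ^ 2 - D) c := by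
  have key : ∀ k : ℕ, 1 ≤ k → ∃ (x y : ℚ_[q]) (h : (E ℚ_[q] (c ^ 2 - D) c).Nonsingular x y),
      Near q (c ^ 2 - D) c k (.some x y h) R ∧ ‖x‖ ≤ (q : ℝ) ^ (-(k : ℤ)) ∧
        ‖y‖ ≤ (q : ℝ) ^ (-(k : ℤ)) := by
    intro k hk
    obtain ⟨n, hn, hdvd⟩ := exists_pow_dvd hc hD q (Fact.out : q.Prime) k
    obtain ⟨N, hN1, hN2, hN3⟩ := ((hm k).and ((h1 n hn).and (h1 2 two_ne_zero))).exists
    have hm0 : m N ≠ 0 := by omega
    have hd : (q : ℤ) ^ k ∣ W c D (m N - 1) := hdvd.trans (dvd_W hc hD _ _ hN2)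
    obtain ⟨x, y, h, e, hx, hy⟩ := localB_small hc hD q k hk (m N) hm0 hd
    rw [e] at hN1
    exact ⟨x, y, h, hN1, hx, hy⟩
  have hq : (1 : ℝ) < q := by exact_mod_cast (Fact.out : q.Prime).one_lt
  cases R with
  | zero =>
    exfalso
    obtain ⟨x, y, h, h2, h3, -⟩ := key 1 le_rfl
    have h4 : (q : ℝ) ^ 1 ≤ ‖x‖ := h2
    have h5 : (q : ℝ) ^ (-((1 : ℕ) : ℤ)) < 1 := by
      rw [zpow_neg]
      simpa using inv_lt_one_of_one_lt₀ hq
    rw [pow_one] at h4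
    linarith
  | some x' y' h' =>
    have hx' : x' = 0 := by
      rw [← norm_le_zero_iff]
      apply localB_zpow_tendsto q
      intro k hk
      obtain ⟨x, y, h, h2, h3, h4⟩ := key k hk
      have h5 : ‖x - x'‖ ≤ (q : ℝ) ^ (-(k : ℤ)) := h2.1
      have h6 : x' = x - (x - x') := by ring
      rw [h6]
      have h7 := Padic.nonarchimedean x (-(x - x'))
      rw [norm_neg, ← sub_eq_add_neg] at h7
      exact h7.trans (max_le h3 h5)
    have hy' : y' = 0 := by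
      rw [← norm_le_zero_iff]
      apply localB_zpow_tendsto q
      intro k hk
      obtain ⟨x, y, h, h2, h3, h4⟩ := key k hk
      have h5 : ‖y - y'‖ ≤ (q : ℝ) ^ (-(k : ℤ)) := h2.2
      have h6 : y' = y - (y - y') := by ring
      rw [h6]
      have h7 := Padic.nonarchimedean y (-(y - y'))
      rw [norm_neg, ← sub_eq_add_neg] at h7
      exact h7.trans (max_le h4 h5)
    subst hx' hy'
    rfl

/-- `f P = Q₀` only for the points `[1 : ±1 : 0]` -/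
theorem eq_inf_of_f {K : Type*} [Field K] [CharZero K] {a c : ℤ} (P : CPt K a c)
    (h : f P = Q₀ K a c) : ∃ (ε : K) (hε : ε ^ 4 = 1), P = .inf ε hε ∧ (ε = 1 ∨ ε = -1) := by
  cases P with
  | aff t w hw =>
    exfalso
    simp only [f, Q₀] at h
    injection h with h1 h2
    rw [h1] at h2
    norm_num at h2
  | inf ε hε =>
    refine ⟨ε, hε, rfl, ?_⟩
    by_cases h2 : ε ^ 2 = 1
    · exact sq_eq_one_iff.mp h2
    · exfalso
      simp only [f, h2, if_false, Q₀] at h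
      exact (Point.some_ne_zero _) h.symm

end MP308.CE
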