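import Pool.Agent.Work.MP_308fa9_nt.CE.QRB

/-! # Quadratic reciprocity in the form used here -/

set_option autoImplicit false

namespace MP308.CE

/-- decomposition `x = 2^e u`, `u` odd -/
private theorem qr_dec {x : ℤ} (hx : x ≠ 0) : ∃ (e : ℕ) (u : ℤ), u % 2 = 1 ∧ x = 2 ^ e * u ∧
    op x = u.natAbs ∧ padicValInt 2 x = e ∧ x / 2 ^ padicValInt 2 x = u := by
  have hx' : x.natAbs ≠ 0 := Int.natAbs_ne_zero.2 hx
  have hp : padicValInt 2 x = x.natAbs.factorization 2 := by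
    rw [padicValInt, Nat.factorization_def _ Nat.prime_two]
  obtain ⟨u, hu⟩ : (2 : ℤ) ^ padicValInt 2 x ∣ x := by
    have := (padicValInt_dvd (p := 2) x)
    exact_mod_cast this
  have hodd : u % 2 = 1 := by
    by_contra hcon
    have h2 : (2 : ℤ) ∣ u := by omega
    obtain ⟨w, hw⟩ := h2
    have h3 : (2 : ℤ) ^ (padicValInt 2 x + 1) ∣ x := ⟨w, by rw [pow_succ]; rw [hw] at hu; linarith⟩
    have h4 := (padicValInt_dvd_iff (p := 2) (padicValInt 2 x + 1) x).1 (by exact_mod_cast h3)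
    rcases h4 with h5 | h5
    · exact hx h5
    · omega
  refine ⟨padicValInt 2 x, u, hodd, hu, ?_, rfl, ?_⟩
  · rw [op, ← hp]
    have h1 : x.natAbs = 2 ^ padicValInt 2 x * u.natAbs := by
      conv_lhs => rw [hu]
      rw [Int.natAbs_mul, Int.natAbs_pow]
      rfl
    rw [h1]
    have h2 : padicValInt 2 x = padicValInt 2 x := rfl
    exact Nat.mul_div_cancel_left _ (by positivity)
  · exact Int.ediv_eq_of_eq_mul_right (by positivity) hu

theorem op_pos {x : ℤ} (hx : x ≠ 0) : 0 < op x := by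
  obtain ⟨e, u, hu, -, h, -⟩ := qr_dec hx
  rw [h]; omega

theorem op_odd {x : ℤ} (hx : x ≠ 0) : Odd (op x) := by
  obtain ⟨e, u, hu, -, h, -⟩ := qr_dec hx
  rw [h, Nat.odd_iff]; omega

theorem op_neg (x : ℤ) : op (-x) = op x := by simp [op]

theorem op_mul {x y : ℤ} (hx : x ≠ 0) (hy : y ≠ 0) : op (x * y) = op x * op y := by
  have h1 : x.natAbs ≠ 0 := Int.natAbs_ne_zero.2 hx
  have h2 : y.natAbs ≠ 0 := Int.natAbs_ne_zero.2 hy
  simp only [op]
  rw [Int.natAbs_mul, Nat.factorization_mul h1 h2, Finsupp.add_apply, pow_add]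
  exact Nat.mul_div_mul_comm (Nat.ordProj_dvd _ _) (Nat.ordProj_dvd _ _)

theorem op_of_odd {x : ℤ} (hx : x % 2 = 1) : op x = x.natAbs := by
  have h : x.natAbs.factorization 2 = 0 := Nat.factorization_eq_zero_of_not_dvd (by omega)
  rw [op, h, pow_zero, Nat.div_one]

theorem op_two_mul (x : ℤ) : op (2 * x) = op x := by
  rcases eq_or_ne x 0 with rfl | hx
  · simp
  · rw [op_mul two_ne_zero hx]
    have : op 2 = 1 := by
      have h1 := Nat.Prime.factorization_self Nat.prime_two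
      simp only [op, show (2 : ℤ).natAbs = 2 from rfl, h1, pow_one]
    rw [this, one_mul]

theorem op_dvd (x : ℤ) : (op x : ℤ) ∣ x := by
  rw [Int.natCast_dvd]
  exact Nat.ordCompl_dvd _ _

/-- odd primes dividing `op x` are those dividing `x` -/
theorem prime_dvd_op {x : ℤ} (hx : x ≠ 0) {q : ℕ} (hq : q.Prime) :
    q ∣ op x ↔ (q ≠ 2 ∧ (q : ℤ) ∣ x) := by
  constructor
  · intro h
    refine ⟨?_, (Int.natCast_dvd_natCast.2 h).trans (op_dvd x)⟩
    rintro rfl
    have := (op_odd hx)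
    rw [Nat.odd_iff] at this
    omega
  · rintro ⟨h2, h⟩
    obtain ⟨e, u, hu, hxe, h3, -⟩ := qr_dec hx
    rw [h3]
    rw [hxe] at h
    rcases (Nat.prime_iff_prime_int.1 hq).dvd_or_dvd h with h4 | h4
    · exfalso
      have h5 := (Nat.prime_iff_prime_int.1 hq).dvd_of_dvd_pow h4
      have h6 : q ∣ 2 := by exact_mod_cast h5
      exact h2 ((Nat.prime_dvd_prime_iff_eq hq Nat.prime_two).1 h6)
    · exact Int.natCast_dvd.1 h4

/-- Jacobi symbol 1 if all the Legendre symbols are 1 -/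
private theorem qr_prod {a : ℤ} (m : ℕ) (hm : m ≠ 0)
    (h : ∀ q : ℕ, q.Prime → q ∣ m → jacobiSym a q = 1) : jacobiSym a m = 1 := by
  induction m using Nat.recOnMul with
  | zero => exact absurd rfl hm
  | one => exact jacobiSym.one_right a
  | prime p hp => exact h p hp dvd_rfl
  | mul x y ihx ihy =>
    have hx : x ≠ 0 := by rintro rfl; simp at hm
    have hy : y ≠ 0 := by rintro rfl; simp at hm
    rw [jacobiSym.mul_right' a hx hy, ihx hx (fun q hq hqx => h q hq (hqx.mul_right _)),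
      ihy hy (fun q hq hqy => h q hq (hqy.mul_left _)), one_mul]

/-- if `a` is a square mod every prime factor of `x` (odd) and coprime to it, the Jacobi symbol is 1 -/
theorem jac_eq_one_of_isSquare {a x : ℤ} (hx : x ≠ 0)
    (h : ∀ q : ℕ, q.Prime → q ≠ 2 → (q : ℤ) ∣ x → ¬ (q : ℤ) ∣ a ∧ IsSquare ((a : ℤ) : ZMod q)) :
    jacobiSym a (op x) = 1 := by
  refine qr_prod _ (op_pos hx).ne' fun q hq hqx => ?_
  obtain ⟨hq2, hqx'⟩ := (prime_dvd_op hx hq).1 hqx
  obtain ⟨h1, h2⟩ := h q hq hq2 hqx'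
  have : Fact q.Prime := ⟨hq⟩
  rw [← jacobiSym.legendreSym.to_jacobiSym]
  exact (legendreSym.eq_one_iff q (by rwa [Ne, ZMod.intCast_zmod_eq_zero_iff_dvd])).2 h2

theorem jac_sq {a x : ℤ} (hx : x ≠ 0) (h : ∀ q : ℕ, q.Prime → q ≠ 2 → (q : ℤ) ∣ x → ¬ (q : ℤ) ∣ a) :
    jacobiSym a (op x) = 1 ∨ jacobiSym a (op x) = -1 := by
  apply jacobiSym.eq_one_or_neg_one
  by_contra hcon
  obtain ⟨q, hq, hqd⟩ := Nat.exists_prime_and_dvd hcon
  have h1 : (q : ℤ) ∣ a := (Int.natCast_dvd_natCast.2 hqd).trans (Int.gcd_dvd_left ..)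
  have h2 : q ∣ op x := by
    have : (q : ℤ) ∣ (op x : ℤ) := (Int.natCast_dvd_natCast.2 hqd).trans (Int.gcd_dvd_right ..)
    exact_mod_cast this
  obtain ⟨h3, h4⟩ := (prime_dvd_op hx hq).1 h2
  exact h q hq h3 h4 h1

private theorem qr_two {w : ℤ} (hw : w % 2 = 1) :
    jacobiSym 2 w.natAbs = ZMod.χ₈ ((w : ℤ) : ZMod 8) := by
  rw [jacobiSym.at_two (Nat.odd_iff.2 (by omega)), ZMod.χ₈_nat_eq_if_mod_eight,
    ZMod.χ₈_int_eq_if_mod_eight]
  have h1 : ¬ w.natAbs % 2 = 0 := by omega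
  have h2 : ¬ w % 2 = 0 := by omega
  rw [if_neg h1, if_neg h2]
  by_cases h : w % 8 = 1 ∨ w % 8 = 7
  · have h3 : w.natAbs % 8 = 1 ∨ w.natAbs % 8 = 7 := by omega
    rw [if_pos h, if_pos h3]
  · have h3 : ¬ (w.natAbs % 8 = 1 ∨ w.natAbs % 8 = 7) := by omega
    rw [if_neg h, if_neg h3]

private theorem qr_odd {u w : ℤ} (hu : u % 2 = 1) (hu0 : 0 < u) (hw : w % 2 = 1) :
    (h : IsCoprime u w) → jacobiSym u w.natAbs * jacobiSym w u.natAbs
      = if u % 4 = 3 ∧ w % 4 = 3 then -1 else 1 := by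
  intro hcop
  have hun : ((u.natAbs : ℕ) : ℤ) = u := Int.natAbs_of_nonneg hu0.le
  have hgcd : u.gcd w.natAbs = 1 := by
    have := Int.isCoprime_iff_gcd_eq_one.1 hcop
    rw [Int.gcd] at this ⊢
    rwa [Int.natAbs_natCast]
  have hsq : jacobiSym u w.natAbs * jacobiSym u w.natAbs = 1 := by
    have := jacobiSym.sq_one hgcd
    rwa [sq] at this
  have hrec := jacobiSym.quadratic_reciprocity_if (a := w.natAbs) (b := u.natAbs)
    (by omega) (by omega)
  rw [hun] at hrec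
  rcases lt_trichotomy w 0 with hw0 | hw0 | hw0
  · have hwn : w = -((w.natAbs : ℕ) : ℤ) := by omega
    have h1 : jacobiSym w u.natAbs = (if u % 4 = 3 then -1 else 1) *
        jacobiSym ((w.natAbs : ℕ) : ℤ) u.natAbs := by
      conv_lhs => rw [hwn]
      rw [jacobiSym.neg _ (Nat.odd_iff.2 (by omega)), ZMod.χ₄_nat_eq_if_mod_four,
        if_neg (by omega)]
      congr 1
      by_cases h : u % 4 = 3
      · rw [if_pos h, if_neg (by omega)]
      · rw [if_neg h, if_pos (by omega)]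
    rw [h1, ← hrec]
    by_cases h3 : u % 4 = 3
    · by_cases h4 : w % 4 = 3
      · rw [if_pos h3, if_neg (by omega), if_pos ⟨h3, h4⟩]
        linear_combination -hsq
      · rw [if_pos h3, if_pos (by omega), if_neg (by omega)]
        linear_combination hsq
    · rw [if_neg h3, if_neg (by omega), if_neg (by omega)]
      linear_combination hsq
  · omega
  · have hwn : ((w.natAbs : ℕ) : ℤ) = w := Int.natAbs_of_nonneg hw0.le
    rw [hwn] at hrec
    rw [← hrec]
    by_cases h3 : u % 4 = 3 ∧ w % 4 = 3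
    · rw [if_pos (by omega), if_pos h3]
      linear_combination -hsq
    · rw [if_neg (by omega), if_neg h3]
      linear_combination hsq

/-- product formula: `(A/odd|B|)(B/odd|A|) = (A,B)_2` for `A > 0`, `B ≠ 0`, coprime -/
theorem flip {A B : ℤ} (hA : 0 < A) (hB : B ≠ 0) (h : IsCoprime A B) :
    jacobiSym A (op B) * jacobiSym B (op A) = hil A B := by
  obtain ⟨e, u, hu, hAe, h1, h2, h3⟩ := qr_dec hA.ne'
  obtain ⟨g, w, hw, hBe, h4, h5, h6⟩ := qr_dec hB
  have hu0 : 0 < u := by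
    rw [hAe] at hA
    exact (pos_iff_pos_of_mul_pos hA).1 (by positivity)
  have hcop : IsCoprime u w := by
    rw [hAe, hBe] at h
    exact (h.of_mul_left_right).of_mul_right_right
  unfold hil
  rw [h3, h6, h2, h5, h1, h4]
  have e1 : jacobiSym A w.natAbs = ZMod.χ₈ ((w : ℤ) : ZMod 8) ^ e * jacobiSym u w.natAbs := by
    rw [hAe, jacobiSym.mul_left, jacobiSym.pow_left, qr_two hw]
  have e2 : jacobiSym B u.natAbs = ZMod.χ₈ ((u : ℤ) : ZMod 8) ^ g * jacobiSym w u.natAbs := by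
    rw [hBe, jacobiSym.mul_left, jacobiSym.pow_left, qr_two hu]
  rw [e1, e2, ← qr_odd hu hu0 hw hcop]
  ring

end MP308.CE
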