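import Pool.Agent.Work.MP_308fa9_nt.CE.QRDefs

/-! # Evaluation of `hil` and of the Jacobi symbols of `-1` and `2` -/

set_option autoImplicit false

namespace MP308.CE

private theorem qrb_odd {A : ℤ} (hA : A % 2 = 1) :
    padicValInt 2 A = 0 ∧ A / 2 ^ padicValInt 2 A = A := by
  have h : padicValInt 2 A = 0 := padicValInt.eq_zero_of_not_dvd (by
    push_cast
    omega)
  refine ⟨h, ?_⟩
  rw [h, pow_zero, Int.ediv_one]

private theorem qrb_two {A : ℤ} (hA : A % 2 = 1) :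
    padicValInt 2 (2 * A) = 1 ∧ 2 * A / 2 ^ padicValInt 2 (2 * A) = A := by
  have h : padicValInt 2 (2 * A) = 1 := by
    have h1 := padicValInt.mul (p := 2) (a := 2) (b := A) (by norm_num) (by omega)
    have h2 : padicValInt 2 2 = 1 := by
      have := padicValInt.self (p := 2) (by norm_num)
      exact_mod_cast this
    rw [h1, (qrb_odd hA).1, h2]
  refine ⟨h, ?_⟩
  rw [h, pow_one]
  exact Int.mul_ediv_cancel_left A two_ne_zero

private theorem qrb_chi {A : ℤ} (hA : A % 2 = 1) :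
    ZMod.χ₈ ((A : ℤ) : ZMod 8) = if A % 8 = 3 ∨ A % 8 = 5 then -1 else 1 := by
  rw [ZMod.χ₈_int_eq_if_mod_eight, if_neg (by omega)]
  by_cases h : A % 8 = 3 ∨ A % 8 = 5
  · rw [if_neg (by omega), if_pos h]
  · rw [if_pos (by omega), if_neg h]

theorem hil_of_one {A B : ℤ} (hA : A % 8 = 1) (_hB : B ≠ 0) : hil A B = 1 := by
  have h1 := qrb_odd (A := A) (by omega)
  unfold hil
  rw [h1.2, h1.1, qrb_chi (by omega), if_neg (by omega), one_pow, pow_zero,
    if_neg (by omega)]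
  norm_num

theorem hil_of_five {A B : ℤ} (hA : A % 8 = 5) (_hB : B ≠ 0) : hil A B = (-1) ^ padicValInt 2 B := by
  have h1 := qrb_odd (A := A) (by omega)
  unfold hil
  rw [h1.2, h1.1, qrb_chi (by omega), if_pos (by omega), pow_zero, if_neg (by omega), mul_one,
    mul_one]

theorem hil_odd_odd {A B : ℤ} (hA : A % 2 = 1) (hB : B % 2 = 1) :
    hil A B = if A % 4 = 3 ∧ B % 4 = 3 then -1 else 1 := by
  unfold hil
  rw [(qrb_odd hA).2, (qrb_odd hB).2, (qrb_odd hA).1, (qrb_odd hB).1, pow_zero, pow_zero, one_mul,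
    one_mul]

theorem hil_odd_two {A B : ℤ} (hA : A % 2 = 1) (hB : B % 2 = 1) :
    hil A (2 * B) = (if A % 8 = 3 ∨ A % 8 = 5 then -1 else 1) *
      (if A % 4 = 3 ∧ B % 4 = 3 then -1 else 1) := by
  unfold hil
  rw [(qrb_odd hA).2, (qrb_two hB).2, (qrb_odd hA).1, (qrb_two hB).1, pow_zero, pow_one, mul_one,
    qrb_chi hA]

theorem hil_two_odd {A B : ℤ} (hA : A % 2 = 1) (hB : B % 2 = 1) :
    hil (2 * A) B = (if B % 8 = 3 ∨ B % 8 = 5 then -1 else 1) *
      (if A % 4 = 3 ∧ B % 4 = 3 then -1 else 1) := by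
  unfold hil
  rw [(qrb_two hA).2, (qrb_odd hB).2, (qrb_two hA).1, (qrb_odd hB).1, pow_zero, pow_one, one_mul,
    qrb_chi hB]

private theorem qrb_op {x : ℤ} (hx : x % 2 = 1) : op x = x.natAbs := by
  have h : x.natAbs.factorization 2 = 0 := Nat.factorization_eq_zero_of_not_dvd (by omega)
  rw [op, h, pow_zero, Nat.div_one]

private theorem qrb_op_two {x : ℤ} (hx : x % 2 = 1) : op (2 * x) = x.natAbs := by
  have h0 : x.natAbs ≠ 0 := by omega
  have h : (2 * x).natAbs.factorization 2 = 1 := by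
    rw [Int.natAbs_mul, Nat.factorization_mul (by norm_num) h0, Finsupp.add_apply,
      Nat.factorization_eq_zero_of_not_dvd (n := x.natAbs) (by omega)]
    have : (Int.natAbs 2) = 2 := rfl
    rw [this, Nat.Prime.factorization_self Nat.prime_two]
  rw [op, h, pow_one, Int.natAbs_mul]
  exact Nat.mul_div_cancel_left _ two_pos

theorem jac_neg_one {x : ℤ} (hx : x % 2 = 1) (hp : 0 < x) :
    jacobiSym (-1) (op x) = if x % 4 = 3 then -1 else 1 := by
  rw [qrb_op hx, jacobiSym.at_neg_one (Nat.odd_iff.2 (by omega)), ZMod.χ₄_nat_eq_if_mod_four,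
    if_neg (by omega)]
  by_cases h : x % 4 = 3
  · rw [if_pos h, if_neg (by omega)]
  · rw [if_neg h, if_pos (by omega)]

theorem jac_neg_one_two {x : ℤ} (hx : x % 2 = 1) (hp : 0 < x) :
    jacobiSym (-1) (op (2 * x)) = if x % 4 = 3 then -1 else 1 := by
  rw [qrb_op_two hx, ← qrb_op hx]
  exact jac_neg_one hx hp

theorem jac_two {x : ℤ} (hx : x % 2 = 1) (hp : 0 < x) :
    jacobiSym 2 (op x) = if x % 8 = 3 ∨ x % 8 = 5 then -1 else 1 := by
  rw [qrb_op hx, jacobiSym.at_two (Nat.odd_iff.2 (by omega)), ZMod.χ₈_nat_eq_if_mod_eight,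
    if_neg (by omega)]
  by_cases h : x % 8 = 3 ∨ x % 8 = 5
  · rw [if_pos h, if_neg (by omega)]
  · rw [if_neg h, if_pos (by omega)]

end MP308.CE
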