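import Pool.Agent.Work.MP_308fa9_nt.CE.Defs

/-! # The Hilbert symbol at 2 -/

set_option autoImplicit false

namespace MP308.CE

/-- Hilbert symbol at 2 of `(A, B)` for coprime nonzero integers -/
noncomputable def hil (A B : ℤ) : ℤ :=
  ZMod.χ₈ ((A / 2 ^ padicValInt 2 A : ℤ) : ZMod 8) ^ padicValInt 2 B *
  ZMod.χ₈ ((B / 2 ^ padicValInt 2 B : ℤ) : ZMod 8) ^ padicValInt 2 A *
  (if (A / 2 ^ padicValInt 2 A) % 4 = 3 ∧ (B / 2 ^ padicValInt 2 B) % 4 = 3 then -1 else 1)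

end MP308.CE
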