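import Pool.Agent.Work.MP_308fa9_nt.CE.QRB

/-! # Bimultiplicativity of the Hilbert symbol `hil` -/

set_option autoImplicit false

namespace MP308.CE

theorem hil_comm (A B : ℤ) : hil A B = hil B A := by
  unfold hil
  simp only [and_comm (a := (A / 2 ^ padicValInt 2 A) % 4 = 3)]
  ring

private theorem qrm_odd {x : ℤ} (hx : x ≠ 0) : (x / 2 ^ padicValInt 2 x) % 2 = 1 := by
  have h1 : (2 : ℤ) ^ padicValInt 2 x ∣ x := by
    have := padicValInt_dvd (p := 2) x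
    exact_mod_cast this
  have h2 : ¬ (2 : ℤ) ∣ x / 2 ^ padicValInt 2 x := by
    intro h3
    have h4 : (2 : ℤ) ^ (padicValInt 2 x + 1) ∣ x := by
      obtain ⟨k, hk⟩ := h3
      refine ⟨k, ?_⟩
      calc x = x / 2 ^ padicValInt 2 x * 2 ^ padicValInt 2 x := (Int.ediv_mul_cancel h1).symm
        _ = _ := by rw [hk]; ring
    have h5 := (padicValInt_dvd_iff (p := 2) (padicValInt 2 x + 1) x).1 (by exact_mod_cast h4)
    rcases h5 with h5 | h5
    · exact hx h5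
    · omega
  omega

private theorem qrm_mul {x y : ℤ} (hx : x ≠ 0) (hy : y ≠ 0) :
    x * y / 2 ^ padicValInt 2 (x * y) =
      (x / 2 ^ padicValInt 2 x) * (y / 2 ^ padicValInt 2 y) := by
  have h1 : (2 : ℤ) ^ padicValInt 2 x ∣ x := by
    have := padicValInt_dvd (p := 2) x
    exact_mod_cast this
  have h2 : (2 : ℤ) ^ padicValInt 2 y ∣ y := by
    have := padicValInt_dvd (p := 2) y
    exact_mod_cast this
  rw [padicValInt.mul hx hy, pow_add]
  obtain ⟨u, hu⟩ := h1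
  obtain ⟨v, hv⟩ := h2
  have p1 : (2 : ℤ) ^ padicValInt 2 x ≠ 0 := by positivity
  have p2 : (2 : ℤ) ^ padicValInt 2 y ≠ 0 := by positivity
  generalize (2 : ℤ) ^ padicValInt 2 x = P at hu p1 ⊢
  generalize (2 : ℤ) ^ padicValInt 2 y = Q at hv p2 ⊢
  rw [hu, hv, Int.mul_ediv_cancel_left _ p1, Int.mul_ediv_cancel_left _ p2,
    show P * u * (Q * v) = P * Q * (u * v) by ring, Int.mul_ediv_cancel_left _ (mul_ne_zero p1 p2)]

theorem hil_mul_right (A : ℤ) {x y : ℤ} (hx : x ≠ 0) (hy : y ≠ 0) :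
    hil A (x * y) = hil A x * hil A y := by
  unfold hil
  rw [qrm_mul hx hy, padicValInt.mul hx hy]
  have hx1 := qrm_odd hx
  have hy1 := qrm_odd hy
  set x' := x / 2 ^ padicValInt 2 x
  set y' := y / 2 ^ padicValInt 2 y
  set A' := A / 2 ^ padicValInt 2 A
  have h1 : (if A' % 4 = 3 ∧ (x' * y') % 4 = 3 then (-1 : ℤ) else 1) =
      (if A' % 4 = 3 ∧ x' % 4 = 3 then -1 else 1) * (if A' % 4 = 3 ∧ y' % 4 = 3 then -1 else 1) := by
    by_cases hA : A' % 4 = 3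
    · have h2 : (x' * y') % 4 = (x' % 4) * (y' % 4) % 4 := Int.mul_emod _ _ _
      have hx2 : x' % 4 = 1 ∨ x' % 4 = 3 := by omega
      have hy2 : y' % 4 = 1 ∨ y' % 4 = 3 := by omega
      rcases hx2 with hx2 | hx2 <;> rcases hy2 with hy2 | hy2 <;>
        rw [hx2, hy2] at h2 <;> norm_num [hA, h2, hx2, hy2]
    · simp [hA]
  rw [h1, Int.cast_mul, map_mul, mul_pow, pow_add]
  ring

theorem hil_mul_left {x y : ℤ} (hx : x ≠ 0) (hy : y ≠ 0) (B : ℤ) :
    hil (x * y) B = hil x B * hil y B := by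
  rw [hil_comm, hil_mul_right B hx hy, hil_comm B x, hil_comm B y]

/-- `hil A B` is `1` or `-1` -/
theorem hil_eq_or {A B : ℤ} (hA : A ≠ 0) (hB : B ≠ 0) : hil A B = 1 ∨ hil A B = -1 := by
  unfold hil
  have h : ∀ z : ℤ, z % 2 = 1 → ∀ n : ℕ, ZMod.χ₈ ((z : ℤ) : ZMod 8) ^ n = 1 ∨
      ZMod.χ₈ ((z : ℤ) : ZMod 8) ^ n = -1 := by
    intro z hz n
    have h1 : ZMod.χ₈ ((z : ℤ) : ZMod 8) = 1 ∨ ZMod.χ₈ ((z : ℤ) : ZMod 8) = -1 := by
      rw [ZMod.χ₈_int_eq_if_mod_eight, if_neg (by omega)]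
      by_cases h : z % 8 = 1 ∨ z % 8 = 7
      · rw [if_pos h]
        exact Or.inl rfl
      · rw [if_neg h]
        exact Or.inr rfl
    rcases h1 with h1 | h1
    · rw [h1, one_pow]
      exact Or.inl rfl
    · rw [h1]
      exact neg_one_pow_eq_or _ n
  rcases h _ (qrm_odd hA) (padicValInt 2 B) with h1 | h1 <;>
    rcases h _ (qrm_odd hB) (padicValInt 2 A) with h2 | h2 <;>
      rw [h1, h2] <;> split_ifs <;> norm_num

theorem hil_mul_self {A B : ℤ} (hA : A ≠ 0) (hB : B ≠ 0) : hil A B * hil A B = 1 := by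
  rcases hil_eq_or hA hB with h | h <;> rw [h] <;> norm_num

/-- `hil A (B x²) = hil A B` -/
theorem hil_mul_sq (A : ℤ) (hA : A ≠ 0) {B x : ℤ} (hB : B ≠ 0) (hx : x ≠ 0) :
    hil A (B * (x * x)) = hil A B := by
  rw [hil_mul_right A hB (mul_ne_zero hx hx), hil_mul_right A hx hx, hil_mul_self hA hx, mul_one]

private theorem qrm_self {B : ℤ} (hB : B % 2 = 1) :
    padicValInt 2 B = 0 ∧ B / 2 ^ padicValInt 2 B = B := by
  have h : padicValInt 2 B = 0 := padicValInt.eq_zero_of_not_dvd (by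
    push_cast
    omega)
  exact ⟨h, by rw [h, pow_zero, Int.ediv_one]⟩

/-- an odd entry only matters mod 8 -/
theorem hil_congr_right (A : ℤ) {B B' : ℤ} (hB : B % 2 = 1) (h : B % 8 = B' % 8) :
    hil A B = hil A B' := by
  have hB' : B' % 2 = 1 := by omega
  unfold hil
  rw [(qrm_self hB).2, (qrm_self hB').2, (qrm_self hB).1, (qrm_self hB').1]
  have h1 : ((B : ℤ) : ZMod 8) = ((B' : ℤ) : ZMod 8) := (ZMod.intCast_eq_intCast_iff B B' 8).2 h
  rw [h1]
  have h2 : B % 4 = B' % 4 := by omega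
  rw [h2]

theorem hil_congr_left {A A' : ℤ} (B : ℤ) (hA : A % 2 = 1) (h : A % 8 = A' % 8) :
    hil A B = hil A' B := by
  rw [hil_comm, hil_congr_right B hA h, hil_comm]

end MP308.CE
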