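import Pool.Agent.Work.MP_308fa9_nt.CE.EllW

/-! # (1.2): 2-adic information on `W` -/

set_option autoImplicit false

namespace MP308.CE

/-- `W_n mod 8` for `4 ∣ c`, `n = 0, ..., 19` -/
def tab0 : List ℤ := [0,1,1,5,7,2,5,3,7,3,4,5,1,5,3,6,1,3,7,7]
/-- `W_n mod 8` for `c ≡ 2 mod 4`, `n = 0, ..., 19` -/
def tab2 : List ℤ := [0,1,1,5,3,6,1,3,7,3,4,5,1,5,7,2,5,3,7,7]

def tab (c n : ℤ) : ℤ := (if c % 4 = 0 then tab0 else tab2).getD (n % 20).toNat 0

/-- the table, with a Boolean instead of `c` -/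
def Res8_tb (b : Bool) (n : ℤ) : ℤ := (if b then tab0 else tab2).getD (n % 20).toNat 0

lemma Res8_tab_eq (c n : ℤ) : tab c n = Res8_tb (decide (c % 4 = 0)) n := by
  by_cases h : c % 4 = 0 <;> simp [tab, Res8_tb, h]

lemma Res8_congr (b : Bool) {n n' : ℤ} (h : n % 20 = n' % 20) : Res8_tb b n = Res8_tb b n' := by
  unfold Res8_tb
  rw [h]

lemma Res8_red (n : ℤ) : ∃ r : Fin 20, n % 20 = ((r : ℕ) : ℤ) := by
  have h1 := Int.emod_nonneg n (by norm_num : (20 : ℤ) ≠ 0)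
  have h2 := Int.emod_lt_of_pos n (by norm_num : (0 : ℤ) < 20)
  exact ⟨⟨(n % 20).toNat, by omega⟩, by simp only; omega⟩

/-- `T_n mod 8` from the table -/
def Res8_T (b : Bool) (m : ℤ) : ℤ :=
  Res8_tb b (m + 2) * Res8_tb b (m - 1) ^ 2 - Res8_tb b (m - 2) * Res8_tb b (m + 1) ^ 2

lemma Res8_even (b : Bool) (m : ℤ) :
    Res8_tb b (2 * m) ≡ Res8_tb b m * Res8_T b m [ZMOD 8] := by
  obtain ⟨r, hr⟩ := Res8_red m
  unfold Res8_T
  rw [Res8_congr b (n := 2 * m) (n' := 2 * ((r : ℕ) : ℤ)) (by omega),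
    Res8_congr b (n := m) (n' := ((r : ℕ) : ℤ)) (by omega),
    Res8_congr b (n := m + 2) (n' := ((r : ℕ) : ℤ) + 2) (by omega),
    Res8_congr b (n := m - 1) (n' := ((r : ℕ) : ℤ) - 1) (by omega),
    Res8_congr b (n := m - 2) (n' := ((r : ℕ) : ℤ) - 2) (by omega),
    Res8_congr b (n := m + 1) (n' := ((r : ℕ) : ℤ) + 1) (by omega)]
  clear hr
  revert r b
  decide

lemma Res8_odd (b : Bool) (m : ℤ) :
    Res8_tb b (2 * m + 1) ≡ Res8_tb b (m + 2) * Res8_tb b m ^ 3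
      - Res8_tb b (m - 1) * Res8_tb b (m + 1) ^ 3 [ZMOD 8] := by
  obtain ⟨r, hr⟩ := Res8_red m
  rw [Res8_congr b (n := 2 * m + 1) (n' := 2 * ((r : ℕ) : ℤ) + 1) (by omega),
    Res8_congr b (n := m) (n' := ((r : ℕ) : ℤ)) (by omega),
    Res8_congr b (n := m + 2) (n' := ((r : ℕ) : ℤ) + 2) (by omega),
    Res8_congr b (n := m - 1) (n' := ((r : ℕ) : ℤ) - 1) (by omega),
    Res8_congr b (n := m + 1) (n' := ((r : ℕ) : ℤ) + 1) (by omega)]
  clear hr
  revert r b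
  decide

lemma Res8_neg (b : Bool) (m : ℤ) : Res8_tb b (-m) ≡ -Res8_tb b m [ZMOD 8] := by
  obtain ⟨r, hr⟩ := Res8_red m
  rw [Res8_congr b (n := -m) (n' := -((r : ℕ) : ℤ)) (by omega),
    Res8_congr b (n := m) (n' := ((r : ℕ) : ℤ)) (by omega)]
  clear hr
  revert r b
  decide

lemma Res8_small (b : Bool) (m : ℤ) : Res8_tb b m % 8 = Res8_tb b m := by
  obtain ⟨r, hr⟩ := Res8_red m
  rw [Res8_congr b (n := m) (n' := ((r : ℕ) : ℤ)) (by omega)]
  clear hr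
  revert r b
  decide

/-- parity of the entries of the table -/
lemma Res8_two (b : Bool) (m : ℤ) : Res8_tb b m % 2 = 0 ↔ m % 5 = 0 := by
  obtain ⟨r, hr⟩ := Res8_red m
  rw [Res8_congr b (n := m) (n' := ((r : ℕ) : ℤ)) (by omega)]
  have h : m % 5 = 0 ↔ ((r : ℕ) : ℤ) % 5 = 0 := by omega
  rw [h]
  clear h hr
  revert r b
  decide

lemma Res8_oddfive (b : Bool) (m : ℤ) (h2 : m % 2 = 1) (h5 : m % 5 = 0) :
    Res8_tb b m % 4 = 2 := by
  obtain ⟨r, hr⟩ := Res8_red m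
  rw [Res8_congr b (n := m) (n' := ((r : ℕ) : ℤ)) (by omega)]
  have h2' : ((r : ℕ) : ℤ) % 2 = 1 := by omega
  have h5' : ((r : ℕ) : ℤ) % 5 = 0 := by omega
  clear h2 h5 hr
  revert r b
  decide

lemma Res8_Tfive (b : Bool) (m : ℤ) (h5 : m % 5 = 0) : Res8_T b m % 4 = 2 := by
  obtain ⟨r, hr⟩ := Res8_red m
  unfold Res8_T
  rw [Res8_congr b (n := m + 2) (n' := ((r : ℕ) : ℤ) + 2) (by omega),
    Res8_congr b (n := m - 1) (n' := ((r : ℕ) : ℤ) - 1) (by omega),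
    Res8_congr b (n := m - 2) (n' := ((r : ℕ) : ℤ) - 2) (by omega),
    Res8_congr b (n := m + 1) (n' := ((r : ℕ) : ℤ) + 1) (by omega)]
  have h5' : ((r : ℕ) : ℤ) % 5 = 0 := by omega
  clear h5 hr
  revert r b
  decide

variable {c D : ℤ}

lemma Res8_base (hc : c % 2 = 0) (hD : D % 8 = 3) (n : ℕ) (hn : n < 5) :
    W c D n ≡ tab c n [ZMOD 8] := by
  interval_cases n
  · simp only [Nat.cast_zero, W_zero]
    have : tab c 0 = 0 := by
      unfold tab; split_ifs <;> rfl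
    rw [this]
  · simp only [Nat.cast_one, W_one]
    have : tab c 1 = 1 := by
      unfold tab; split_ifs <;> rfl
    rw [this]
  · simp only [Nat.cast_ofNat, W_two]
    have : tab c 2 = 1 := by
      unfold tab; split_ifs <;> rfl
    rw [this]
  · simp only [Nat.cast_ofNat, W_three]
    have : tab c 3 = 5 := by
      unfold tab; split_ifs <;> rfl
    rw [this]
    unfold Int.ModEq
    omega
  · simp only [Nat.cast_ofNat, W_four]
    obtain ⟨d, hd⟩ : ∃ d, D = 8 * d + 3 := ⟨D / 8, by omega⟩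
    by_cases h : c % 4 = 0
    · have : tab c 4 = 7 := by
        unfold tab; rw [if_pos h]; rfl
      rw [this]
      obtain ⟨e, he⟩ : ∃ e, c = 4 * e := ⟨c / 4, by omega⟩
      subst hd he
      apply Int.modEq_of_dvd
      exact ⟨1 + e * (8 * d + 3), by ring⟩
    · have : tab c 4 = 3 := by
        unfold tab; rw [if_neg h]; rfl
      rw [this]
      obtain ⟨e, he⟩ : ∃ e, c = 4 * e + 2 := ⟨c / 4, by omega⟩
      subst hd he
      apply Int.modEq_of_dvd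
      exact ⟨2 + e * (8 * d + 3) + 4 * d, by ring⟩

lemma Res8_nat (hc : c % 2 = 0) (hD : D % 8 = 3) (n : ℕ) :
    W c D n ≡ tab c n [ZMOD 8] := by
  induction n using Nat.strong_induction_on with
  | _ n ih =>
    rcases lt_or_ge n 5 with hn | hn
    · exact Res8_base hc hD n hn
    · obtain ⟨m, hm⟩ : ∃ m, n = 2 * m ∨ n = 2 * m + 1 := ⟨n / 2, by omega⟩
      have hm2 : 2 ≤ m := by omega
      have h0 := ih m (by omega)
      have h1 := ih (m - 1) (by omega)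
      have h2 := ih (m - 2) (by omega)
      have h3 := ih (m + 1) (by omega)
      have e1 : ((m - 1 : ℕ) : ℤ) = (m : ℤ) - 1 := by omega
      have e2 : ((m - 2 : ℕ) : ℤ) = (m : ℤ) - 2 := by omega
      have e3 : ((m + 1 : ℕ) : ℤ) = (m : ℤ) + 1 := by omega
      have e4 : ((m + 2 : ℕ) : ℤ) = (m : ℤ) + 2 := by omega
      rw [e1] at h1
      rw [e2] at h2
      rw [e3] at h3
      rcases hm with hm | hm
      · have h4 := ih (m + 2) (by omega)
        rw [e4] at h4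
        have e : (n : ℤ) = 2 * (m : ℤ) := by omega
        rw [e, W_dbl]
        unfold T
        rw [Res8_tab_eq] at h0 h1 h2 h3 h4 ⊢
        refine Int.ModEq.trans ?_ (Res8_even _ _).symm
        exact Int.ModEq.mul h0 (Int.ModEq.sub (Int.ModEq.mul h4 (h1.pow 2))
          (Int.ModEq.mul h2 (h3.pow 2)))
      · have h4 := ih (m + 2) (by omega)
        rw [e4] at h4
        have e : (n : ℤ) = 2 * (m : ℤ) + 1 := by omega
        rw [e, W_dbl_add_one]
        rw [Res8_tab_eq] at h0 h1 h2 h3 h4 ⊢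
        refine Int.ModEq.trans ?_ (Res8_odd _ _).symm
        exact Int.ModEq.sub (Int.ModEq.mul h4 (h0.pow 3)) (Int.ModEq.mul h1 (h3.pow 3))

lemma Res8_int (hc : c % 2 = 0) (hD : D % 8 = 3) (n : ℤ) :
    W c D n ≡ tab c n [ZMOD 8] := by
  obtain ⟨m, rfl | rfl⟩ := n.eq_nat_or_neg
  · exact Res8_nat hc hD m
  · rw [W_neg]
    have h := Res8_nat hc hD m
    rw [Res8_tab_eq] at h ⊢
    exact (Int.ModEq.neg h).trans (Res8_neg _ _).symm

/-- HINT: strong induction on `|n|` with `W_dbl`, `W_dbl_add_one`, `W_neg`; everything mod 8;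
a finite check over `m % 20`, `c % 4 ∈ {0, 2}`, `D % 8 = 3`. -/
theorem W_mod8 (hc : c % 2 = 0) (hD : D % 8 = 3) (n : ℤ) : W c D n % 8 = tab c n := by
  have h := Res8_int hc hD n
  unfold Int.ModEq at h
  rw [h, Res8_tab_eq, Res8_small]

lemma Res8_T_mod (hc : c % 2 = 0) (hD : D % 8 = 3) (n : ℤ) :
    T c D n ≡ Res8_T (decide (c % 4 = 0)) n [ZMOD 8] := by
  have h1 := Res8_int hc hD (n + 2)
  have h2 := Res8_int hc hD (n - 1)
  have h3 := Res8_int hc hD (n - 2)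
  have h4 := Res8_int hc hD (n + 1)
  rw [Res8_tab_eq] at h1 h2 h3 h4
  exact Int.ModEq.sub (Int.ModEq.mul h1 (h2.pow 2)) (Int.ModEq.mul h3 (h4.pow 2))

theorem two_dvd_W_iff (hc : c % 2 = 0) (hD : D % 8 = 3) (n : ℤ) : (2 : ℤ) ∣ W c D n ↔ (5 : ℤ) ∣ n := by
  have h := W_mod8 hc hD n
  have h2 := Res8_two (decide (c % 4 = 0)) n
  rw [← Res8_tab_eq, ← h] at h2
  rw [Int.dvd_iff_emod_eq_zero, Int.dvd_iff_emod_eq_zero, ← h2]
  omega

lemma Res8_val_two {x : ℤ} (h : x % 4 = 2) : x ≠ 0 ∧ padicValInt 2 x = 1 := by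
  have h0 : x ≠ 0 := by rintro rfl; simp at h
  refine ⟨h0, ?_⟩
  obtain ⟨y, hy⟩ : ∃ y, x = y * (2 : ℕ) := ⟨x / 2, by push_cast; omega⟩
  have hy0 : y ≠ 0 := by rintro rfl; simp at hy; exact h0 hy
  have : Fact (Nat.Prime 2) := ⟨Nat.prime_two⟩
  have hodd : padicValInt 2 y = 0 := by
    apply padicValInt.eq_zero_of_not_dvd
    push_cast at hy ⊢
    omega
  rw [hy, padicValInt_mul_eq_succ _ hy0, hodd]

/-- `v₂(W_{5j}) = 1 + v₂(j)` -/
theorem W_val (hc : c % 2 = 0) (hD : D % 8 = 3) (j : ℤ) (hj : j ≠ 0) :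
    W c D (5 * j) ≠ 0 ∧ padicValInt 2 (W c D (5 * j)) = 1 + padicValInt 2 j := by
  have : Fact (Nat.Prime 2) := ⟨Nat.prime_two⟩
  obtain ⟨N, hN⟩ : ∃ N : ℕ, j.natAbs ≤ N := ⟨_, le_rfl⟩
  induction N generalizing j with
  | zero => exact absurd (Int.natAbs_eq_zero.1 (Nat.le_zero.1 hN)) hj
  | succ N ih =>
    rcases Int.even_or_odd' j with ⟨i, hi | hi⟩
    · have hi0 : i ≠ 0 := by rintro rfl; exact hj (by rw [hi]; ring)
      obtain ⟨h1, h2⟩ := ih i hi0 (by omega)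
      have e : 5 * j = 2 * (5 * i) := by rw [hi]; ring
      have hT : T c D (5 * i) % 4 = 2 := by
        have h3 := Res8_T_mod hc hD (5 * i)
        have h4 := Res8_Tfive (decide (c % 4 = 0)) (5 * i) (by omega)
        unfold Int.ModEq at h3
        omega
      obtain ⟨h5, h6⟩ := Res8_val_two hT
      rw [e, W_dbl]
      refine ⟨mul_ne_zero h1 h5, ?_⟩
      rw [padicValInt.mul h1 h5, h2, h6]
      have e2 : j = i * (2 : ℕ) := by rw [hi]; push_cast; ring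
      rw [e2, padicValInt_mul_eq_succ _ hi0]
      ring
    · have h1 := Res8_oddfive (decide (c % 4 = 0)) (5 * j) (by omega) (by omega)
      rw [← Res8_tab_eq, ← W_mod8 hc hD] at h1
      obtain ⟨h5, h6⟩ := Res8_val_two (x := W c D (5 * j)) (by omega)
      refine ⟨h5, ?_⟩
      rw [h6, padicValInt.eq_zero_of_not_dvd (z := j) (by push_cast; omega)]

theorem W_ne (hc : c % 2 = 0) (hD : D % 8 = 3) (n : ℤ) (hn : n ≠ 0) : W c D n ≠ 0 := by
  by_cases h5 : (5 : ℤ) ∣ n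
  · obtain ⟨j, rfl⟩ := h5
    exact (W_val hc hD j (by rintro rfl; simp at hn)).1
  · intro h
    exact h5 ((two_dvd_W_iff hc hD n).1 (by rw [h]; exact dvd_zero _))

end MP308.CE
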