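import Pool.Agent.Work.MP_308fa9_nt.CE.CVal

/-! # Section 4.1: the prime 5 -/

set_option autoImplicit false

namespace MP308.CE

variable {c D : ℤ} {V : ℤ → ℤ}

private theorem s5_tab (h : Par c D) {n : ℤ} (k : ℕ) (x y : ℤ) (hk : n % 20 = k)
    (hx : tab0.getD k 0 = x) (hy : tab2.getD k 0 = y) :
    W c D n % 8 = if c % 4 = 0 then x else y := by
  rw [W_mod8 h.hc h.hD, tab, hk, Int.toNat_natCast]
  split_ifs
  · exact hx
  · exact hy

private theorem s5_sq {x : ℤ} (hx : x = 1 ∨ x = -1) : x * x = 1 := by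
  rcases hx with rfl | rfl <;> norm_num

/-- three flips -/
private theorem s5_chain (hE : EDSZ V) {t n A : ℤ} (ht : t ≠ 0) (hA : A ≠ 0)
    (c2 : IsCoprime A t) (c3 : IsCoprime 5 A) (h1 : 2 * t ∣ n - A) (h2 : 2 * A ∣ t - 5) :
    J V t n = (J V t n * J V n t) * (J V A t * J V t A) * (J V 5 A * J V A 5) * J V A 5 := by
  have e1 : J V n t = J V A t := J_period hE ht c2 h1
  have e2 : J V t A = J V 5 A := J_period hE hA c3 h2
  have s1 := s5_sq (J_sq hE ht c2)
  have s2 := s5_sq (J_sq hE hA c3)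
  have s3 := s5_sq (J_sq hE (n := 5) (by norm_num) c3.symm)
  rw [e1, e2]
  linear_combination (-1 : ℤ) * J V t n * (J V 5 A * J V 5 A) * (J V A 5 * J V A 5) * s1 -
    J V t n * (J V A 5 * J V A 5) * s2 - J V t n * s3

private theorem s5_case (hE : EDSZ V) {t n A β σ : ℤ} (hσ : σ = 1 ∨ σ = -1) (hβ : β % 10 = 5)
    (ht : t = 1 + 2 * σ * β) (hn : n = 5 * β) (hA : A = β - 2 * σ) :
    IsCoprime t n ∧ IsCoprime A t ∧ IsCoprime 5 A ∧ n ≠ 0 ∧ t ≠ 0 ∧ A ≠ 0 ∧
    J V t n = (J V t n * J V n t) * (J V A t * J V t A) * (J V 5 A * J V A 5) * J V A 5 := by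
  obtain ⟨w, hw⟩ : (5 : ℤ) ∣ β := Int.dvd_of_emod_eq_zero (by omega)
  have hσ2 : σ * σ = 1 := by rcases hσ with rfl | rfl <;> norm_num
  have c3 : IsCoprime 5 A := by
    refine ⟨1 - 2 * σ * w, 2 * σ, ?_⟩
    rw [hA, hw]
    linear_combination (-4 : ℤ) * hσ2
  have c2 : IsCoprime A t := by
    have : t = 5 + A * (2 * σ) := by
      rw [ht, hA]
      linear_combination (4 : ℤ) * hσ2
    rw [this]
    exact IsCoprime.add_mul_left_right_iff.2 c3.symm
  have c1 : IsCoprime t n := by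
    rw [hn]
    apply IsCoprime.mul_right
    · exact ⟨1, -(2 * σ * w), by rw [ht, hw]; ring⟩
    · exact ⟨1, -(2 * σ), by rw [ht]; ring⟩
  have hn0 : n ≠ 0 := by omega
  have ht0 : t ≠ 0 := by
    intro h0
    rw [h0] at ht
    have : (2 : ℤ) ∣ 1 := ⟨-(σ * β), by linarith⟩
    norm_num at this
  have hA0 : A ≠ 0 := by rcases hσ with rfl | rfl <;> omega
  refine ⟨c1, c2, c3, hn0, ht0, hA0, s5_chain hE ht0 hA0 c2 c3 ⟨σ, ?_⟩ ⟨σ, ?_⟩⟩
  · rw [hn, hA, ht]
    linear_combination (-4 : ℤ) * β * hσ2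
  · rw [ht, hA]
    linear_combination (4 : ℤ) * hσ2

/-- flip with a negative entry -/
private theorem s5_flip_neg (hE : EDSZ V) {s n : ℤ} (hn : n ≠ 0) (hs : IsCoprime s n)
    (h4 : s % 4 = 3) (hj : jacobiSym (-1) (op (V n)) = -1) :
    J V s n * J V n s = - hil (V (-s)) (V n) := by
  have e := J_flip hE hn ((IsCoprime.neg_left_iff _ _).2 hs) (by omega : (-s) % 4 = 1)
  rw [J_neg_left hE hn, J_neg_right hE, hj] at e
  linarith

/-- `W_11`-type index: negative, `≡ 5 mod 8` -/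
private theorem s5_jac11 (h : Par c D) {n : ℤ} (hn : n % 20 = 11) :
    jacobiSym (-1) (op (W c D n)) = -1 := by
  have hE := edsz_W h
  have h1 := s5_tab h 11 5 5 hn rfl rfl
  have h2 := hE.pos (-n) (by omega)
  have h3 := hE.ell.neg n
  have h4 : op (W c D n) = op (W c D (-n)) := by rw [h3, op_neg]
  have h5 : W c D n % 8 = 5 := by
    split_ifs at h1 <;> exact h1
  rw [h4, jac_neg_one (by omega) h2, if_pos (by omega)]

/-- the value at indices `≡ 5 mod 20` -/
private theorem s5_five (h : Par c D) {n : ℤ} (hn : n % 20 = 5) :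
    ∃ u : ℤ, W c D n = 2 * u ∧ u % 4 = if c % 4 = 0 then 1 else 3 := by
  obtain ⟨u, hu⟩ := (two_dvd_W_iff h.hc h.hD n).2 (by omega)
  have h1 := s5_tab h 5 2 6 hn rfl rfl
  refine ⟨u, hu, ?_⟩
  rw [hu] at h1
  split_ifs at h1 ⊢ <;> omega

private theorem s5_mod {b : ℤ} {v : ℕ} (hv : 1 ≤ v) (hb : b = 5 ^ v) : b % 20 = 5 := by
  obtain ⟨w, rfl⟩ : ∃ w, v = w + 1 := ⟨v - 1, by omega⟩
  rw [hb]
  clear hb hv b
  induction w with
  | zero => norm_num
  | succ w ih =>
    rw [pow_succ]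
    omega

/-- `J(3,5) = 1` -/
theorem J35 (h : Par c D) : J (W c D) 3 5 = 1 := by
  have hE := edsz_W h
  have c53 : IsCoprime (5 : ℤ) 3 := ⟨2, -3, by norm_num⟩
  have e1 := J_flip hE (s := 5) (n := 3) (by norm_num) c53 (by norm_num)
  obtain ⟨u, hu, hu4⟩ := s5_five h (n := 5) (by norm_num)
  have h3 := s5_tab h (n := 3) 3 5 5 (by norm_num) rfl rfl
  have h3' : W c D 3 % 8 = 5 := by
    split_ifs at h3 <;> exact h3
  have hu2 : u % 2 = 1 := by
    split_ifs at hu4 <;> omega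
  rw [hu, hil_two_odd hu2 (by omega), if_pos (by omega), if_neg (by omega), mul_one] at e1
  have e2 : J (W c D) 5 3 = J (W c D) (-1) 3 := by
    apply J_period hE (by norm_num) ⟨-1, 0, by norm_num⟩
    exact ⟨1, by norm_num⟩
  have e3 := J_neg_left hE (s := 1) (n := 3) (by norm_num)
  rw [J_one hE, mul_one] at e3
  have e4 : jacobiSym (-1) (op (W c D 3)) = -1 := by
    have h2 := hE.pos (-3) (by norm_num)
    have h4 := hE.ell.neg 3
    have h5 : op (W c D 3) = op (W c D (-3)) := by rw [h4, op_neg]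
    rw [h5, jac_neg_one (by omega) h2, if_pos (by omega)]
  rw [e2, e3, e4] at e1
  linarith

/-- `J(A,5)` for `A ≡ 3 mod 10` -/
private theorem s5_A3 (h : Par c D) {A : ℤ} (hA : A % 10 = 3) : J (W c D) A 5 = 1 := by
  have hE := edsz_W h
  rw [← J35 h]
  apply J_period hE (by norm_num) ⟨2, -1, by norm_num⟩
  exact Int.dvd_of_emod_eq_zero (by omega)

/-- `J(A,5)` for `A ≡ 7 mod 10` -/
private theorem s5_A7 (h : Par c D) {A : ℤ} (hA : A % 10 = 7) :
    J (W c D) A 5 = if c % 4 = 0 then 1 else -1 := by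
  have hE := edsz_W h
  have e1 : J (W c D) A 5 = J (W c D) (-3) 5 := by
    apply J_period hE (by norm_num) ⟨-2, -1, by norm_num⟩
    exact Int.dvd_of_emod_eq_zero (by omega)
  rw [e1, J_neg_left hE (by norm_num), J35 h, mul_one]
  obtain ⟨u, hu, hu4⟩ := s5_five h (n := 5) (by norm_num)
  have hp := hE.pos 5 (by norm_num)
  have hu2 : u % 2 = 1 := by
    split_ifs at hu4 <;> omega
  rw [hu, jac_neg_one_two hu2 (by rw [hu] at hp; omega)]
  by_cases hc : c % 4 = 0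
  · rw [if_pos hc] at hu4 ⊢
    rw [if_neg (by omega)]
  · rw [if_neg hc] at hu4 ⊢
    rw [if_pos hu4]

private theorem s5_dvd {t t' : ℤ} {v : ℕ} {k : ℤ} (h : k * 5 ^ v ∣ t - t')
    (h5 : (5 : ℤ) ^ (v + 1) ∣ t - t') (hk : IsCoprime k 5) : k * 5 ^ (v + 1) ∣ t - t' :=
  IsCoprime.mul_dvd (hk.pow_right) ((dvd_mul_right _ _).trans h) h5

/-- 4.1 (see PROOF.md; `J(3,5) = 1`, four classes of `(t-1)/5^v mod 5`) -/
theorem stage5 (h : Par c D) {t : ℤ} {v : ℕ} (hv : 1 ≤ v) (ht : (6 * 5 ^ v : ℤ) ∣ t - 1)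
    (hg : Good c D t (5 ^ (v + 1))) (hg3 : Good c D t (3 * 5 ^ (v + 1))) :
    (5 : ℤ) ^ (v + 1) ∣ t - 1 := by
  have hE := edsz_W h
  obtain ⟨b, hb⟩ : ∃ b : ℤ, b = 5 ^ v := ⟨_, rfl⟩
  have hb20 := s5_mod hv hb
  have h5b : (5 : ℤ) ^ (v + 1) = 5 * b := by rw [pow_succ, hb, mul_comm]
  rw [h5b] at hg hg3 ⊢
  rw [← hb] at ht
  obtain ⟨r, hr⟩ := ht
  by_contra hcon
  have hr5 : r % 5 ≠ 0 := by
    intro h0
    obtain ⟨s, hs⟩ := Int.dvd_of_emod_eq_zero h0
    exact hcon ⟨6 * s, by rw [hr, hs]; ring⟩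
  -- `t` is coprime to `2, 3, 5`
  have ctb : IsCoprime t b := ⟨1, -(6 * r), by linear_combination hr⟩
  have ct5 : IsCoprime t 5 := by
    have : (5 : ℤ) ∣ b := Int.dvd_of_emod_eq_zero (by omega)
    exact ctb.of_isCoprime_of_dvd_right this
  have ct3 : IsCoprime t 3 := ⟨1, -(2 * b * r), by linear_combination hr⟩
  have c5b : IsCoprime t (5 * b) := ct5.mul_right ctb
  have c15b : IsCoprime t (3 * (5 * b)) := ct3.mul_right c5b
  have j1 : J (W c D) t (5 * b) = 1 := J_of_good h (by omega) c5b hg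
  have j3 : J (W c D) t (3 * (5 * b)) = 1 := J_of_good h (by omega) c15b hg3
  -- the four cases `r mod 5`
  have hr' : r % 5 = 1 ∨ r % 5 = 2 ∨ r % 5 = 3 ∨ r % 5 = 4 := by omega
  obtain ⟨u, hu, hu4⟩ := s5_five h (n := 5) (by norm_num)
  have hu2 : u % 2 = 1 := by
    split_ifs at hu4 <;> omega
  have hb10 : b % 10 = 5 := by omega
  rcases hr' with hr' | hr' | hr' | hr'
  · -- `u' = 1`: `β = 3b`
    obtain ⟨s, hs⟩ : ∃ s, r = 1 + 5 * s := ⟨r / 5, by omega⟩
    obtain ⟨t', ht'⟩ : ∃ t' : ℤ, t' = 1 + 2 * 1 * (3 * b) := ⟨_, rfl⟩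
    obtain ⟨n, hn⟩ : ∃ n : ℤ, n = 5 * (3 * b) := ⟨_, rfl⟩
    obtain ⟨A, hA⟩ : ∃ A : ℤ, A = 3 * b - 2 * 1 := ⟨_, rfl⟩
    obtain ⟨c1, c2, c3, hn0, ht0, hA0, hch⟩ := s5_case hE (.inl rfl) (by omega) ht' hn hA
    have e0 : J (W c D) t n = J (W c D) t' n := by
      apply J_period hE hn0 c1
      exact ⟨s, by rw [ht', hn]; linear_combination hr + 6 * b * hs⟩
    have e00 : (3 * (5 * b) : ℤ) = n := by rw [hn]; ring
    rw [e00] at j3
    rw [j3] at e0
    have hWt : W c D t' % 8 = 5 := by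
      have := s5_tab h 11 5 5 (show t' % 20 = (11 : ℕ) by omega) rfl rfl
      split_ifs at this <;> exact this
    have hWA : W c D A % 8 = 5 := by
      have := s5_tab h 13 5 5 (show A % 20 = (13 : ℕ) by omega) rfl rfl
      split_ifs at this <;> exact this
    obtain ⟨w, hw, hw4⟩ := s5_five h (n := -n) (by omega)
    have hw2 : w % 2 = 1 := by
      split_ifs at hw4 <;> omega
    have f1 := s5_flip_neg hE ht0 c1.symm (by omega) (s5_jac11 h (by omega))
    rw [hw, hil_two_odd hw2 (by omega), if_pos (by omega), if_neg (by omega)] at f1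
    have f2 := J_flip hE ht0 c2 (by omega)
    rw [hil_odd_odd (by omega) (by omega), if_neg (by omega)] at f2
    have f3 := J_flip hE hA0 c3 (by norm_num)
    rw [hu, hil_two_odd hu2 (by omega), if_pos (by omega), if_neg (by omega)] at f3
    rw [mul_comm (J (W c D) n t')] at f1
    rw [f1, f2, f3, s5_A3 h (by omega), ← e0] at hch
    norm_num at hch
  · -- `u' = 2`: `β = b`
    obtain ⟨s, hs⟩ : ∃ s, r = 2 + 5 * s := ⟨r / 5, by omega⟩
    obtain ⟨t', ht'⟩ : ∃ t' : ℤ, t' = 1 + 2 * 1 * b := ⟨_, rfl⟩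
    obtain ⟨n, hn⟩ : ∃ n : ℤ, n = 5 * b := ⟨_, rfl⟩
    obtain ⟨A, hA⟩ : ∃ A : ℤ, A = b - 2 * 1 := ⟨_, rfl⟩
    obtain ⟨c1, c2, c3, hn0, ht0, hA0, hch⟩ := s5_case hE (.inl rfl) hb10 ht' hn hA
    have e0 : J (W c D) t n = J (W c D) t' n := by
      apply J_period hE hn0 c1
      exact ⟨1 + 3 * s, by rw [ht', hn]; linear_combination hr + 6 * b * hs⟩
    rw [← hn] at j1
    rw [j1] at e0
    have hWt : W c D t' % 8 = 5 := by
      have := s5_tab h 11 5 5 (show t' % 20 = (11 : ℕ) by omega) rfl rfl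
      split_ifs at this <;> exact this
    have hWA : W c D A % 8 = 5 := by
      have := s5_tab h 3 5 5 (show A % 20 = (3 : ℕ) by omega) rfl rfl
      split_ifs at this <;> exact this
    obtain ⟨w, hw, hw4⟩ := s5_five h (n := n) (by omega)
    have hw2 : w % 2 = 1 := by
      split_ifs at hw4 <;> omega
    have f1 := J_flip hE ht0 c1.symm (by omega)
    rw [hw, hil_two_odd hw2 (by omega), if_pos (by omega), if_neg (by omega)] at f1
    have f2 := s5_flip_neg hE ht0 c2 (by omega) (s5_jac11 h (by omega))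
    have hWA' := hE.ell.neg A
    rw [hil_odd_odd (by omega) (by omega), if_neg (by omega)] at f2
    have f3 := J_flip hE hA0 c3 (by norm_num)
    rw [hu, hil_two_odd hu2 (by omega), if_pos (by omega), if_neg (by omega)] at f3
    rw [mul_comm (J (W c D) n t')] at f1
    rw [f1, f2, f3, s5_A3 h (by omega), ← e0] at hch
    norm_num at hch
  · -- `u' = 3`: `β = b`, `σ = -1`
    obtain ⟨s, hs⟩ : ∃ s, r = 3 + 5 * s := ⟨r / 5, by omega⟩
    obtain ⟨t', ht'⟩ : ∃ t' : ℤ, t' = 1 + 2 * (-1) * b := ⟨_, rfl⟩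
    obtain ⟨n, hn⟩ : ∃ n : ℤ, n = 5 * b := ⟨_, rfl⟩
    obtain ⟨A, hA⟩ : ∃ A : ℤ, A = b - 2 * (-1) := ⟨_, rfl⟩
    obtain ⟨c1, c2, c3, hn0, ht0, hA0, hch⟩ := s5_case hE (.inr rfl) hb10 ht' hn hA
    have e0 : J (W c D) t n = J (W c D) t' n := by
      apply J_period hE hn0 c1
      exact ⟨2 + 3 * s, by rw [ht', hn]; linear_combination hr + 6 * b * hs⟩
    rw [← hn] at j1
    rw [j1] at e0
    have hWt : W c D t' % 8 = 5 := by
      have := s5_tab h 11 5 5 (show t' % 20 = (11 : ℕ) by omega) rfl rfl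
      split_ifs at this <;> exact this
    have hWA : W c D A % 8 = 3 := by
      have := s5_tab h 7 3 3 (show A % 20 = (7 : ℕ) by omega) rfl rfl
      split_ifs at this <;> exact this
    obtain ⟨w, hw, hw4⟩ := s5_five h (n := n) (by omega)
    have hw2 : w % 2 = 1 := by
      split_ifs at hw4 <;> omega
    have f1 := J_flip hE ht0 c1.symm (by omega)
    rw [hw, hil_two_odd hw2 (by omega), if_pos (by omega), if_neg (by omega)] at f1
    have f2 := s5_flip_neg hE ht0 c2 (by omega) (s5_jac11 h (by omega))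
    have hWA' := hE.ell.neg A
    rw [hil_odd_odd (by omega) (by omega), if_neg (by omega)] at f2
    have f3 := J_flip hE hA0 c3 (by norm_num)
    rw [hu, hil_two_odd hu2 (by omega), if_pos (by omega)] at f3
    have f4 := s5_A7 h (A := A) (by omega)
    rw [mul_comm (J (W c D) n t')] at f1
    rw [f1, f2, f3, f4, ← e0] at hch
    by_cases hc : c % 4 = 0
    · rw [if_pos hc] at hu4 hch
      rw [if_neg (by omega)] at hch
      norm_num at hch
    · rw [if_neg hc] at hu4 hch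
      rw [if_pos (by omega)] at hch
      norm_num at hch
  · -- `u' = 4`
    obtain ⟨s, hs⟩ : ∃ s, r = 4 + 5 * s := ⟨r / 5, by omega⟩
    obtain ⟨t', ht'⟩ : ∃ t' : ℤ, t' = 1 + 4 * b := ⟨_, rfl⟩
    obtain ⟨n, hn⟩ : ∃ n : ℤ, n = 5 * b := ⟨_, rfl⟩
    obtain ⟨A, hA⟩ : ∃ A : ℤ, A = b - 1 := ⟨_, rfl⟩
    obtain ⟨w, hw⟩ : (5 : ℤ) ∣ b := Int.dvd_of_emod_eq_zero (by omega)
    have c3 : IsCoprime 5 A := ⟨w, -1, by rw [hA, hw]; ring⟩
    have c2 : IsCoprime A t' := by
      have : t' = 5 + A * 4 := by rw [ht', hA]; ring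
      rw [this]
      exact IsCoprime.add_mul_left_right_iff.2 c3.symm
    have c1 : IsCoprime t' n := by
      rw [hn]
      exact IsCoprime.mul_right ⟨1, -(4 * w), by rw [ht', hw]; ring⟩ ⟨1, -4, by rw [ht']; ring⟩
    have hn0 : n ≠ 0 := by omega
    have ht0 : t' ≠ 0 := by omega
    have hA0 : A ≠ 0 := by omega
    have e0 : J (W c D) t n = J (W c D) t' n := by
      apply J_period hE hn0 c1
      exact ⟨2 + 3 * s, by rw [ht', hn]; linear_combination hr + 6 * b * hs⟩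
    rw [← hn] at j1
    rw [j1] at e0
    have hWt : W c D t' % 8 = 1 := by
      have := s5_tab h 1 1 1 (show t' % 20 = (1 : ℕ) by omega) rfl rfl
      split_ifs at this <;> exact this
    have hWA := s5_tab h 4 7 3 (show A % 20 = (4 : ℕ) by omega) rfl rfl
    have f1 := J_flip hE hn0 c1 (by omega)
    rw [hil_of_one hWt (hE.ne _ hn0), ← e0, one_mul] at f1
    have f2 := J_shift hE ht0 c2
    have e1 : A + t' = n := by rw [hA, ht', hn]; ring
    rw [e1, c_odd_neg h (by omega), f1] at f2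
    have f3 := J_flip hE hA0 c2.symm (by omega)
    rw [hil_of_one hWt (hE.ne _ hA0)] at f3
    have e2 : J (W c D) t' A = J (W c D) 5 A :=
      J_period hE hA0 c3 ⟨2, by rw [ht', hA]; ring⟩
    have f4 := J_flip hE hA0 c3 (by norm_num)
    have hh : hil (W c D 5) (W c D A) = 1 := by
      by_cases hc : c % 4 = 0
      · rw [if_pos hc] at hu4 hWA
        rw [hu, hil_two_odd hu2 (by omega), if_neg (by omega), if_neg (by omega), one_mul]
      · rw [if_neg hc] at hu4 hWA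
        rw [hu, hil_two_odd hu2 (by omega), if_pos (by omega), if_pos (by omega)]
        norm_num
    rw [hh] at f4
    have f5 := J_shift_mul hE (n := 5) (by norm_num) (s := -1) ⟨-1, 0, by norm_num⟩ w
    have e3 : -1 + w * 5 = A := by rw [hA, hw]; ring
    have hw1 : w.natAbs % 2 = 1 := by omega
    have hc5 := J_sq hE (n := 5) (s := 5 + 1) (by norm_num) ⟨1, -1, by norm_num⟩
    have e4 : J (W c D) (5 + 1) 5 ^ w.natAbs = J (W c D) 6 5 := by
      have : (5 + 1 : ℤ) = 6 := by norm_num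
      rw [this] at hc5 ⊢
      rcases hc5 with h6 | h6
      · rw [h6, one_pow]
      · rw [h6, Odd.neg_one_pow (Nat.odd_iff.2 hw1)]
    rw [e3, e4, J_neg_left hE (by norm_num), J_one hE, mul_one, c_five h] at f5
    rw [f5, mul_one] at f4
    rw [e2, f4, one_mul] at f3
    rw [f3] at f2
    norm_num at f2

end MP308.CE
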