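import Pool.Agent.Work.MP_308fa9_nt.CE.ZeroSet

/-! # (1.7): the shift lemma (abstract form) -/

set_option autoImplicit false

namespace MP308.CE

/-- the shift by a zero preserves non-zeros -/
private theorem shift_ne {F : Type*} [Field F] {V : ℤ → F} (h : Reg V) {n : ℤ} (hn : V n = 0)
    (s : ℤ) (hs : V s ≠ 0) : V (s + n) ≠ 0 := by
  rw [add_comm]
  exact h.ne_of_zero hn s hs

/-- step from `s` to `s + 2` over a non-zero -/
private theorem shift_step_ne {F : Type*} [Field F] {V : ℤ → F} (h : Reg V) (n s : ℤ)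
    (hn : V n = 0) (hs : V (s + 1) ≠ 0) :
    IsSquare (V (s + n) * V s * (V (s + 2 + n) * V (s + 2))) := by
  have e := h.ell.three (s + 1 + n) 1 (s + 1)
  rw [show s + 1 + n + 1 = s + 2 + n by ring, show s + 1 + n - 1 = s + n by ring,
    show s + 1 + n - (s + 1) = n by ring, show (1 : ℤ) + (s + 1) = s + 2 by ring,
    show (1 : ℤ) - (s + 1) = -s by ring, h.ell.neg s, hn] at e
  have e2 : V (s + n) * V s * (V (s + 2 + n) * V (s + 2)) * V (s + 1) ^ 2
      = (V (s + 1 + n) * V (s + 2) * V s) ^ 2 := by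
    linear_combination V (s + 2) * V s * e
  have e3 : V (s + n) * V s * (V (s + 2 + n) * V (s + 2))
      = (V (s + 1 + n) * V (s + 2) * V s / V (s + 1)) ^ 2 := by
    rw [div_pow, ← e2]
    field_simp
  rw [e3]
  exact IsSquare.sq _

/-- step from `s` to `s + 2` over a zero -/
private theorem shift_step_zero {F : Type*} [Field F] {V : ℤ → F} (h : Reg V) (n s : ℤ)
    (hn : V n = 0) (hs : V (s + 1) = 0) :
    IsSquare (V (s + n) * V s * (V (s + 2 + n) * V (s + 2))) := by
  have hz : V (s + 1 + n) = 0 := by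
    obtain ⟨r, hr⟩ := h.zset
    rw [hr] at hn hs ⊢
    exact dvd_add hs hn
  obtain ⟨x, hx⟩ := h.sq _ hs
  obtain ⟨y, hy⟩ := h.sq _ hz
  rw [show s + 1 + 1 = s + 2 by ring, show s + 1 - 1 = s by ring] at hx
  rw [show s + 1 + n + 1 = s + 2 + n by ring, show s + 1 + n - 1 = s + n by ring] at hy
  exact ⟨x * y, by linear_combination (-(V (s + 2 + n) * V (s + n))) * hx + x * x * hy⟩

/-- step from `s` to `s + 4` over a zero -/
private theorem shift_step_four {F : Type*} [Field F] {V : ℤ → F} (h : Reg V) (n s : ℤ)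
    (hn : V n = 0) (hs : V (s + 2) = 0) :
    IsSquare (V (s + n) * V s * (V (s + 4 + n) * V (s + 4))) := by
  have hz : V (s + 2 + n) = 0 := by
    obtain ⟨r, hr⟩ := h.zset
    rw [hr] at hn hs ⊢
    exact dvd_add hs hn
  obtain ⟨x, hx⟩ := h.sq _ hs
  obtain ⟨y, hy⟩ := h.sq _ hz
  rw [show s + 2 + 1 = s + 3 by ring, show s + 2 - 1 = s + 1 by ring] at hx
  rw [show s + 2 + n + 1 = s + 3 + n by ring, show s + 2 + n - 1 = s + 1 + n by ring] at hy
  have e1 := h.ell.rel (s + 2) 2
  have e2 := h.ell.rel (s + 2 + n) 2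
  rw [show s + 2 + 2 = s + 4 by ring, show s + 2 - 2 = s by ring,
    show s + 2 + 1 = s + 3 by ring, show s + 2 - 1 = s + 1 by ring, hs] at e1
  rw [show s + 2 + n + 2 = s + 4 + n by ring, show s + 2 + n - 2 = s + n by ring,
    show s + 2 + n + 1 = s + 3 + n by ring, show s + 2 + n - 1 = s + 1 + n by ring, hz] at e2
  refine ⟨x * y * V 2 ^ 2, ?_⟩
  have e1' : V (s + 4) * V s = - (x * x) * V 2 ^ 2 := by
    linear_combination e1 - V 2 ^ 2 * hx
  have e2' : V (s + 4 + n) * V (s + n) = - (y * y) * V 2 ^ 2 := by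
    linear_combination e2 - V 2 ^ 2 * hy
  linear_combination V (s + 4 + n) * V (s + n) * e1' - (x * x) * V 2 ^ 2 * e2'

/-- transitivity -/
private theorem shift_trans {F : Type*} [Field F] {x y z : F} (hy : y ≠ 0)
    (h1 : IsSquare (x * y)) (h2 : IsSquare (y * z)) : IsSquare (x * z) := by
  obtain ⟨u, hu⟩ := h1
  obtain ⟨v, hv⟩ := h2
  refine ⟨u * v / y, ?_⟩
  have : u * v / y * (u * v / y) = (u * u) * (v * v) / (y * y) := by field_simp
  rw [this, ← hu, ← hv]
  field_simp

private theorem shift_up {F : Type*} [Field F] {V : ℤ → F} (h : Reg V) (n : ℤ) (hn : V n = 0) :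
    ∀ (k : ℕ) (s : ℤ), V s ≠ 0 → V (s + 2 * k) ≠ 0 →
      IsSquare (V (s + n) * V s * (V (s + 2 * k + n) * V (s + 2 * k))) := by
  intro k
  induction k using Nat.strong_induction_on with
  | _ k ih =>
    intro s hs hs'
    rcases Nat.eq_zero_or_pos k with rfl | hk
    · exact ⟨V (s + n) * V s, by simp⟩
    by_cases h2 : V (s + 2) = 0
    · -- jump over the zero
      have hk2 : 2 ≤ k := by
        rcases Nat.lt_or_ge k 2 with hlt | hge
        · exfalso
          have : k = 1 := by omega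
          subst this
          apply hs'
          simpa using h2
        · exact hge
      have h4 : V (s + 4) ≠ 0 := by
        have := h.ne_of_zero h2 2 h.two
        rwa [show s + 2 + 2 = s + 4 by ring] at this
      have e := ih (k - 2) (by omega) (s + 4) h4 (by
        rw [show s + 4 + 2 * ((k - 2 : ℕ) : ℤ) = s + 2 * k by push_cast [hk2]; ring]; exact hs')
      rw [show s + 4 + 2 * ((k - 2 : ℕ) : ℤ) = s + 2 * k by push_cast [hk2]; ring] at e
      exact shift_trans (mul_ne_zero (shift_ne h hn _ h4) h4) (shift_step_four h n s hn h2) e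
    · have e := ih (k - 1) (by omega) (s + 2) h2 (by
        rw [show s + 2 + 2 * ((k - 1 : ℕ) : ℤ) = s + 2 * k by push_cast [hk]; ring]; exact hs')
      rw [show s + 2 + 2 * ((k - 1 : ℕ) : ℤ) = s + 2 * k by push_cast [hk]; ring] at e
      refine shift_trans (mul_ne_zero (shift_ne h hn _ h2) h2) ?_ e
      by_cases h1 : V (s + 1) = 0
      · exact shift_step_zero h n s hn h1
      · exact shift_step_ne h n s hn h1

/-- (1.7) -/
theorem shift_sq {F : Type*} [Field F] {V : ℤ → F} (h : Reg V) (n s s' : ℤ) (hn : V n = 0)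
    (hs : V s ≠ 0) (hs' : V s' ≠ 0) (hp : s % 2 = s' % 2) :
    IsSquare (V (s + n) * V s * (V (s' + n) * V s')) := by
  rcases le_total s s' with hle | hle
  · obtain ⟨k, hk⟩ : ∃ k : ℕ, s' = s + 2 * k := ⟨((s' - s) / 2).toNat, by omega⟩
    subst hk
    exact shift_up h n hn k s hs hs'
  · obtain ⟨k, hk⟩ : ∃ k : ℕ, s = s' + 2 * k := ⟨((s - s') / 2).toNat, by omega⟩
    subst hk
    rw [mul_comm]
    exact shift_up h n hn k s' hs' hs

/-- for odd `n` the parity condition can be dropped -/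
theorem shift_sq_odd {F : Type*} [Field F] {V : ℤ → F} (h : Reg V) (n s s' : ℤ) (hn : V n = 0)
    (hs : V s ≠ 0) (hs' : V s' ≠ 0) (hp : n % 2 = 1) :
    IsSquare (V (s + n) * V s * (V (s' + n) * V s')) := by
  by_cases hpar : s % 2 = s' % 2
  · exact shift_sq h n s s' hn hs hs' hpar
  · have h1 : V (-s' - n) = -V (s' + n) := by
      rw [show -s' - n = -(s' + n) by ring, h.ell.neg]
    have h2 : V (-s' - n + n) = -V s' := by
      rw [show -s' - n + n = -s' by ring, h.ell.neg]
    have e := shift_sq h n s (-s' - n) hn hs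
      (by rw [h1]; exact neg_ne_zero.2 (shift_ne h hn _ hs')) (by omega)
    rw [h1, h2] at e
    obtain ⟨x, hx⟩ := e
    exact ⟨x, by linear_combination hx⟩

end MP308.CE
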