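import Pool.Agent.Work.MP_308fa9_nt.CE.EllW

/-! # (1.6), abstract part: zeros of elliptic sequences with values in a field -/

set_option autoImplicit false

namespace MP308.CE

/-- pigeonhole: `V_i = 0` for some `1 ≤ i ≤ 2q+1` -/
theorem exists_zero (q : ℕ) [Fact q.Prime] (V : ℤ → ZMod q) (h : Ell V) :
    ∃ i : ℕ, 1 ≤ i ∧ i ≤ 2 * q + 1 ∧ V i = 0 := by
  by_contra hc
  push Not at hc
  let f : Fin (q + 1) → ZMod q := fun i => V ((i : ℕ) + 2) * V ((i : ℕ)) / V ((i : ℕ) + 1) ^ 2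
  have hcard : Fintype.card (ZMod q) < Fintype.card (Fin (q + 1)) := by
    rw [ZMod.card, Fintype.card_fin]; omega
  obtain ⟨i, j, hij, hf⟩ := Fintype.exists_ne_map_eq_of_card_lt f hcard
  wlog hlt : (i : ℕ) < j generalizing i j
  · refine this j i hij.symm hf.symm ?_
    have : (i : ℕ) ≠ j := fun h => hij (Fin.ext h)
    omega
  have hi := hc ((i : ℕ) + 1) (by omega) (by omega)
  have hj := hc ((j : ℕ) + 1) (by omega) (by omega)
  have hs := hc ((i : ℕ) + 1 + ((j : ℕ) + 1)) (by omega) (by omega)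
  have hd := hc ((j : ℕ) - i) (by omega) (by omega)
  push_cast at hi hj hs
  rw [Nat.cast_sub hlt.le] at hd
  have hf' : V ((i : ℕ) + 2) * V ((i : ℕ)) / V ((i : ℕ) + 1) ^ 2 =
      V ((j : ℕ) + 2) * V ((j : ℕ)) / V ((j : ℕ) + 1) ^ 2 := hf
  rw [div_eq_div_iff (pow_ne_zero 2 hi) (pow_ne_zero 2 hj)] at hf'
  have hr := h.rel ((j : ℕ) + 1) ((i : ℕ) + 1)
  rw [show ((j : ℕ) : ℤ) + 1 + ((i : ℕ) + 1) = (i : ℕ) + 1 + ((j : ℕ) + 1) by ring,
    show ((j : ℕ) : ℤ) + 1 - ((i : ℕ) + 1) = (j : ℕ) - (i : ℕ) by ring,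
    show ((j : ℕ) : ℤ) + 1 + 1 = (j : ℕ) + 2 by ring, show ((j : ℕ) : ℤ) + 1 - 1 = (j : ℕ) by ring,
    show ((i : ℕ) : ℤ) + 1 + 1 = (i : ℕ) + 2 by ring,
    show ((i : ℕ) : ℤ) + 1 - 1 = (i : ℕ) by ring] at hr
  have h0 : V ((i : ℕ) + 1 + ((j : ℕ) + 1)) * V ((j : ℕ) - (i : ℕ)) = 0 := by
    rw [hr]; linear_combination -hf'
  rcases mul_eq_zero.1 h0 with h0 | h0
  · exact hs h0
  · exact hd h0

section
variable {F : Type*} [Field F] {V : ℤ → F}

private lemma zs_A (h : Ell V) (h3 : V 3 ≠ 0) {N : ℤ} (h0 : V N = 0) (h1 : V (N - 1) ≠ 0) :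
    V (N + 1) ≠ 0 := by
  intro hc
  have e := h.rel (N - 1) 2
  rw [show N - 1 + 2 = N + 1 by ring, show N - 1 + 1 = N by ring, show (2 : ℤ) + 1 = 3 by norm_num,
    show (2 : ℤ) - 1 = 1 by norm_num, hc, h0, h.one] at e
  have : V 3 * V (N - 1) ^ 2 = 0 := by linear_combination e
  rcases mul_eq_zero.1 this with h4 | h4
  · exact h3 h4
  · exact h1 (pow_eq_zero_iff two_ne_zero |>.1 h4)

private lemma zs_B (h : Ell V) {N k : ℤ} (h0 : V N = 0) (h1 : V (N - 1) ≠ 0) (h2 : V (N + 1) ≠ 0)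
    (hk : V k ≠ 0) : V (N + k) ≠ 0 ∧ V (N - k) ≠ 0 := by
  have e := h.rel N k
  rw [h0] at e
  have e1 : V (N + k) * V (N - k) ≠ 0 := by
    rw [e]
    have : V (N + 1) * V (N - 1) * V k ^ 2 ≠ 0 :=
      mul_ne_zero (mul_ne_zero h2 h1) (pow_ne_zero 2 hk)
    simpa using this
  exact ⟨left_ne_zero_of_mul e1, right_ne_zero_of_mul e1⟩

/-- the set of zeros is `rℤ` -/
theorem zset_of_ne {F : Type*} [Field F] {V : ℤ → F} (h : Ell V) (h2 : V 2 ≠ 0) (h3 : V 3 ≠ 0) :
    ∃ r : ℕ, ∀ n : ℤ, V n = 0 ↔ (r : ℤ) ∣ n := by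
  classical
  by_cases hex : ∃ i : ℕ, 1 ≤ i ∧ V i = 0
  · set r := Nat.find hex with hr
    obtain ⟨hr1, hr0⟩ := Nat.find_spec hex
    rw [← hr] at hr1 hr0
    have hmin : ∀ k : ℕ, 1 ≤ k → k < r → V k ≠ 0 := fun k hk hkr h0 =>
      Nat.find_min hex hkr ⟨hk, h0⟩
    have hr4 : 4 ≤ r := by
      by_contra hc
      have : r = 1 ∨ r = 2 ∨ r = 3 := by omega
      rcases this with h4 | h4 | h4 <;> rw [h4] at hr0
      · rw [Nat.cast_one, h.one] at hr0; exact one_ne_zero hr0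
      · exact h2 (by exact_mod_cast hr0)
      · exact h3 (by exact_mod_cast hr0)
    -- the induction
    have key : ∀ K : ℕ, V ((K : ℤ) * r) = 0 ∧ ∀ k : ℕ, 1 ≤ k → k < r →
        V ((K : ℤ) * r + k) ≠ 0 ∧ V ((K : ℤ) * r - k) ≠ 0 := by
      intro K
      induction K with
      | zero =>
        refine ⟨by simp [h.zero], fun k hk hkr => ?_⟩
        have := hmin k hk hkr
        refine ⟨by simpa using this, ?_⟩
        rw [Nat.cast_zero, zero_mul, zero_sub, h.neg]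
        exact neg_ne_zero.2 this
      | succ K ih =>
        obtain ⟨ih0, ih1⟩ := ih
        have hr2 := (ih1 (r - 2) (by omega) (by omega)).2
        have ez : V (((K + 1 : ℕ) : ℤ) * r) = 0 := by
          have e := h.three ((K : ℤ) * r + 1) ((r : ℤ) - 1) 1
          rw [show (K : ℤ) * r + 1 + ((r : ℤ) - 1) = ((K + 1 : ℕ) : ℤ) * r by push_cast; ring,
            show (K : ℤ) * r + 1 - ((r : ℤ) - 1) = (K : ℤ) * r - ((r - 2 : ℕ) : ℤ) by
              push_cast [show 2 ≤ r by omega]; ring,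
            show (K : ℤ) * r + 1 - 1 = (K : ℤ) * r by ring, ih0,
            show (r : ℤ) - 1 + 1 = r by ring, hr0, h.one] at e
          have e2 : V (((K + 1 : ℕ) : ℤ) * r) * V ((K : ℤ) * r - ((r - 2 : ℕ) : ℤ)) = 0 := by
            linear_combination e
          exact (mul_eq_zero.1 e2).resolve_right hr2
        have em : V (((K + 1 : ℕ) : ℤ) * r - 1) ≠ 0 := by
          have := (ih1 (r - 1) (by omega) (by omega)).1
          rwa [show (K : ℤ) * r + ((r - 1 : ℕ) : ℤ) = ((K + 1 : ℕ) : ℤ) * r - 1 by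
            push_cast [show 1 ≤ r by omega]; ring] at this
        have ep := zs_A h h3 ez em
        exact ⟨ez, fun k hk hkr => zs_B h ez em ep (hmin k hk hkr)⟩
    have hnat : ∀ n : ℕ, V (n : ℤ) = 0 ↔ r ∣ n := by
      intro n
      have hdm := Nat.div_add_mod n r
      have hlt := Nat.mod_lt n (show 0 < r by omega)
      constructor
      · intro h0
        by_contra hnd
        have hk : 1 ≤ n % r := by
          rcases Nat.eq_zero_or_pos (n % r) with h4 | h4
          · exact absurd (Nat.dvd_of_mod_eq_zero h4) hnd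
          · exact h4
        have := ((key (n / r)).2 (n % r) hk hlt).1
        apply this
        have e : ((n / r : ℕ) : ℤ) * r + ((n % r : ℕ) : ℤ) = (n : ℤ) := by
          have := congrArg (Nat.cast : ℕ → ℤ) hdm
          rw [Nat.cast_add, Nat.cast_mul] at this
          linarith
        rw [e]
        exact h0
      · rintro ⟨m, rfl⟩
        have := (key m).1
        rwa [show ((r * m : ℕ) : ℤ) = (m : ℤ) * r by push_cast; ring]
    refine ⟨r, fun n => ?_⟩
    rcases Int.natAbs_eq n with hn | hn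
    · rw [hn, hnat]
      exact Int.natCast_dvd_natCast.symm
    · rw [hn, h.neg, neg_eq_zero, hnat, dvd_neg]
      exact Int.natCast_dvd_natCast.symm
  · push Not at hex
    refine ⟨0, fun n => ?_⟩
    rw [Nat.cast_zero, zero_dvd_iff]
    constructor
    · intro h0
      by_contra hn
      rcases Int.natAbs_eq n with hn' | hn'
      · have := hex n.natAbs (Int.natAbs_pos.2 hn)
        rw [hn'] at h0
        exact this h0
      · have := hex n.natAbs (Int.natAbs_pos.2 hn)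
        rw [hn', h.neg, neg_eq_zero] at h0
        exact this h0
    · rintro rfl
      exact h.zero

end

theorem sq_of_ne {F : Type*} [Field F] {V : ℤ → F} (h : Ell V) (h2 : V 2 ≠ 0) (h3 : V 3 ≠ 0)
    (n : ℤ) (hn : V n = 0) : IsSquare (-(V (n + 1) * V (n - 1))) := by
  have e1 := h.rel (n + 1) 2
  rw [show n + 1 + 2 = n + 3 by ring, show n + 1 - 2 = n - 1 by ring,
    show n + 1 + 1 = n + 2 by ring, show n + 1 - 1 = n by ring, show (2 : ℤ) + 1 = 3 by norm_num,
    show (2 : ℤ) - 1 = 1 by norm_num, hn, h.one] at e1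
  have e2 := h.rel (n + 2) 2
  rw [show n + 2 + 2 = n + 4 by ring, show n + 2 - 2 = n by ring, show n + 2 + 1 = n + 3 by ring,
    show n + 2 - 1 = n + 1 by ring, show (2 : ℤ) + 1 = 3 by norm_num,
    show (2 : ℤ) - 1 = 1 by norm_num, hn, h.one] at e2
  have e3 : V 3 * (V (n + 2) ^ 2 * V (n - 1) + V (n + 1) ^ 3 * V 2 ^ 2) = 0 := by
    linear_combination V (n + 1) * V 2 ^ 2 * e1 + V (n - 1) * e2
  have e4 := (mul_eq_zero.1 e3).resolve_left h3
  by_cases h1 : V (n + 1) = 0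
  · rw [h1]; simp
  · refine ⟨V (n + 2) * V (n - 1) / (V (n + 1) * V 2), ?_⟩
    field_simp
    linear_combination -V (n - 1) * e4

theorem reg_of_ne {F : Type*} [Field F] {V : ℤ → F} (h : Ell V) (h2 : V 2 ≠ 0) (h3 : V 3 ≠ 0) :
    Reg V := ⟨h, h2, zset_of_ne h h2 h3, fun n hn => sq_of_ne h h2 h3 n hn⟩

/-- neighbours of a zero are nonzero -/
theorem Reg.ne_of_zero {F : Type*} [Field F] {V : ℤ → F} (h : Reg V) {n : ℤ} (hn : V n = 0) (k : ℤ)
    (hk : V k ≠ 0) : V (n + k) ≠ 0 := by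
  obtain ⟨r, hr⟩ := h.zset
  intro h1
  rw [hr] at hn h1
  rw [Ne, hr] at hk
  exact hk ((dvd_add_right hn).1 h1)

end MP308.CE
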